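import Pool.Agent.Lib.MP_216314_pr.Ca.CaBern
import Pool.Agent.Lib.MP_216314_pr_CDH.Beta

/-!
# The limit of the beta-binomial distribution function
-/

set_option autoImplicit false

noncomputable section

namespace CD

open Finset Filter Topology MeasureTheory Set ProbabilityTheory

/-- the weight -/
def wt (u v x : ℝ) : ℝ := x ^ (u - 1) * (1 - x) ^ (v - 1)

theorem wt_int {u v : ℝ} (hu : 0 < u) (hv : 0 < v) :
    IntegrableOn (wt u v) (Ioo 0 1) ∧ ∫ x in Ioo (0 : ℝ) 1, wt u v x = beta u v := by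
  have h1 := Complex.betaIntegral_convergent (u := (u : ℂ)) (v := (v : ℂ)) (by simpa) (by simpa)
  rw [intervalIntegrable_iff_integrableOn_Ioo_of_le zero_le_one] at h1
  have h2 : ∀ x ∈ Ioo (0 : ℝ) 1, (x : ℂ) ^ ((u : ℂ) - 1) * (1 - (x : ℂ)) ^ ((v : ℂ) - 1) = ((wt u v x : ℝ) : ℂ) := by
    intro x hx
    unfold wt
    rw [Complex.ofReal_mul, Complex.ofReal_cpow hx.1.le, Complex.ofReal_cpow (by linarith [hx.2])]
    push_cast
    rfl
  have h3 : IntegrableOn (fun x => ((wt u v x : ℝ) : ℂ)) (Ioo 0 1) := h1.congr_fun h2 measurableSet_Ioo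
  have h4 : IntegrableOn (wt u v) (Ioo 0 1) := by
    have := h3.re
    exact this
  refine ⟨h4, ?_⟩
  rw [beta_eq_betaIntegralReal u v hu hv, Complex.betaIntegral, intervalIntegral.integral_of_le zero_le_one,
    integral_Ioc_eq_integral_Ioo, setIntegral_congr_fun measurableSet_Ioo h2, integral_complex_ofReal, Complex.ofReal_re]

theorem Gamma_add_nat {c : ℝ} (hc : 0 < c) (i : ℕ) : Real.Gamma (c + i) = Real.Gamma c * ∏ l ∈ range i, (c + l) := by
  induction i with
  | zero => simp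
  | succ i ih =>
    rw [prod_range_succ, ← mul_assoc, ← ih]
    push_cast
    rw [← add_assoc, Real.Gamma_add_one (by positivity)]
    ring

theorem vv_eq (i : ℕ) : CDH.vv i * i.factorial = ∏ l ∈ range i, (1 / 3 + (l : ℝ)) := by
  induction i with
  | zero => simp [CDH.vv_zero]
  | succ i ih =>
    rw [prod_range_succ, ← ih, Nat.factorial_succ]
    have h := CDH.vv_succ i
    push_cast
    linear_combination (i.factorial : ℝ) * h

theorem VV_eq (i : ℕ) : CDH.VV i * i.factorial = ∏ l ∈ range i, (2 / 3 + (l : ℝ)) := by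
  induction i with
  | zero => simp [CDH.VV_zero]
  | succ i ih =>
    rw [prod_range_succ, ← ih, Nat.factorial_succ]
    have h := CDH.VV_succ i
    push_cast
    linear_combination (i.factorial : ℝ) * h

/-- the weights of the beta-binomial law are moments -/
theorem bb_moment (i j : ℕ) : CDH.vv i * CDH.vv j / CDH.VV (i + j) =
    ((i + j).choose i : ℝ) * (beta (1 / 3 + i) (1 / 3 + j) / beta (1 / 3) (1 / 3)) := by
  unfold beta
  have e : (1 / 3 + (i : ℝ) + (1 / 3 + (j : ℝ))) = 2 / 3 + ((i + j : ℕ) : ℝ) := by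
    push_cast
    ring
  have e2 : (1 / 3 + 1 / 3 : ℝ) = 2 / 3 := by norm_num
  rw [e, e2, Gamma_add_nat (by norm_num) i, Gamma_add_nat (by norm_num) j, Gamma_add_nat (by norm_num) (i + j), ← vv_eq, ← vv_eq, ← VV_eq]
  have h1 : Real.Gamma (1 / 3) ≠ 0 := (Real.Gamma_pos_of_pos (by norm_num)).ne'
  have h2 : Real.Gamma (2 / 3) ≠ 0 := (Real.Gamma_pos_of_pos (by norm_num)).ne'
  have h3 := (CDH.VV_pos (i + j)).ne'
  have h4 : ((i + j).factorial : ℝ) ≠ 0 := Nat.cast_ne_zero.2 (Nat.factorial_ne_zero _)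
  have h5 : (i.factorial : ℝ) ≠ 0 := Nat.cast_ne_zero.2 (Nat.factorial_ne_zero _)
  have h6 : (j.factorial : ℝ) ≠ 0 := Nat.cast_ne_zero.2 (Nat.factorial_ne_zero _)
  have h7 : ((i + j).choose i : ℝ) * i.factorial * j.factorial = (i + j).factorial := by
    have h9 := Nat.choose_mul_factorial_mul_factorial (Nat.le_add_right i j)
    rw [Nat.add_sub_cancel_left] at h9
    exact_mod_cast h9
  have h8 : ((i + j).choose i : ℝ) = (i + j).factorial / (i.factorial * j.factorial) := by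
    rw [eq_div_iff (mul_ne_zero h5 h6), ← mul_assoc]
    exact h7
  rw [h8]
  field_simp

/-- the distribution function of the beta-binomial law as a mixture -/
theorem FF_mix (k m : ℕ) : CDH.FF k m = (∫ x in Ioo (0 : ℝ) 1, bd (k + m + 1) k x * wt (1 / 3) (1 / 3) x) / beta (1 / 3) (1 / 3) := by
  have h1 : ∀ i ∈ range (k + 1), ∀ x ∈ Ioo (0 : ℝ) 1, bw (k + m + 1) i x * wt (1 / 3) (1 / 3) x =
      ((k + m + 1).choose i : ℝ) * wt (1 / 3 + i) (1 / 3 + (k + m + 1 - i : ℕ)) x := by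
    intro i _ x hx
    have hx1 : 0 < 1 - x := by linarith [hx.2]
    unfold bw wt
    have e1 : (1 / 3 + (i : ℝ) - 1) = (i : ℝ) + (1 / 3 - 1) := by ring
    have e2 : (1 / 3 + ((k + m + 1 - i : ℕ) : ℝ) - 1) = ((k + m + 1 - i : ℕ) : ℝ) + (1 / 3 - 1) := by ring
    rw [e1, e2, Real.rpow_add hx.1, Real.rpow_add hx1, Real.rpow_natCast, Real.rpow_natCast]
    ring
  have h2 : ∀ i ∈ range (k + 1), IntegrableOn (fun x => bw (k + m + 1) i x * wt (1 / 3) (1 / 3) x) (Ioo 0 1) := by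
    intro i hi
    have h3 := (wt_int (u := 1 / 3 + i) (v := 1 / 3 + (k + m + 1 - i : ℕ)) (by positivity) (by positivity)).1
    exact IntegrableOn.congr_fun (h3.const_mul ((k + m + 1).choose i : ℝ)) (fun x hx => (h1 i hi x hx).symm) measurableSet_Ioo
  have h3 : (∫ x in Ioo (0 : ℝ) 1, bd (k + m + 1) k x * wt (1 / 3) (1 / 3) x) =
      ∑ i ∈ range (k + 1), ((k + m + 1).choose i : ℝ) * beta (1 / 3 + i) (1 / 3 + (k + m + 1 - i : ℕ)) := by
    unfold bd
    simp only [sum_mul]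
    rw [integral_finsetSum _ h2]
    refine sum_congr rfl fun i hi => ?_
    rw [setIntegral_congr_fun measurableSet_Ioo (h1 i hi), integral_const_mul,
      (wt_int (u := 1 / 3 + i) (v := 1 / 3 + (k + m + 1 - i : ℕ)) (by positivity) (by positivity)).2]
  rw [h3]
  unfold CDH.FF CDH.GG
  rw [sum_div, sum_div]
  refine sum_congr rfl fun i hi => ?_
  have hi' := Finset.mem_range.1 hi
  have h4 := bb_moment i (k + m + 1 - i)
  rw [show i + (k + m + 1 - i) = k + m + 1 by omega] at h4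
  rw [h4]
  ring

/-- **Cardy's function** -/
def cardy (α : ℝ) : ℝ := (∫ x in (0 : ℝ)..α, (x * (1 - x)) ^ (-(2 / 3) : ℝ)) / ∫ x in (0 : ℝ)..1, (x * (1 - x)) ^ (-(2 / 3) : ℝ)

theorem wt_eq {x : ℝ} (h0 : 0 ≤ x) (h1 : x ≤ 1) : wt (1 / 3) (1 / 3) x = (x * (1 - x)) ^ (-(2 / 3) : ℝ) := by
  unfold wt
  rw [Real.mul_rpow h0 (by linarith)]
  norm_num

theorem cardy_eq {α : ℝ} (h0 : 0 ≤ α) (h1 : α ≤ 1) :
    cardy α = (∫ x in Ioo (0 : ℝ) α, wt (1 / 3) (1 / 3) x) / beta (1 / 3) (1 / 3) := by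
  unfold cardy
  rw [intervalIntegral.integral_of_le h0, intervalIntegral.integral_of_le zero_le_one, integral_Ioc_eq_integral_Ioo,
    integral_Ioc_eq_integral_Ioo, ← (wt_int (u := 1 / 3) (v := 1 / 3) (by norm_num) (by norm_num)).2]
  congr 1
  · exact setIntegral_congr_fun measurableSet_Ioo fun x hx => (wt_eq hx.1.le (by linarith [hx.2])).symm
  · exact setIntegral_congr_fun measurableSet_Ioo fun x hx => (wt_eq hx.1.le hx.2.le).symm

/-- **the limit of the exact law is Cardy's function** -/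
theorem FF_lim {k m : ℕ → ℕ} {α : ℝ} (h0 : 0 ≤ α) (h1 : α ≤ 1) (hL : Tendsto (fun j => k j + m j + 1) atTop atTop)
    (h : Tendsto (fun j => (k j : ℝ) / ((k j + m j + 1 : ℕ) : ℝ)) atTop (𝓝 α)) :
    Tendsto (fun j => CDH.FF (k j) (m j)) atTop (𝓝 (cardy α)) := by
  rw [cardy_eq h0 h1]
  simp only [FF_mix]
  refine Tendsto.div_const ?_ _
  have e : (∫ x in Ioo (0 : ℝ) α, wt (1 / 3) (1 / 3) x) =
      ∫ x in Ioo (0 : ℝ) 1, (if x < α then 1 else 0) * wt (1 / 3) (1 / 3) x := by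
    have e1 : Ioo (0 : ℝ) α = Ioo (0 : ℝ) 1 ∩ Iio α := by
      ext x
      simp only [Set.mem_Ioo, Set.mem_inter_iff, Set.mem_Iio]
      constructor
      · rintro ⟨h2, h3⟩
        exact ⟨⟨h2, by linarith⟩, h3⟩
      · rintro ⟨⟨h2, _⟩, h3⟩
        exact ⟨h2, h3⟩
    rw [e1, ← setIntegral_indicator measurableSet_Iio]
    refine setIntegral_congr_fun measurableSet_Ioo fun x _ => ?_
    unfold Set.indicator
    simp only [Set.mem_Iio]
    split_ifs
    · rw [one_mul]
    · rw [zero_mul]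
  rw [e]
  have hw := (wt_int (u := 1 / 3) (v := 1 / 3) (by norm_num) (by norm_num)).1
  refine tendsto_integral_of_dominated_convergence (wt (1 / 3) (1 / 3)) ?_ hw ?_ ?_
  · intro j
    refine AEStronglyMeasurable.mul ?_ hw.aestronglyMeasurable
    refine Continuous.aestronglyMeasurable ?_
    unfold bd bw
    fun_prop
  · intro j
    refine ae_restrict_of_forall_mem measurableSet_Ioo fun x hx => ?_
    have hx1 : 0 ≤ 1 - x := by linarith [hx.2]
    have hw0 : 0 ≤ wt (1 / 3) (1 / 3) x := mul_nonneg (Real.rpow_nonneg hx.1.le _) (Real.rpow_nonneg hx1 _)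
    rw [norm_mul, Real.norm_of_nonneg (bd_nonneg hx.1.le hx.2.le), Real.norm_of_nonneg hw0]
    exact mul_le_of_le_one_left hw0 (bd_le_one (by omega) hx.1.le hx.2.le)
  · have hne : ∀ᵐ x ∂(volume.restrict (Ioo (0 : ℝ) 1)), x ≠ α := by
      refine ae_restrict_of_ae ?_
      exact (measure_singleton (μ := volume) α) |> fun h => by
        rw [ae_iff]
        simp
    filter_upwards [hne, ae_restrict_mem measurableSet_Ioo] with x hx hx'
    exact (bd_lim (K := k) (L := fun j => k j + m j + 1) (fun j => by omega) hL h hx'.1.le hx'.2.le hx).mul_const _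

end CD
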