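import Pool.Agent.Lib.MP_216314_pr.Ca.CaMono
import Pool.Agent.Lib.MP_216314_pr.Ca.CaBeta

/-!
# From the exact law for odd widths to Cardy's formula for all widths
-/

set_option autoImplicit false

noncomputable section

namespace CD

open Finset Filter Topology

/-- the exact law for odd widths -/
def Exact : Prop := ∀ p q : ℕ, Tendsto (fun N => cr (2 * p + 1) (2 * p + 2 * q + 3) (2 * N + 1)) atTop (𝓝 (CDH.FF (2 * p + 1) (2 * q + 1)))

theorem cri_exact (h : Exact) (p q : ℕ) : cri (2 * p + 1) (2 * p + 2 * q + 3) = CDH.FF (2 * p + 1) (2 * q + 1) := by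
  have h1 : Tendsto (fun N : ℕ => 2 * N + 1) atTop atTop :=
    tendsto_atTop_mono (fun N => (by omega : N ≤ 2 * N + 1)) tendsto_id
  exact tendsto_nhds_unique ((cri_tendsto (2 * p + 1) (2 * p + 2 * q + 3)).comp h1) (h p q)

theorem cri_low (h : Exact) {k L : ℕ} (hk : 1 ≤ k) (hL : k + 2 ≤ L) :
    CDH.FF (2 * ((k - 1) / 2) + 1) (2 * ((L - k - 1) / 2) + 1) ≤ cri k L := by
  rw [← cri_exact h]
  -- the width `M` of the odd strip
  have step1 : ∀ M, k ≤ M → M ≤ L + 1 → ∀ M', M ≤ M' → M' ≤ M + 1 → cri k M' ≤ cri k M := by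
    intro M h1 _ M' h2 h3
    rcases Nat.lt_or_ge M M' with h4 | h4
    · have e : M' = M + 1 := by omega
      rw [e]
      exact cri_right h1
    · have e : M' = M := by omega
      rw [e]
  rcases Nat.even_or_odd k with ⟨n, hn⟩ | ⟨n, hn⟩
  · -- even
    have hl := cri_left (k - 1) (L - 1)
    have e1 : k - 1 + 1 = k := by omega
    have e2 : L - 1 + 1 = L := by omega
    rw [e1, e2] at hl
    refine le_trans ?_ hl
    have e3 : 2 * ((k - 1) / 2) + 1 = k - 1 := by omega
    rw [e3]
    rcases Nat.lt_or_ge (L - 1) (2 * ((k - 1) / 2) + 2 * ((L - k - 1) / 2) + 3) with h4 | h4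
    · have e : 2 * ((k - 1) / 2) + 2 * ((L - k - 1) / 2) + 3 = L - 1 + 1 := by omega
      rw [e]
      exact cri_right (by omega)
    · have e : 2 * ((k - 1) / 2) + 2 * ((L - k - 1) / 2) + 3 = L - 1 := by omega
      rw [e]
  · have e3 : 2 * ((k - 1) / 2) + 1 = k := by omega
    rw [e3]
    rcases Nat.lt_or_ge L (2 * ((k - 1) / 2) + 2 * ((L - k - 1) / 2) + 3) with h4 | h4
    · have e : 2 * ((k - 1) / 2) + 2 * ((L - k - 1) / 2) + 3 = L + 1 := by omega
      rw [e]
      exact cri_right (by omega)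
    · have e : 2 * ((k - 1) / 2) + 2 * ((L - k - 1) / 2) + 3 = L := by omega
      rw [e]

theorem cri_upp (h : Exact) {k L : ℕ} (hL : k + 2 ≤ L) :
    cri k L ≤ CDH.FF (2 * (k / 2) + 1) (2 * ((L - k - 2) / 2) + 1) := by
  rw [← cri_exact h]
  rcases Nat.even_or_odd k with ⟨n, hn⟩ | ⟨n, hn⟩
  · refine (cri_left k L).trans ?_
    have e3 : 2 * (k / 2) + 1 = k + 1 := by omega
    rw [e3]
    rcases Nat.lt_or_ge (2 * (k / 2) + 2 * ((L - k - 2) / 2) + 3) (L + 1) with h4 | h4
    · have e : L + 1 = (2 * (k / 2) + 2 * ((L - k - 2) / 2) + 3) + 1 := by omega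
      rw [e]
      exact cri_right (by omega)
    · have e : L + 1 = 2 * (k / 2) + 2 * ((L - k - 2) / 2) + 3 := by omega
      rw [e]
  · have e3 : 2 * (k / 2) + 1 = k := by omega
    rw [e3]
    rcases Nat.lt_or_ge (2 * (k / 2) + 2 * ((L - k - 2) / 2) + 3) L with h4 | h4
    · have e : L = (2 * (k / 2) + 2 * ((L - k - 2) / 2) + 3) + 1 := by omega
      conv_lhs => rw [e]
      exact cri_right (by omega)
    · have e : L = 2 * (k / 2) + 2 * ((L - k - 2) / 2) + 3 := by omega
      conv_lhs => rw [e]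

theorem ratio {k L a b : ℕ → ℕ} {α : ℝ} (hL : Tendsto L atTop atTop) (h : Tendsto (fun j => (k j : ℝ) / L j) atTop (𝓝 α))
    (ha : ∀ᶠ j in atTop, a j ≤ k j + 2 ∧ k j ≤ a j + 2) (hb : ∀ᶠ j in atTop, b j ≤ L j + 2 ∧ L j ≤ b j + 2) :
    Tendsto (fun j => (a j : ℝ) / b j) atTop (𝓝 α) := by
  have hLR : Tendsto (fun j => (L j : ℝ)) atTop atTop := tendsto_natCast_atTop_atTop.comp hL
  have h2 : Tendsto (fun j => (2 : ℝ) / L j) atTop (𝓝 0) := Tendsto.div_atTop tendsto_const_nhds hLR
  have hpos : ∀ᶠ j in atTop, (0 : ℝ) < L j := hLR.eventually (eventually_gt_atTop 0)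
  have h3 : Tendsto (fun j => ((a j : ℝ) - k j) / L j) atTop (𝓝 0) := by
    refine squeeze_zero_norm' ?_ h2
    filter_upwards [ha, hpos] with j hj hp
    rw [norm_div, Real.norm_of_nonneg hp.le, Real.norm_eq_abs]
    refine div_le_div_of_nonneg_right ?_ hp.le
    have h4 : (a j : ℝ) ≤ k j + 2 := by exact_mod_cast hj.1
    have h5 : (k j : ℝ) ≤ a j + 2 := by exact_mod_cast hj.2
    rw [abs_le]
    constructor <;> linarith
  have h4 : Tendsto (fun j => ((b j : ℝ) - L j) / L j) atTop (𝓝 0) := by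
    refine squeeze_zero_norm' ?_ h2
    filter_upwards [hb, hpos] with j hj hp
    rw [norm_div, Real.norm_of_nonneg hp.le, Real.norm_eq_abs]
    refine div_le_div_of_nonneg_right ?_ hp.le
    have h4 : (b j : ℝ) ≤ L j + 2 := by exact_mod_cast hj.1
    have h5 : (L j : ℝ) ≤ b j + 2 := by exact_mod_cast hj.2
    rw [abs_le]
    constructor <;> linarith
  have h5 := (h.add h3).div (h4.const_add 1) (by norm_num)
  rw [add_zero, add_zero, div_one] at h5
  refine h5.congr' ?_
  filter_upwards [hpos] with j hp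
  simp only [Pi.add_apply, Pi.div_apply]
  have e1 : (k j : ℝ) / L j + ((a j : ℝ) - k j) / L j = a j / L j := by
    field_simp
    ring
  have e2 : 1 + ((b j : ℝ) - L j) / L j = b j / L j := by
    field_simp
    ring
  rw [e1, e2, div_div_div_cancel_right₀ hp.ne']

/-- **Cardy's formula for the slit strip** -/
theorem cardy_all (hex : Exact) {k L : ℕ → ℕ} {α : ℝ} (h0 : 0 < α) (h1 : α < 1) (hL : Tendsto L atTop atTop)
    (h : Tendsto (fun j => (k j : ℝ) / L j) atTop (𝓝 α)) : Tendsto (fun j => cri (k j) (L j)) atTop (𝓝 (cardy α)) := by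
  have hLR : Tendsto (fun j => (L j : ℝ)) atTop atTop := tendsto_natCast_atTop_atTop.comp hL
  have hpos : ∀ᶠ j in atTop, (0 : ℝ) < L j := hLR.eventually (eventually_gt_atTop 0)
  have hk1 : ∀ᶠ j in atTop, 1 ≤ k j := by
    filter_upwards [h.eventually (lt_mem_nhds h0), hpos] with j hj hp
    have h2 : (0 : ℝ) < k j := by
      have := mul_pos hj hp
      rwa [div_mul_cancel₀ _ hp.ne'] at this
    exact_mod_cast h2
  have hk2 : ∀ᶠ j in atTop, k j + 2 ≤ L j := by
    have h3 : Tendsto (fun j => (2 : ℝ) / L j) atTop (𝓝 0) := Tendsto.div_atTop tendsto_const_nhds hLR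
    have h4 := h.add h3
    rw [add_zero] at h4
    filter_upwards [h4.eventually (gt_mem_nhds h1), hpos] with j hj hp
    rw [← add_div, div_lt_one hp] at hj
    have h5 : ((k j + 2 : ℕ) : ℝ) < L j := by
      push_cast
      exact hj
    exact (Nat.cast_lt.1 h5).le
  have low : Tendsto (fun j => CDH.FF (2 * ((k j - 1) / 2) + 1) (2 * ((L j - k j - 1) / 2) + 1)) atTop (𝓝 (cardy α)) := by
    refine FF_lim h0.le h1.le ?_ ?_
    · refine tendsto_atTop_mono' _ ?_ (tendsto_sub_atTop_nat 2 |>.comp hL)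
      filter_upwards [hk1, hk2] with j h2 h3
      simp only [Function.comp_apply]
      omega
    · refine ratio hL h ?_ ?_
      · filter_upwards [hk1] with j h2
        omega
      · filter_upwards [hk1, hk2] with j h2 h3
        omega
  have upp : Tendsto (fun j => CDH.FF (2 * (k j / 2) + 1) (2 * ((L j - k j - 2) / 2) + 1)) atTop (𝓝 (cardy α)) := by
    refine FF_lim h0.le h1.le ?_ ?_
    · refine tendsto_atTop_mono' _ ?_ (tendsto_sub_atTop_nat 2 |>.comp hL)
      filter_upwards [hk1, hk2] with j h2 h3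
      simp only [Function.comp_apply]
      omega
    · refine ratio hL h ?_ ?_
      · filter_upwards [hk1] with j h2
        omega
      · filter_upwards [hk1, hk2] with j h2 h3
        omega
  refine tendsto_of_tendsto_of_tendsto_of_le_of_le' low upp ?_ ?_
  · filter_upwards [hk1, hk2] with j h2 h3
    exact cri_low hex h2 h3
  · filter_upwards [hk2] with j h3
    exact cri_upp hex h3

end CD
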