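import Pool.Agent.Lib.MP_216314_pr.Ca.CaPX

/-!
# The limit of the crossing probabilities of the slit strip from the two evaluations
-/

set_option autoImplicit false

noncomputable section

namespace CD

open Finset Filter Topology

theorem s_sq_eq : QS.s ^ 2 = ⟨1 / 2, Real.sqrt 3 / 2⟩ := by
  have h3 : Real.sqrt 3 * Real.sqrt 3 = 3 := Real.mul_self_sqrt (by norm_num)
  apply Complex.ext
  · simp only [QS.s, pow_two, Complex.mul_re]
    nlinarith [h3]
  · simp only [QS.s, pow_two, Complex.mul_im]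
    nlinarith [h3]

theorem zre (x : ℝ) : ((x : ℂ) + QS.s ^ 2 * (1 - (x : ℂ))).re = (1 + x) / 2 := by
  rw [s_sq_eq]
  simp only [Complex.add_re, Complex.mul_re, Complex.sub_re, Complex.sub_im, Complex.ofReal_re, Complex.ofReal_im, Complex.one_re,
    Complex.one_im]
  ring

theorem zim (x : ℝ) : ((x : ℂ) + QS.s ^ 2 * (1 - (x : ℂ))).im = Real.sqrt 3 / 2 * (1 - x) := by
  rw [s_sq_eq]
  simp only [Complex.add_im, Complex.mul_im, Complex.sub_re, Complex.sub_im, Complex.ofReal_re, Complex.ofReal_im, Complex.one_re,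
    Complex.one_im]
  ring

/-- a sequence of reals is determined by the combination with `s ^ 2` up to the sign, and the sign is forced -/
theorem sign_lim {x : ℕ → ℝ} {F : ℝ} {δ : ℂ} (hδ : δ = 1 ∨ δ = -1)
    (h : Tendsto (fun N => ((x N : ℝ) : ℂ) + QS.s ^ 2 * (1 - ((x N : ℝ) : ℂ))) atTop (𝓝 (δ * ((F : ℂ) + QS.s ^ 2 * (1 - (F : ℂ)))))) :
    Tendsto x atTop (𝓝 F) := by
  have h3 : 0 < Real.sqrt 3 := Real.sqrt_pos.2 (by norm_num)
  have hr := (Complex.continuous_re.tendsto _).comp h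
  have hi := (Complex.continuous_im.tendsto _).comp h
  simp only [Function.comp_def, zre, zim] at hr hi
  rcases hδ with hδ | hδ
  · rw [hδ, one_mul, zre] at hr
    have h4 := (hr.const_mul 2).sub_const 1
    have e1 : ∀ N, 2 * ((1 + x N) / 2) - 1 = x N := fun N => by ring
    have e2 : 2 * ((1 + F) / 2) - 1 = F := by ring
    simp only [e1, e2] at h4
    exact h4
  · exfalso
    rw [hδ, neg_one_mul, Complex.neg_re, zre] at hr
    rw [hδ, neg_one_mul, Complex.neg_im, zim] at hi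
    have h4 := (hr.const_mul 2).add (hi.const_mul (2 / Real.sqrt 3))
    have e1 : ∀ N, 2 * ((1 + x N) / 2) + 2 / Real.sqrt 3 * (Real.sqrt 3 / 2 * (1 - x N)) = 2 := fun N => by
      field_simp
      ring
    have e2 : 2 * -((1 + F) / 2) + 2 / Real.sqrt 3 * -(Real.sqrt 3 / 2 * (1 - F)) = -2 := by
      field_simp
      ring
    simp only [e1, e2] at h4
    have h5 := tendsto_nhds_unique h4 tendsto_const_nhds
    norm_num at h5

/-- **the lattice theorem**: the exact values of the pairing and of the norms give the limit of the crossing probability -/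
theorem cardy_of (p q : ℕ) {F CL Ck Cm : ℝ} (hCL : CL ≠ 0) (hCk : Ck ≠ 0) (hCm : Cm ≠ 0)
    (hG : G0 (2 * p + 1) (2 * q + 1) = (-PX.om ^ 2) ^ (p + q) * (PX.om ^ 2 + PX.om * F) * (CL * Ck * Cm))
    (hL : Nm (2 * (p + q + 1) + 1) = (-PX.om ^ 2) ^ (p + q + 1) * CL ^ 2)
    (hk : Nm (2 * p + 1) = (-PX.om ^ 2) ^ p * Ck ^ 2) (hm : Nm (2 * q + 1) = (-PX.om ^ 2) ^ q * Cm ^ 2) :
    Tendsto (fun N => cr (2 * p + 1) (2 * p + 2 * q + 3) (2 * N + 1)) atTop (𝓝 F) := by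
  have hCL' : (CL : ℂ) ≠ 0 := Complex.ofReal_ne_zero.2 hCL
  have hCk' : (Ck : ℂ) ≠ 0 := Complex.ofReal_ne_zero.2 hCk
  have hCm' : (Cm : ℂ) ≠ 0 := Complex.ofReal_ne_zero.2 hCm
  have hω := om2_ne
  have gL : GS (p + q + 1 + 1) (Ph (p + q + 1)) := GS_Ph (p + q + 1) (by
    rw [hL]
    exact mul_ne_zero (pow_ne_zero _ hω) (pow_ne_zero _ hCL'))
  have gk : GS (p + 1) (Ph p) := GS_Ph p (by
    rw [hk]
    exact mul_ne_zero (pow_ne_zero _ hω) (pow_ne_zero _ hCk'))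
  have gm : GS (q + 1) (Ph q) := GS_Ph q (by
    rw [hm]
    exact mul_ne_zero (pow_ne_zero _ hω) (pow_ne_zero _ hCm'))
  have nL := gL.norm (by omega)
  have nk := gk.norm (by omega)
  have nm := gm.norm (by omega)
  rw [ip_Ph, hL] at nL
  rw [ip_Ph, hk] at nk
  rw [ip_Ph, hm] at nm
  have e : p + 1 + (q + 1) = p + q + 1 + 1 := by ring
  have gL' : GS (p + 1 + (q + 1)) (Ph (p + q + 1)) := by rw [e]; exact gL
  have hlim := lim_C (a := p + 1) (b := q + 1) (by omega) (by omega) gL' gk gm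
  rw [pC_G0, hG] at hlim
  have e1 : 2 * (p + 1) - 1 = 2 * p + 1 := by omega
  have e2 : 2 * (p + 1 + (q + 1)) - 1 = 2 * p + 2 * q + 3 := by omega
  rw [e1, e2, e] at hlim
  set KL := QS.ip (p + q + 1 + 1) (QS.v0 (p + q + 1 + 1)) (Ph (p + q + 1)) with hKL
  set Kk := QS.ip (p + 1) (QS.v0 (p + 1)) (Ph p) with hKk
  set Km := QS.ip (q + 1) (QS.v0 (q + 1)) (Ph q) with hKm
  set W : ℂ := (-PX.om ^ 2) ^ (p + q + 2) * (CL * Ck * Cm) with hW
  have hW0 : W ≠ 0 := mul_ne_zero (pow_ne_zero _ hω) (mul_ne_zero (mul_ne_zero hCL' hCk') hCm')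
  have hsq : (KL * Kk * Km) ^ 2 = W ^ 2 := by
    have h1 : (KL * Kk * Km) ^ 2 = KL ^ 2 * Kk ^ 2 * Km ^ 2 := by ring
    rw [h1, ← nL, ← nk, ← nm, hW]
    ring
  have hpm : KL * Kk * Km = W ∨ KL * Kk * Km = -W := sq_eq_sq_iff_eq_or_eq_neg.1 hsq
  have hval : (PX.om ^ 2) ^ 2 * ((-PX.om ^ 2) ^ (p + q) * (PX.om ^ 2 + PX.om * F) * (CL * Ck * Cm)) =
      W * (-((F : ℂ) + QS.s ^ 2 * (1 - (F : ℂ)))) := by
    rw [PX.s_sq, hW]
    have h1 : (-PX.om ^ 2) ^ (p + q + 2) = (PX.om ^ 2) ^ 2 * (-PX.om ^ 2) ^ (p + q) := by ring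
    rw [h1]
    linear_combination ((PX.om ^ 2) ^ 2 * (-PX.om ^ 2) ^ (p + q) * (CL * Ck * Cm) * F) * PX.om_eq
  rw [hval] at hlim
  rcases hpm with hpm | hpm
  · rw [hpm] at hlim
    refine sign_lim (δ := -1) (Or.inr rfl) ?_
    have h2 := hlim.const_mul W⁻¹
    have h3 : W⁻¹ * (W * (-((F : ℂ) + QS.s ^ 2 * (1 - (F : ℂ))))) = -1 * ((F : ℂ) + QS.s ^ 2 * (1 - (F : ℂ))) := by
      field_simp
    rw [h3] at h2
    refine h2.congr fun N => ?_
    field_simp
  · rw [hpm] at hlim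
    refine sign_lim (δ := 1) (Or.inl rfl) ?_
    have h2 := hlim.const_mul (-W)⁻¹
    have h3 : (-W)⁻¹ * (W * (-((F : ℂ) + QS.s ^ 2 * (1 - (F : ℂ))))) = 1 * ((F : ℂ) + QS.s ^ 2 * (1 - (F : ℂ))) := by
      field_simp
    rw [h3] at h2
    refine h2.congr fun N => ?_
    field_simp

end CD
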