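import Pool.Agent.Lib.MP_216314_pr.H.HStep

/-!
# Connectivity with an arbitrary base relation (Cardy's formula, slit strip, lattice side)

The edges of the open tiles `c` and a relation `β` (edges and wires which are there from the beginning). `Bs β n h0`: the column `2 n + 1` is wired
and `β` concerns this column and heights `≤ h0` only. The lemmas of `H/HStep` hold for slabs `h ≥ h0`.
-/

set_option autoImplicit false

namespace CD

open Finset FKH

/-- one step: an open edge, or a step of the base relation -/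
def lkb (β : ℕ × ℕ → ℕ × ℕ → Prop) (c : Finset (ℕ × ℕ)) (u v : ℕ × ℕ) : Prop :=
  (∃ t ∈ c, lo t = u ∧ hi t = v) ∨ β u v

/-- connected -/
def Cb (β : ℕ × ℕ → ℕ × ℕ → Prop) (c : Finset (ℕ × ℕ)) (u v : ℕ × ℕ) : Prop := Relation.EqvGen (lkb β c) u v

section basic

variable {β : ℕ × ℕ → ℕ × ℕ → Prop} {c c' : Finset (ℕ × ℕ)} {u v w : ℕ × ℕ}

theorem Cb.refl (u : ℕ × ℕ) : Cb β c u u := Relation.EqvGen.refl u

theorem Cb.symm (h : Cb β c u v) : Cb β c v u := Relation.EqvGen.symm _ _ h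

theorem Cb.trans (h : Cb β c u v) (h' : Cb β c v w) : Cb β c u w := Relation.EqvGen.trans _ _ _ h h'

theorem Cb.base (h : β u v) : Cb β c u v := Relation.EqvGen.rel _ _ (Or.inr h)

theorem Cb.mono (hs : c ⊆ c') (h : Cb β c u v) : Cb β c' u v := by
  induction h with
  | rel x y h =>
    refine Relation.EqvGen.rel _ _ ?_
    rcases h with ⟨t, ht, h1⟩ | h
    · exact Or.inl ⟨t, hs ht, h1⟩
    · exact Or.inr h
  | refl x => exact Relation.EqvGen.refl _
  | symm x y _ ih => exact Relation.EqvGen.symm _ _ ih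
  | trans x y z _ _ ih1 ih2 => exact Relation.EqvGen.trans _ _ _ ih1 ih2

theorem Cb.edge {t : ℕ × ℕ} (ht : t ∈ c) : Cb β c (lo t) (hi t) :=
  Relation.EqvGen.rel _ _ (Or.inl ⟨t, ht, rfl, rfl⟩)

/-- adding one edge -/
theorem Cb_insert {t : ℕ × ℕ} :
    Cb β (insert t c) u v ↔ Cb β c u v ∨ (Cb β c u (lo t) ∧ Cb β c (hi t) v) ∨
      (Cb β c u (hi t) ∧ Cb β c (lo t) v) := by
  constructor
  · intro h
    induction h with
    | rel x y h =>
      rcases h with ⟨t', ht', h1, h2⟩ | h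
      · rw [mem_insert] at ht'
        rcases ht' with ht' | ht'
        · subst ht'
          rw [← h1, ← h2]
          exact Or.inr (Or.inl ⟨Cb.refl _, Cb.refl _⟩)
        · exact Or.inl (Relation.EqvGen.rel _ _ (Or.inl ⟨t', ht', h1, h2⟩))
      · exact Or.inl (Relation.EqvGen.rel _ _ (Or.inr h))
    | refl x => exact Or.inl (Cb.refl _)
    | symm x y _ ih =>
      rcases ih with h | ⟨h1, h2⟩ | ⟨h1, h2⟩
      · exact Or.inl h.symm
      · exact Or.inr (Or.inr ⟨h2.symm, h1.symm⟩)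
      · exact Or.inr (Or.inl ⟨h2.symm, h1.symm⟩)
    | trans x y z _ _ ih1 ih2 =>
      rcases ih1 with h | ⟨h1, h2⟩ | ⟨h1, h2⟩
      · rcases ih2 with h' | ⟨h1', h2'⟩ | ⟨h1', h2'⟩
        · exact Or.inl (h.trans h')
        · exact Or.inr (Or.inl ⟨h.trans h1', h2'⟩)
        · exact Or.inr (Or.inr ⟨h.trans h1', h2'⟩)
      · rcases ih2 with h' | ⟨h1', h2'⟩ | ⟨h1', h2'⟩
        · exact Or.inr (Or.inl ⟨h1, h2.trans h'⟩)
        · exact Or.inr (Or.inl ⟨h1, h2'⟩)
        · exact Or.inl (h1.trans h2')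
      · rcases ih2 with h' | ⟨h1', h2'⟩ | ⟨h1', h2'⟩
        · exact Or.inr (Or.inr ⟨h1, h2.trans h'⟩)
        · exact Or.inl (h1.trans h2')
        · exact Or.inr (Or.inr ⟨h1, h2'⟩)
  · have hs : c ⊆ insert t c := subset_insert _ _
    have he : Cb β (insert t c) (lo t) (hi t) := Cb.edge (mem_insert_self _ _)
    rintro (h | ⟨h1, h2⟩ | ⟨h1, h2⟩)
    · exact h.mono hs
    · exact ((h1.mono hs).trans he).trans (h2.mono hs)
    · exact ((h1.mono hs).trans he.symm).trans (h2.mono hs)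

/-- an isolated site is connected only to itself -/
theorem Cb.eq_of_isolated {q : ℕ × ℕ} (hq : ∀ u v, β u v → u ≠ q ∧ v ≠ q)
    (hc : ∀ t ∈ c, lo t ≠ q ∧ hi t ≠ q) (h : Cb β c u v) : u = q ↔ v = q := by
  induction h with
  | rel x y h =>
    rcases h with ⟨t, ht, h1, h2⟩ | h
    · have := hc t ht
      rw [h1, h2] at this
      exact ⟨fun h => absurd h this.1, fun h => absurd h this.2⟩
    · have := hq x y h
      exact ⟨fun h => absurd h this.1, fun h => absurd h this.2⟩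
  | refl x => exact Iff.rfl
  | symm x y _ ih => exact ih.symm
  | trans x y z _ _ ih1 ih2 => exact ih1.trans ih2

end basic

/-- the column `2 n + 1` is wired, `β` concerns this column and heights at most `h0` only -/
structure Bs (β : ℕ × ℕ → ℕ × ℕ → Prop) (n h0 : ℕ) : Prop where
  wire : ∀ y, y % 2 = 0 → β (2 * n + 1, y) (2 * n + 1, 0)
  fld : ∀ u v, β u v → (u.1 = 2 * n + 1 ∨ u.2 ≤ h0) ∧ (v.1 = 2 * n + 1 ∨ v.2 ≤ h0)

theorem Bs.wr {β : ℕ × ℕ → ℕ × ℕ → Prop} {n h0 : ℕ} (hβ : Bs β n h0) (c : Finset (ℕ × ℕ)) {y : ℕ} (hy : y % 2 = 0) :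
    Cb β c (2 * n + 1, y) (2 * n + 1, 0) := Cb.base (hβ.wire y hy)

theorem Bs.new {β : ℕ × ℕ → ℕ × ℕ → Prop} {n h0 : ℕ} (hβ : Bs β n h0) {q : ℕ × ℕ} (h1 : q.1 ≠ 2 * n + 1) (h2 : h0 < q.2) :
    ∀ u v, β u v → u ≠ q ∧ v ≠ q := by
  intro u v h
  have h3 := hβ.fld u v h
  constructor
  · rintro rfl
    rcases h3.1 with h4 | h4
    · exact h1 h4
    · omega
  · rintro rfl
    rcases h3.2 with h4 | h4
    · exact h1 h4
    · omega

/-- the relation between the odd regions -/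
def RGb (β : ℕ × ℕ → ℕ × ℕ → Prop) (n h i : ℕ) (c : Finset (ℕ × ℕ)) (k l : ℕ) : Prop := Cb β c (cu n h i k) (cu n h i l)

/-- the relation between the site `q` and the odd regions -/
def MKb (β : ℕ × ℕ → ℕ × ℕ → Prop) (n h i : ℕ) (c : Finset (ℕ × ℕ)) (q : ℕ × ℕ) (k : ℕ) : Prop := Cb β c q (cu n h i k)

/-- the end points of an even tile are the current sites of the neighbouring regions -/
theorem ends_even {β : ℕ × ℕ → ℕ × ℕ → Prop} {n h0 h i : ℕ} (hβ : Bs β n h0) (hi' : i < 2 * n) (hj : jj n h i % 2 = 0) (c : Finset (ℕ × ℕ)) :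
    (Cb β c (lo (tt n h i)) (cu n h i (jj n h i + 1)) ∧ Cb β c (hi (tt n h i)) (cu n h i (jj n h i - 1))) ∨
    (Cb β c (lo (tt n h i)) (cu n h i (jj n h i - 1)) ∧ Cb β c (hi (tt n h i)) (cu n h i (jj n h i + 1))) := by
  have h1 := jj_bd (h := h) hi'
  by_cases hp : h % 2 = 0
  · have h8 : jj n h i = i + 1 := by unfold jj; rw [if_pos hp]
    have e1 : lo (tt n h i) = (jj n h i + 1, h) := by
      unfold lo tt
      rw [if_neg (by simp only; omega)]
    have e2 : hi (tt n h i) = (jj n h i, h + 1) := by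
      unfold hi tt
      rw [if_neg (by simp only; omega)]
    have e3 : cu n h i (jj n h i - 1) = (jj n h i, h + 1) := by
      have : dn n h i (jj n h i - 1) := by
        unfold dn
        rw [if_pos hp]
        omega
      unfold cu hh
      rw [if_neg (by omega), if_pos this, if_neg (by omega), Prod.mk.injEq]
      omega
    left
    constructor
    · rw [e1]
      by_cases h2 : jj n h i = 2 * n
      · rw [h2]
        unfold cu
        rw [if_pos rfl]
        exact hβ.wr c hp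
      · have : ¬ dn n h i (jj n h i + 1) := by
          unfold dn
          rw [if_pos hp]
          omega
        unfold cu hh
        rw [if_neg (by omega), if_neg this, if_pos hp]
        exact Cb.refl _
    · rw [e2, e3]
      exact Cb.refl _
  · have h8 : jj n h i = 2 * n - i := by unfold jj; rw [if_neg hp]
    have e1 : lo (tt n h i) = (jj n h i, h) := by
      unfold lo tt
      rw [if_pos (by simp only; omega)]
    have e2 : hi (tt n h i) = (jj n h i + 1, h + 1) := by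
      unfold hi tt
      rw [if_pos (by simp only; omega)]
    have e3 : cu n h i (jj n h i - 1) = (jj n h i, h) := by
      have : ¬ dn n h i (jj n h i - 1) := by
        unfold dn
        rw [if_neg hp]
        omega
      unfold cu hh
      rw [if_neg (by omega), if_neg this, if_neg (by omega), Prod.mk.injEq]
      omega
    right
    constructor
    · rw [e1, e3]
      exact Cb.refl _
    · rw [e2]
      by_cases h2 : jj n h i = 2 * n
      · rw [h2]
        unfold cu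
        rw [if_pos rfl]
        exact hβ.wr c (by omega)
      · have : dn n h i (jj n h i + 1) := by
          unfold dn
          rw [if_neg hp]
          omega
        unfold cu hh
        rw [if_neg (by omega), if_pos this, if_pos (by omega)]
        exact Cb.refl _

section steps

variable {β : ℕ × ℕ → ℕ × ℕ → Prop} {n h0 h i : ℕ} {c : Finset (ℕ × ℕ)}

/-- even column, closed -/
theorem even_closed (hi' : i < 2 * n) (hj : jj n h i % 2 = 0) {u : ℕ × ℕ} {l : ℕ} (hl : l % 2 = 1) :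
    Cb β c u (cu n h (i + 1) l) ↔ Cb β c u (cu n h i l) := by
  rw [cu_succ hi' (by omega : l ≠ jj n h i)]

/-- even column, open -/
theorem even_open (hβ : Bs β n h0) (hi' : i < 2 * n) (hj : jj n h i % 2 = 0) {u : ℕ × ℕ} {l : ℕ} (hl : l % 2 = 1) :
    Cb β (insert (tt n h i) c) u (cu n h (i + 1) l) ↔ Cb β c u (cu n h i l) ∨
      (Cb β c u (cu n h i (jj n h i - 1)) ∧ Cb β c (cu n h i (jj n h i + 1)) (cu n h i l)) ∨
      (Cb β c u (cu n h i (jj n h i + 1)) ∧ Cb β c (cu n h i (jj n h i - 1)) (cu n h i l)) := by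
  rw [cu_succ hi' (by omega : l ≠ jj n h i), Cb_insert]
  rcases ends_even hβ hi' hj c with ⟨h1, h2⟩ | ⟨h1, h2⟩
  · constructor
    · rintro (h3 | ⟨h3, h4⟩ | ⟨h3, h4⟩)
      · exact Or.inl h3
      · exact Or.inr (Or.inr ⟨h3.trans h1, h2.symm.trans h4⟩)
      · exact Or.inr (Or.inl ⟨h3.trans h2, h1.symm.trans h4⟩)
    · rintro (h3 | ⟨h3, h4⟩ | ⟨h3, h4⟩)
      · exact Or.inl h3
      · exact Or.inr (Or.inr ⟨h3.trans h2.symm, h1.trans h4⟩)
      · exact Or.inr (Or.inl ⟨h3.trans h1.symm, h2.trans h4⟩)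
  · constructor
    · rintro (h3 | ⟨h3, h4⟩ | ⟨h3, h4⟩)
      · exact Or.inl h3
      · exact Or.inr (Or.inl ⟨h3.trans h1, h2.symm.trans h4⟩)
      · exact Or.inr (Or.inr ⟨h3.trans h2, h1.symm.trans h4⟩)
    · rintro (h3 | ⟨h3, h4⟩ | ⟨h3, h4⟩)
      · exact Or.inl h3
      · exact Or.inr (Or.inl ⟨h3.trans h1.symm, h2.trans h4⟩)
      · exact Or.inr (Or.inr ⟨h3.trans h2.symm, h1.trans h4⟩)

/-- nothing is connected to the new site -/
theorem new_iso (hβ : Bs β n h0) (hh0 : h0 ≤ h) (hc : c ⊆ PS n h i) (hi' : i < 2 * n) (hj : jj n h i % 2 = 1) {u v : ℕ × ℕ}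
    (h1 : Cb β c u v) : u = hi (tt n h i) ↔ v = hi (tt n h i) :=
  Cb.eq_of_isolated (hβ.new (hi_col hi' hj) (by rw [hi_snd]; show h0 < h + 1; omega)) (fun _ ht => hi_new hi' hj (hc ht)) h1

/-- odd column, closed -/
theorem odd_closed (hβ : Bs β n h0) (hh0 : h0 ≤ h) (hc : c ⊆ PS n h i) (hi' : i < 2 * n) (hj : jj n h i % 2 = 1) {u : ℕ × ℕ}
    (hu : u ≠ hi (tt n h i)) {l : ℕ} :
    Cb β c u (cu n h (i + 1) l) ↔ l ≠ jj n h i ∧ Cb β c u (cu n h i l) := by
  by_cases h1 : l = jj n h i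
  · rw [h1, cu_self_succ hi' hj]
    constructor
    · intro h2
      exact absurd ((new_iso hβ hh0 hc hi' hj h2).2 rfl) hu
    · rintro ⟨h2, _⟩
      exact absurd rfl h2
  · rw [cu_succ hi' h1]
    exact ⟨fun h2 => ⟨h1, h2⟩, fun h2 => h2.2⟩

/-- odd column, open -/
theorem odd_open (hβ : Bs β n h0) (hh0 : h0 ≤ h) (hc : c ⊆ PS n h i) (hi' : i < 2 * n) (hj : jj n h i % 2 = 1) {u : ℕ × ℕ}
    (hu : u ≠ hi (tt n h i)) {l : ℕ} (hl : l % 2 = 1) (hl' : l ≤ 2 * n + 1) :
    Cb β (insert (tt n h i) c) u (cu n h (i + 1) l) ↔ Cb β c u (cu n h i l) := by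
  rw [Cb_insert]
  by_cases h1 : l = jj n h i
  · rw [h1, cu_self_succ hi' hj, cu_self hi' hj]
    constructor
    · rintro (h2 | ⟨h2, _⟩ | ⟨h2, _⟩)
      · exact absurd ((new_iso hβ hh0 hc hi' hj h2).2 rfl) hu
      · exact h2
      · exact absurd ((new_iso hβ hh0 hc hi' hj h2).2 rfl) hu
    · intro h2
      exact Or.inr (Or.inl ⟨h2, Cb.refl _⟩)
  · rw [cu_succ hi' h1]
    constructor
    · rintro (h2 | ⟨_, h2⟩ | ⟨h2, _⟩)
      · exact h2
      · exact absurd ((new_iso hβ hh0 hc hi' hj h2).1 rfl) (cu_new hi' hj hl hl' h1)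
      · exact absurd ((new_iso hβ hh0 hc hi' hj h2).2 rfl) hu
    · exact Or.inl

/-! ### The relation of the regions -/

theorem RGb_even_closed (hi' : i < 2 * n) (hj : jj n h i % 2 = 0) {k l : ℕ} (hk : k % 2 = 1)
    (hl : l % 2 = 1) : RGb β n h (i + 1) c k l ↔ RGb β n h i c k l := by
  unfold RGb
  rw [even_closed hi' hj hl, cu_succ hi' (by omega : k ≠ jj n h i)]

theorem RGb_even_open (hβ : Bs β n h0) (hi' : i < 2 * n) (hj : jj n h i % 2 = 0) {k l : ℕ} (hk : k % 2 = 1)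
    (hl : l % 2 = 1) : RGb β n h (i + 1) (insert (tt n h i) c) k l ↔ RGb β n h i c k l ∨
      (RGb β n h i c k (jj n h i - 1) ∧ RGb β n h i c (jj n h i + 1) l) ∨
      (RGb β n h i c k (jj n h i + 1) ∧ RGb β n h i c (jj n h i - 1) l) := by
  unfold RGb
  rw [even_open hβ hi' hj hl, cu_succ hi' (by omega : k ≠ jj n h i)]

theorem RGb_odd_closed (hβ : Bs β n h0) (hh0 : h0 ≤ h) (hc : c ⊆ PS n h i) (hi' : i < 2 * n) (hj : jj n h i % 2 = 1) {k l : ℕ}
    (hk : k % 2 = 1) (hk' : k ≤ 2 * n + 1) (hl : l % 2 = 1) (hl' : l ≤ 2 * n + 1) :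
    RGb β n h (i + 1) c k l ↔ k = l ∨ (k ≠ jj n h i ∧ l ≠ jj n h i ∧ RGb β n h i c k l) := by
  unfold RGb
  by_cases h1 : k = jj n h i
  · by_cases h2 : l = jj n h i
    · rw [h1, h2]
      exact ⟨fun _ => Or.inl rfl, fun _ => Cb.refl _⟩
    · have h3 : cu n h (i + 1) k = hi (tt n h i) := by rw [h1, cu_self_succ hi' hj]; rfl
      rw [h3, cu_succ hi' h2]
      constructor
      · intro h4
        exact absurd ((new_iso hβ hh0 hc hi' hj h4).1 rfl) (cu_new hi' hj hl hl' h2)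
      · rintro (h4 | ⟨h4, _⟩)
        · exact absurd (h4.symm.trans h1) h2
        · exact absurd h1 h4
  · have h3 : cu n h (i + 1) k = cu n h i k := cu_succ hi' h1
    rw [h3, odd_closed hβ hh0 hc hi' hj (cu_new hi' hj hk hk' h1)]
    constructor
    · rintro ⟨h4, h5⟩
      exact Or.inr ⟨h1, h4, h5⟩
    · rintro (h4 | ⟨_, h4, h5⟩)
      · rw [← h4]
        exact ⟨h1, Cb.refl _⟩
      · exact ⟨h4, h5⟩

theorem RGb_odd_open (hβ : Bs β n h0) (hh0 : h0 ≤ h) (hc : c ⊆ PS n h i) (hi' : i < 2 * n) (hj : jj n h i % 2 = 1) {k l : ℕ}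
    (hk : k % 2 = 1) (hk' : k ≤ 2 * n + 1) (hl : l % 2 = 1) (hl' : l ≤ 2 * n + 1) :
    RGb β n h (i + 1) (insert (tt n h i) c) k l ↔ RGb β n h i c k l := by
  unfold RGb
  by_cases h1 : k = jj n h i
  · by_cases h2 : l = jj n h i
    · rw [h1, h2]
      exact ⟨fun _ => Cb.refl _, fun _ => Cb.refl _⟩
    · have h3 : cu n h (i + 1) l = cu n h i l := cu_succ hi' h2
      have h4 := odd_open hβ hh0 hc hi' hj (cu_new hi' hj hl hl' h2) hk hk'
      rw [h3]
      exact ⟨fun h => (h4.1 h.symm).symm, fun h => (h4.2 h.symm).symm⟩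
  · have h3 : cu n h (i + 1) k = cu n h i k := cu_succ hi' h1
    rw [h3, odd_open hβ hh0 hc hi' hj (cu_new hi' hj hk hk' h1) hl hl']

/-! ### The mark -/

theorem MKb_even_closed (hi' : i < 2 * n) (hj : jj n h i % 2 = 0) {u : ℕ × ℕ} {l : ℕ} (hl : l % 2 = 1) :
    MKb β n h (i + 1) c u l ↔ MKb β n h i c u l := even_closed hi' hj hl

theorem MKb_even_open (hβ : Bs β n h0) (hi' : i < 2 * n) (hj : jj n h i % 2 = 0) {u : ℕ × ℕ} {l : ℕ} (hl : l % 2 = 1) :
    MKb β n h (i + 1) (insert (tt n h i) c) u l ↔ MKb β n h i c u l ∨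
      (MKb β n h i c u (jj n h i - 1) ∧ RGb β n h i c (jj n h i + 1) l) ∨
      (MKb β n h i c u (jj n h i + 1) ∧ RGb β n h i c (jj n h i - 1) l) := even_open hβ hi' hj hl

theorem ne_new' {u : ℕ × ℕ} (hu : u.2 ≤ h) : u ≠ hi (tt n h i) := by
  intro he
  have h1 := hi_snd (tt n h i)
  rw [← he] at h1
  have h2 : (tt n h i).2 = h := rfl
  omega

theorem MKb_odd_closed (hβ : Bs β n h0) (hh0 : h0 ≤ h) (hc : c ⊆ PS n h i) (hi' : i < 2 * n) (hj : jj n h i % 2 = 1) {u : ℕ × ℕ}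
    (hu : u.2 ≤ h) {l : ℕ} : MKb β n h (i + 1) c u l ↔ l ≠ jj n h i ∧ MKb β n h i c u l :=
  odd_closed hβ hh0 hc hi' hj (ne_new' hu)

theorem MKb_odd_open (hβ : Bs β n h0) (hh0 : h0 ≤ h) (hc : c ⊆ PS n h i) (hi' : i < 2 * n) (hj : jj n h i % 2 = 1) {u : ℕ × ℕ}
    (hu : u.2 ≤ h) {l : ℕ} (hl : l % 2 = 1) (hl' : l ≤ 2 * n + 1) :
    MKb β n h (i + 1) (insert (tt n h i) c) u l ↔ MKb β n h i c u l :=
  odd_open hβ hh0 hc hi' hj (ne_new' hu) hl hl'

end steps


end CD
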