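import Mathlib

/-!
# Weak law of large numbers for Bernstein polynomials
-/

set_option autoImplicit false

noncomputable section

namespace CD

open Finset Filter Topology

/-- binomial weight -/
def bw (n i : ℕ) (x : ℝ) : ℝ := (n.choose i : ℝ) * x ^ i * (1 - x) ^ (n - i)

/-- binomial distribution function -/
def bd (n k : ℕ) (x : ℝ) : ℝ := ∑ i ∈ range (k + 1), bw n i x

theorem bw_nonneg {n i : ℕ} {x : ℝ} (h0 : 0 ≤ x) (h1 : x ≤ 1) : 0 ≤ bw n i x := by
  unfold bw
  have : 0 ≤ 1 - x := by linarith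
  positivity

theorem bw_sum (n : ℕ) (x : ℝ) : ∑ i ∈ range (n + 1), bw n i x = 1 := by
  have h := congrArg (Polynomial.eval x) (bernsteinPolynomial.sum ℝ n)
  rw [Polynomial.eval_finsetSum, Polynomial.eval_one] at h
  rw [← h]
  refine sum_congr rfl fun i _ => ?_
  unfold bw bernsteinPolynomial
  simp

theorem bw_var (n : ℕ) (x : ℝ) : ∑ i ∈ range (n + 1), (n * x - i) ^ 2 * bw n i x = n * x * (1 - x) := by
  have h := congrArg (Polynomial.eval x) (bernsteinPolynomial.variance ℝ n)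
  rw [Polynomial.eval_finsetSum] at h
  simp only [Polynomial.eval_mul, Polynomial.eval_pow, Polynomial.eval_sub, Polynomial.eval_X, Polynomial.eval_natCast,
    Polynomial.eval_one, nsmul_eq_mul] at h
  rw [← h]
  refine sum_congr rfl fun i _ => ?_
  unfold bw bernsteinPolynomial
  simp

/-- the tails -/
theorem bw_tail {n : ℕ} {x : ℝ} (h0 : 0 ≤ x) (h1 : x ≤ 1) {S : Finset ℕ} (hS : S ⊆ range (n + 1)) {d : ℝ} (hd : 0 < d)
    (h : ∀ i ∈ S, d ≤ (n * x - i) ^ 2) : ∑ i ∈ S, bw n i x ≤ n / d := by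
  have h2 : ∑ i ∈ S, d * bw n i x ≤ n * x * (1 - x) := by
    rw [← bw_var n x]
    refine (sum_le_sum fun i hi => mul_le_mul_of_nonneg_right (h i hi) (bw_nonneg h0 h1)).trans ?_
    exact sum_le_sum_of_subset_of_nonneg hS fun i _ _ => mul_nonneg (sq_nonneg _) (bw_nonneg h0 h1)
  rw [← mul_sum] at h2
  rw [le_div_iff₀ hd]
  have h3 : (n : ℝ) * x * (1 - x) ≤ n := by
    have hn : (0 : ℝ) ≤ n := Nat.cast_nonneg n
    have hx : x * (1 - x) ≤ 1 := by nlinarith
    nlinarith [mul_le_mul_of_nonneg_left hx hn]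
  linarith

theorem bd_nonneg {n k : ℕ} {x : ℝ} (h0 : 0 ≤ x) (h1 : x ≤ 1) : 0 ≤ bd n k x :=
  sum_nonneg fun _ _ => bw_nonneg h0 h1

theorem bd_le_one {n k : ℕ} (hk : k ≤ n) {x : ℝ} (h0 : 0 ≤ x) (h1 : x ≤ 1) : bd n k x ≤ 1 := by
  rw [← bw_sum n x]
  exact sum_le_sum_of_subset_of_nonneg (range_subset_range.2 (by omega)) fun _ _ _ => bw_nonneg h0 h1

/-- below the mean -/
theorem bd_low {n k : ℕ} (hk : k ≤ n) {x e : ℝ} (h0 : 0 ≤ x) (h1 : x ≤ 1) (he : 0 < e) (hn : 0 < n) (h : (k : ℝ) ≤ n * x - n * e) :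
    bd n k x ≤ 1 / (n * e ^ 2) := by
  have hn' : (0 : ℝ) < n := Nat.cast_pos.2 hn
  have h2 := bw_tail (n := n) h0 h1 (S := range (k + 1)) (range_subset_range.2 (by omega)) (d := (n * e) ^ 2) (by positivity)
    (fun i hi => by
      have h3 : (i : ℝ) ≤ k := Nat.cast_le.2 (by have := mem_range.1 hi; omega)
      have h4 : 0 < n * e := by positivity
      nlinarith)
  refine h2.trans (le_of_eq ?_)
  field_simp

/-- above the mean -/
theorem bd_high {n k : ℕ} (hk : k ≤ n) {x e : ℝ} (h0 : 0 ≤ x) (h1 : x ≤ 1) (he : 0 < e) (hn : 0 < n) (h : n * x + n * e ≤ (k : ℝ)) :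
    1 - bd n k x ≤ 1 / (n * e ^ 2) := by
  have hn' : (0 : ℝ) < n := Nat.cast_pos.2 hn
  have h2 := bw_tail (n := n) h0 h1 (S := range (n + 1) \ range (k + 1)) sdiff_subset (d := (n * e) ^ 2) (by positivity)
    (fun i hi => by
      have h3 : (k : ℝ) ≤ i := Nat.cast_le.2 (by
        rw [Finset.mem_sdiff, mem_range, mem_range] at hi
        omega)
      have h4 : 0 < n * e := by positivity
      nlinarith)
  have h5 : 1 - bd n k x = ∑ i ∈ range (n + 1) \ range (k + 1), bw n i x := by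
    rw [← bw_sum n x, ← sum_sdiff (range_subset_range.2 (show k + 1 ≤ n + 1 by omega))]
    unfold bd
    ring
  rw [h5]
  refine h2.trans (le_of_eq ?_)
  field_simp

/-- **law of large numbers** -/
theorem bd_lim {K L : ℕ → ℕ} {α : ℝ} (hKL : ∀ j, K j ≤ L j) (hL : Tendsto L atTop atTop)
    (h : Tendsto (fun j => (K j : ℝ) / L j) atTop (𝓝 α)) {x : ℝ} (h0 : 0 ≤ x) (h1 : x ≤ 1) (hx : x ≠ α) :
    Tendsto (fun j => bd (L j) (K j) x) atTop (𝓝 (if x < α then 1 else 0)) := by
  have hLpos : ∀ᶠ j in atTop, 0 < L j := hL.eventually (eventually_gt_atTop 0)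
  rcases lt_or_gt_of_ne hx with hlt | hgt
  · rw [if_pos hlt]
    set e : ℝ := (α - x) / 2 with he
    have he0 : 0 < e := by rw [he]; linarith
    have h2 : ∀ᶠ j in atTop, x + e ≤ (K j : ℝ) / L j := by
      have : x + e < α := by rw [he]; linarith
      exact (h.eventually (lt_mem_nhds this)).mono fun j hj => hj.le
    have h3 : Tendsto (fun j => 1 / ((L j : ℝ) * e ^ 2)) atTop (𝓝 0) := by
      refine Tendsto.div_atTop tendsto_const_nhds ?_
      exact (tendsto_natCast_atTop_atTop.comp hL).atTop_mul_const (by positivity)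
    have h4 : Tendsto (fun j => 1 - bd (L j) (K j) x) atTop (𝓝 0) := by
      refine tendsto_of_tendsto_of_tendsto_of_le_of_le' tendsto_const_nhds h3 ?_ ?_
      · exact Eventually.of_forall fun j => sub_nonneg.2 (bd_le_one (hKL j) h0 h1)
      · filter_upwards [h2, hLpos] with j hj hp
        refine bd_high (hKL j) h0 h1 he0 hp ?_
        have hp' : (0 : ℝ) < L j := Nat.cast_pos.2 hp
        rw [le_div_iff₀ hp'] at hj
        linarith
    have h5 := h4.const_sub 1
    rw [sub_zero] at h5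
    exact h5.congr fun j => by ring
  · rw [if_neg (by linarith)]
    set e : ℝ := (x - α) / 2 with he
    have he0 : 0 < e := by rw [he]; linarith
    have h2 : ∀ᶠ j in atTop, (K j : ℝ) / L j ≤ x - e := by
      have : α < x - e := by rw [he]; linarith
      exact (h.eventually (gt_mem_nhds this)).mono fun j hj => hj.le
    have h3 : Tendsto (fun j => 1 / ((L j : ℝ) * e ^ 2)) atTop (𝓝 0) := by
      refine Tendsto.div_atTop tendsto_const_nhds ?_
      exact (tendsto_natCast_atTop_atTop.comp hL).atTop_mul_const (by positivity)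
    refine tendsto_of_tendsto_of_tendsto_of_le_of_le' tendsto_const_nhds h3 ?_ ?_
    · exact Eventually.of_forall fun j => bd_nonneg h0 h1
    · filter_upwards [h2, hLpos] with j hj hp
      refine bd_low (hKL j) h0 h1 he0 hp ?_
      have hp' : (0 : ℝ) < L j := Nat.cast_pos.2 hp
      rw [div_le_iff₀ hp'] at hj
      linarith

end CD
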