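import Pool.Agent.Lib.MP_216314_pr.Ca.CaLim

/-!
# The pairing without lowering operator: the spin of the tip is down
-/

set_option autoImplicit false

noncomputable section

namespace CD

open Finset FKI FKP FKH QS Filter Topology

/-- state vector with three lower ends, the spins of the ends are down, up, down -/
def vecC (n : ℕ) (σ : ℕ → ℕ) : Vc := fun D => Th (2 * n + 4) σ (D ∪ {2 * n + 2, 2 * n + 4})

theorem ee_vecC {n i : ℕ} {σ : ℕ → ℕ} (h : IsNC (2 * n + 4) σ) (h1 : 1 ≤ i) (h2 : i ≤ 2 * n) :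
    ee i (vecC n σ) = vecC n (act i σ) := by
  refine ee_Th_union h h1 (by omega) _ ?_ ?_
  · rw [mem_insert, mem_singleton]
    omega
  · rw [mem_insert, mem_singleton]
    omega

open Classical in
theorem ip_vecC {n : ℕ} {σ : ℕ → ℕ} (h : IsNC (2 * n + 4) σ) :
    ip n (v0 n) (vecC n σ) = if Rl σ (2 * n + 1) (2 * n + 3) then 1 else s ^ 2 := by
  obtain ⟨D, hD, hne⟩ := v0_ne n
  have h1 := proj0 n (vecC n σ) hD
  have hs := s_ne
  have hsub : ∀ x ∈ D, x ≤ 2 * n + 1 := fun x hx => (mem_Icc.1 ((mem_powersetCard.1 hD).1 hx)).2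
  have hE : ∀ x ∈ ({2 * n + 2, 2 * n + 4} : Finset ℕ), 2 * n + 1 < x := by
    intro x hx
    rw [mem_insert, mem_singleton] at hx
    omega
  have hop : opW (oddL n) (vecC n σ) = vecC n (actW (oddL n) σ) := by
    refine opW_union h (by omega) _ hE (oddL n) fun i hi => ?_
    unfold oddL at hi
    rw [List.mem_map] at hi
    obtain ⟨k, hk, rfl⟩ := hi
    rw [List.mem_range] at hk
    omega
  obtain ⟨w1, w2, w3⟩ := odd_word (n := n) (by omega) h (k := 2 * n + 1) (l := 2 * n + 3) (by omega) (by omega) (by omega)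
    (by omega) (by omega) (by omega) (by omega) n le_rfl
  obtain ⟨z1, z2⟩ := last_four w1 w2
  have hval : vecC n (actW (oddL n) σ) D = (if Rl σ (2 * n + 1) (2 * n + 3) then 1 else s ^ 2) * v0 n D := by
    rw [v0_prod n hD]
    unfold vecC
    rw [Th_prod, prod_last]
    have e0 : ∏ x ∈ Icc 1 (2 * n), gx (actW (oddL n) σ) (D ∪ {2 * n + 2, 2 * n + 4}) x =
        ∏ x ∈ Icc 1 (2 * n), gx sg0 D x := by
      refine prod_congr rfl fun x hx => ?_
      rw [mem_Icc] at hx
      have hz := z1 x hx.1 hx.2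
      have hle : sg0 x ≤ 2 * n := by unfold sg0; split_ifs <;> omega
      refine gx_congr ?_ ?_ (by rw [hz])
      · rw [mem_union, mem_insert, mem_singleton]
        exact ⟨fun h => h.resolve_right (by omega), Or.inl⟩
      · rw [hz, mem_union, mem_insert, mem_singleton]
        exact ⟨fun h => h.resolve_right (by omega), Or.inl⟩
    rw [e0]
    have m4 : 2 * n + 4 ∈ D ∪ {2 * n + 2, 2 * n + 4} := by simp
    have m2 : 2 * n + 2 ∈ D ∪ {2 * n + 2, 2 * n + 4} := by simp
    have m3 : 2 * n + 3 ∉ D ∪ {2 * n + 2, 2 * n + 4} := by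
      rw [mem_union, mem_insert, mem_singleton]
      rintro (h5 | h5 | h5)
      · have := hsub _ h5
        omega
      · omega
      · omega
    have m1 : 2 * n + 1 ∈ D ∪ {2 * n + 2, 2 * n + 4} ↔ 2 * n + 1 ∈ D := by
      rw [mem_union, mem_insert, mem_singleton]
      exact ⟨fun h => h.resolve_right (by omega), Or.inl⟩
    rcases z2 with ⟨q1, q2, q3, q4, q5⟩ | ⟨q1, q2, q3, q4, q5⟩
    · rw [if_pos (w3.1 q5)]
      by_cases h6 : 2 * n + 1 ∈ D
      · rw [if_pos h6, gx_zero (x := 2 * n + 1)]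
        · ring
        · rw [q1]
          intro h7
          exact h7.1 m4 (m1.2 h6)
      · rw [if_neg h6, gx_up (x := 2 * n + 1) (by rw [q1]; exact m4) (fun h7 => h6 (m1.1 h7)) (by rw [q1]; omega),
          gx_dn (x := 2 * n + 2) (by rw [q2]; exact m3) m2 (by rw [q2]; omega),
          gx_one (x := 2 * n + 3) (by rw [q3]; exact ⟨fun _ => m3, fun _ => m2⟩) (by rw [q3]; omega),
          gx_one (x := 2 * n + 4) (by
            rw [q4]
            exact ⟨fun h7 => absurd (m1.1 h7) h6, fun h7 => absurd m4 h7⟩) (by rw [q4]; omega)]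
        field_simp
    · rw [if_neg (fun h6 => q5 (w3.2 h6))]
      by_cases h6 : 2 * n + 1 ∈ D
      · rw [if_pos h6, gx_zero (x := 2 * n + 1)]
        · ring
        · rw [q1]
          intro h7
          exact h7.1 m2 (m1.2 h6)
      · rw [if_neg h6, gx_up (x := 2 * n + 1) (by rw [q1]; exact m2) (fun h7 => h6 (m1.1 h7)) (by rw [q1]; omega),
          gx_one (x := 2 * n + 2) (by
            rw [q2]
            exact ⟨fun h7 => absurd (m1.1 h7) h6, fun h7 => absurd m2 h7⟩) (by rw [q2]; omega),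
          gx_up (x := 2 * n + 3) (by rw [q3]; exact m4) m3 (by rw [q3]; omega),
          gx_one (x := 2 * n + 4) (by
            rw [q4]
            exact ⟨fun h7 => absurd h7 m3, fun h7 => absurd m4 h7⟩) (by rw [q4]; omega)]
        ring
  rw [hop, hval] at h1
  exact (mul_right_cancel₀ hne h1).symm

/-- product of two vectors, the spin of the tip is down -/
def prodC (a : ℕ) (v w : Vc) : Vc := fun D => if 2 * a + 2 ∈ D then v (dL a D) * w (dR a D) else 0

theorem Th_glueC {a b : ℕ} {σ τ : ℕ → ℕ} (hb : 1 ≤ b) (hσ : IsNC (2 * a + 2) σ) (hτ : IsNC (2 * b + 2) τ) (h12 : τ 1 = 2)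
    {E FL FR : Finset ℕ} (hL : ∀ x, x ≤ 2 * a + 1 → (x ∈ E ↔ x ∈ FL)) (hL' : 2 * (a + b) + 4 ∈ E ↔ 2 * a + 2 ∈ FL)
    (ht : 2 * (a + b) + 3 ∉ E) (hR : ∀ y, 3 ≤ y → y ≤ 2 * b + 2 → (y + 2 * a ∈ E ↔ y ∈ FR)) (h1 : 1 ∉ FR) (h2 : 2 ∈ FR) :
    Th (2 * (a + b) + 4) (glue a b σ τ) E =
      if 2 * a + 2 ∈ E then (s ^ 2)⁻¹ * (Th (2 * a + 2) σ FL * Th (2 * b + 2) τ FR) else 0 := by
  classical
  have hs := s_ne
  have hE := hσ.1 (2 * a + 2) (by omega) le_rfl
  have hτ1 := hτ.1 1 le_rfl (by omega)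
  rw [h12] at hτ1
  have s1 : ∏ x ∈ Icc 1 (2 * (a + b) + 4), gx (glue a b σ τ) E x =
      (∏ x ∈ Icc 1 (2 * a + 1), gx (glue a b σ τ) E x) *
        ((gx (glue a b σ τ) E (2 * a + 2)) * ((∏ x ∈ Icc (2 * a + 3) (2 * (a + b) + 2), gx (glue a b σ τ) E x) *
          (gx (glue a b σ τ) E (2 * (a + b) + 3) * gx (glue a b σ τ) E (2 * (a + b) + 4)))) := by
    rw [prod_Icc_split (2 * a + 1) _ (2 * (a + b) + 4) (by omega)]
    congr 1
    have e1 : Ioc (2 * a + 1) (2 * (a + b) + 4) = insert (2 * a + 2) (Icc (2 * a + 3) (2 * (a + b) + 2) ∪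
        {2 * (a + b) + 3, 2 * (a + b) + 4}) := by
      ext x
      simp only [mem_Ioc, mem_insert, mem_union, mem_Icc, mem_singleton]
      omega
    rw [e1, prod_insert, prod_union, prod_pair (by omega)]
    · rw [disjoint_left]
      intro x hx hx'
      rw [mem_Icc] at hx
      rw [mem_insert, mem_singleton] at hx'
      omega
    · intro h
      rw [mem_union, mem_Icc, mem_insert, mem_singleton] at h
      omega
  have s2 : Th (2 * a + 2) σ FL = (∏ x ∈ Icc 1 (2 * a + 1), gx (glue a b σ τ) E x) * gx (glue a b σ τ) E (2 * (a + b) + 4) := by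
    rw [Th_prod, prod_Icc_split (2 * a + 1) _ (2 * a + 2) (by omega)]
    have e1 : Ioc (2 * a + 1) (2 * a + 2) = {2 * a + 2} := by
      ext x
      simp only [mem_Ioc, mem_singleton]
      omega
    rw [e1, prod_singleton]
    congr 1
    · refine prod_congr rfl fun x hx => ?_
      rw [mem_Icc] at hx
      have h3 := hσ.1 x hx.1 (by omega)
      by_cases h4 : σ x = 2 * a + 2
      · refine gx_congr (hL x hx.2).symm ?_ ?_
        · rw [glue_L' hx.2 h4, h4]
          exact hL'.symm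
        · rw [glue_L' hx.2 h4, h4]
          omega
      · refine gx_congr (hL x hx.2).symm ?_ ?_
        · rw [glue_L hx.2 h4]
          exact (hL _ (by omega)).symm
        · rw [glue_L hx.2 h4]
    · refine gx_congr hL'.symm ?_ ?_
      · rw [glue_E4]
        exact (hL _ (by omega)).symm
      · rw [glue_E4]
        omega
  have s3 : Th (2 * b + 2) τ FR = s * ∏ x ∈ Icc (2 * a + 3) (2 * (a + b) + 2), gx (glue a b σ τ) E x := by
    rw [Th_prod]
    have e1 : Icc 1 (2 * b + 2) = insert 1 (insert 2 (Icc 3 (2 * b + 2))) := by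
      ext x
      simp only [mem_insert, mem_Icc]
      omega
    have e2 : Icc (2 * a + 3) (2 * (a + b) + 2) = (Icc 3 (2 * b + 2)).map (addRightEmbedding (2 * a)) := by
      rw [map_add_right_Icc]
      congr 1
      · ring
      · ring
    rw [e1, prod_insert (by simp), prod_insert (by simp), e2, prod_map, gx_up (x := 1) (by rw [h12]; exact h2) h1 (by rw [h12]; omega),
      gx_one (x := 2) (by rw [hτ1.2.2.2]; exact ⟨fun h => absurd h h1, fun h => absurd h2 h⟩) (by rw [hτ1.2.2.2]; omega), one_mul]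
    congr 1
    refine prod_congr rfl fun y hy => ?_
    rw [mem_Icc] at hy
    have h6 := tau_R hτ h12 hy.1 hy.2
    show gx τ FR y = gx (glue a b σ τ) E (y + 2 * a)
    refine gx_congr (hR y hy.1 hy.2).symm ?_ ?_
    · rw [glue_R (by omega) (by omega), Nat.add_sub_cancel]
      exact (hR _ h6.1 h6.2.1).symm
    · rw [glue_R (by omega) (by omega), Nat.add_sub_cancel]
      omega
  rw [Th_prod, s1]
  by_cases h5 : 2 * a + 2 ∈ E
  · rw [if_pos h5, s2, s3, gx_dn (x := 2 * a + 2) (by rw [glue_tip]; exact ht) h5 (by rw [glue_tip]; omega),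
      gx_one (x := 2 * (a + b) + 3) (by
        rw [glue_E3 hb]
        exact ⟨fun _ => ht, fun _ => h5⟩) (by rw [glue_E3 hb]; omega)]
    field_simp
  · rw [if_neg h5, gx_zero (x := 2 * a + 2)]
    · ring
    · rw [glue_tip]
      intro h6
      exact ht (h6.2 h5)

theorem vecC_glue {a b : ℕ} {σ τ : ℕ → ℕ} (hb : 1 ≤ b) (hσ : IsNC (2 * a + 2) σ) (hτ : IsNC (2 * b + 2) τ) (h12 : τ 1 = 2)
    {D : Finset ℕ} (hD : ∀ x ∈ D, x ≤ 2 * (a + b) + 1) :
    vecC (a + b) (glue a b σ τ) D = prodC a (vec a σ) (vec b τ) D := by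
  have hs := s_ne
  unfold vecC
  rw [Th_glueC hb hσ hτ h12 (FL := insert (2 * a + 2) (dL a D)) (FR := insert (2 * b + 2) (dR a D))]
  · unfold prodC vec
    have h3 : 2 * a + 2 ∈ D ∪ {2 * (a + b) + 2, 2 * (a + b) + 4} ↔ 2 * a + 2 ∈ D := by
      rw [mem_union, mem_insert, mem_singleton]
      exact ⟨fun h => h.resolve_right (by omega), Or.inl⟩
    by_cases h4 : 2 * a + 2 ∈ D
    · rw [if_pos h4, if_pos (h3.2 h4)]
      field_simp
    · rw [if_neg h4, if_neg (fun h5 => h4 (h3.1 h5))]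
  · intro x hx
    rw [mem_union, mem_insert, mem_singleton, mem_insert, mem_dL]
    constructor
    · rintro (h | h)
      · exact Or.inr ⟨h, hx⟩
      · omega
    · rintro (h | h)
      · omega
      · exact Or.inl h.1
  · constructor
    · intro _
      exact mem_insert_self _ _
    · intro _
      simp
  · rw [mem_union, mem_insert, mem_singleton]
    rintro (h | h)
    · have := hD _ h
      omega
    · omega
  · intro y hy1 hy2
    rw [mem_union, mem_insert, mem_singleton, mem_insert, mem_dR]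
    constructor
    · rintro (h | h)
      · exact Or.inr (Or.inr ⟨h, hy1⟩)
      · left
        omega
    · rintro (h | h | h)
      · right
        left
        omega
      · omega
      · exact Or.inl h.1
  · rw [mem_insert, mem_dR]
    omega
  · rw [mem_insert, mem_dR]
    exact Or.inr (Or.inl rfl)

section

variable {a b : ℕ}

theorem mean_upC (hn : 1 ≤ a + b) (N : ℕ) {σ0 : ℕ → ℕ} (h0 : IsNC (2 * (a + b) + 4) σ0) :
    mn (TU a b N) (fun c => vecC (a + b) (sr (a + b) c σ0 (4 * (a + b) * N) (4 * (a + b) * (N + 1)))) =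
      (AF (a + b))^[N + 1] (vecC (a + b) σ0) := by
  have h := mean_run hn (P := 2 * (a + b) + 4) (by omega) (vecC (a + b)) (fun σ i h h1 h2 => ee_vecC h h1 h2) h0 N (N + 1)
  rw [UF_up hn] at h
  exact h

theorem prodC_mn {D : Finset ℕ} (N : ℕ) :
    prodC a (mn (TH a N) (fun c => vec a (st a c (2 * N * (2 * a))))) (mn (TH b N) (fun c => vec b (st b c (2 * N * (2 * b))))) D =
      (∑ cL ∈ (TH a N).powerset, ∑ cR ∈ (TH b N).powerset,
        prodC a (vec a (st a cL (2 * N * (2 * a)))) (vec b (st b cR (2 * N * (2 * b)))) D) / 2 ^ ((TH a N).card + (TH b N).card) := by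
  unfold prodC
  by_cases h : 2 * a + 2 ∈ D
  · simp only [if_pos h]
    unfold mn
    rw [div_mul_div_comm, ← pow_add, sum_mul_sum]
  · simp only [if_neg h, sum_const_zero, zero_div]

/-- **the crossing probability is a pairing** -/
theorem cr_pairC (ha : 1 ≤ a) (hb : 1 ≤ b) (N : ℕ) :
    ((cr (2 * a - 1) (2 * (a + b) - 1) (2 * N + 1) : ℝ) : ℂ) +
      s ^ 2 * (1 - ((cr (2 * a - 1) (2 * (a + b) - 1) (2 * N + 1) : ℝ) : ℂ)) =
    ip (a + b) (gi (a + b) (N + 1)) (prodC a (gi a N) (gi b N)) := by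
  classical
  have hn : 1 ≤ a + b := by omega
  rw [cr_sum' ha hb, cr_sum ha hb, TT_card ha hb]
  unfold gi
  rw [← mean_low ha N, ← mean_low hb N]
  have h1 : ip (a + b) ((AF (a + b))^[N + 1] (v0 (a + b)))
      (prodC a (mn (TH a N) (fun c => vec a (st a c (2 * N * (2 * a))))) (mn (TH b N) (fun c => vec b (st b c (2 * N * (2 * b)))))) =
      (∑ cL ∈ (TH a N).powerset, ∑ cR ∈ (TH b N).powerset, ip (a + b) ((AF (a + b))^[N + 1] (v0 (a + b)))
        (vecC (a + b) (glue a b (st a cL (2 * N * (2 * a))) (st b cR (2 * N * (2 * b)))))) / 2 ^ ((TH a N).card + (TH b N).card) := by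
    unfold ip
    simp only [sum_comm (s := (TH b N).powerset)]
    rw [sum_comm, sum_div]
    refine sum_congr rfl fun D hD => ?_
    rw [prodC_mn N, mul_div_assoc', mul_sum]
    congr 1
    refine sum_congr rfl fun cL _ => ?_
    rw [mul_sum]
    refine sum_congr rfl fun cR hR => ?_
    rw [vecC_glue hb (st_nc ha cL _) (st_nc hb cR _) (st_one hb (mem_powerset.1 hR))]
    intro x hx
    exact (mem_Icc.1 ((mem_powersetCard.1 hD).1 hx)).2
  rw [h1]
  have h2 : ∀ cL ∈ (TH a N).powerset, ∀ cR ∈ (TH b N).powerset, ip (a + b) ((AF (a + b))^[N + 1] (v0 (a + b)))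
      (vecC (a + b) (glue a b (st a cL (2 * N * (2 * a))) (st b cR (2 * N * (2 * b))))) =
      (∑ cu ∈ (TU a b N).powerset, ((if Rl (top a b N cL cR cu) (2 * (a + b) + 1) (2 * (a + b) + 3) then (1 : ℂ) else 0) +
        s ^ 2 * (if Rl (top a b N cL cR cu) (2 * (a + b) + 1) (2 * (a + b) + 3) then (0 : ℂ) else 1))) /
        2 ^ (TU a b N).card := by
    intro cL hL cR hR
    rw [mem_powerset] at hL hR
    have h12 := st_one hb hR
    have hσ := st_nc ha cL (2 * N * (2 * a))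
    have hτ := st_nc hb cR (2 * N * (2 * b))
    have hg := glue_nc ha hb hσ hτ h12
    rw [← ip_AF_iter, ← mean_upC hn N hg, ip_mn]
    congr 1
    refine sum_congr rfl fun cu _ => ?_
    rw [ip_vecC (sr_nc hn (by omega) cu hg _ _)]
    show _ = (if Rl (top a b N cL cR cu) (2 * (a + b) + 1) (2 * (a + b) + 3) then (1 : ℂ) else 0) +
        s ^ 2 * (if Rl (top a b N cL cR cu) (2 * (a + b) + 1) (2 * (a + b) + 3) then (0 : ℂ) else 1)
    unfold top
    split_ifs
    · ring
    · ring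
  rw [sum_congr rfl fun cL hL => sum_congr rfl fun cR hR => h2 cL hL cR hR]
  simp only [← sum_div, sum_add_distrib, ← mul_sum]
  rw [pow_add]
  field_simp

/-- the pairing -/
def pC (a b : ℕ) (Ψn Ψa Ψb : Vc) : ℂ := ip (a + b) Ψn (prodC a Ψa Ψb)

theorem lim_C (ha : 1 ≤ a) (hb : 1 ≤ b) {Ψn Ψa Ψb : Vc} (hn : GS (a + b) Ψn) (hA : GS a Ψa) (hB : GS b Ψb) :
    Tendsto (fun N => ip (a + b) (v0 (a + b)) Ψn * ip a (v0 a) Ψa * ip b (v0 b) Ψb *
      (((cr (2 * a - 1) (2 * (a + b) - 1) (2 * N + 1) : ℝ) : ℂ) +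
      s ^ 2 * (1 - ((cr (2 * a - 1) (2 * (a + b) - 1) (2 * N + 1) : ℝ) : ℂ)))) atTop (𝓝 (pC a b Ψn Ψa Ψb)) := by
  have h1 : ∀ N, ip (a + b) (v0 (a + b)) Ψn * ip a (v0 a) Ψa * ip b (v0 b) Ψb *
      (((cr (2 * a - 1) (2 * (a + b) - 1) (2 * N + 1) : ℝ) : ℂ) +
      s ^ 2 * (1 - ((cr (2 * a - 1) (2 * (a + b) - 1) (2 * N + 1) : ℝ) : ℂ))) =
      ∑ D ∈ sec (a + b), (ip (a + b) (v0 (a + b)) Ψn * gi (a + b) (N + 1) D) *
        (if 2 * a + 2 ∈ D then (ip a (v0 a) Ψa * gi a N (dL a D)) * (ip b (v0 b) Ψb * gi b N (dR a D)) else 0) := by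
    intro N
    rw [cr_pairC ha hb N]
    unfold ip prodC
    rw [mul_sum]
    refine sum_congr rfl fun D _ => ?_
    split_ifs
    · ring
    · ring
  refine Tendsto.congr (fun N => (h1 N).symm) ?_
  show Tendsto _ atTop (𝓝 (∑ D ∈ sec (a + b), Ψn D * (if 2 * a + 2 ∈ D then Ψa (dL a D) * Ψb (dR a D) else 0)))
  refine tendsto_finsetSum _ fun D hD => ?_
  refine Tendsto.mul ?_ ?_
  · exact (hn.lim (by omega) (mem_powersetCard.1 hD).1).comp (tendsto_add_atTop_nat 1)
  · by_cases h : 2 * a + 2 ∈ D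
    · simp only [if_pos h]
      exact (hA.lim ha (dL_sub hD)).mul (hB.lim hb (dR_sub hb hD))
    · simp only [if_neg h]
      exact tendsto_const_nhds

end

/-- the norm of the fixed vector -/
theorem GS.norm {n : ℕ} (hn : 1 ≤ n) {Ψ : Vc} (h : GS n Ψ) : ip n Ψ Ψ = ip n (v0 n) Ψ ^ 2 := by
  have h1 : Tendsto (fun m => ∑ D ∈ sec n, (ip n (v0 n) Ψ * gi n m D) * (ip n (v0 n) Ψ * gi n m D)) atTop (𝓝 (ip n Ψ Ψ)) := by
    show Tendsto _ atTop (𝓝 (∑ D ∈ sec n, Ψ D * Ψ D))
    refine tendsto_finsetSum _ fun D hD => ?_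
    exact (conv hn h.fix hD).mul (conv hn h.fix hD)
  have h2 : ∀ m, ∑ D ∈ sec n, (ip n (v0 n) Ψ * gi n m D) * (ip n (v0 n) Ψ * gi n m D) = ip n (v0 n) Ψ ^ 2 := by
    intro m
    have h3 : ip n (gi n m) (gi n m) = 1 := by
      unfold gi
      rw [← ip_AF_iter, ← Function.iterate_add_apply]
      exact ip_gi hn (m + m)
    have h4 : ∑ D ∈ sec n, (ip n (v0 n) Ψ * gi n m D) * (ip n (v0 n) Ψ * gi n m D) = ip n (v0 n) Ψ ^ 2 * ip n (gi n m) (gi n m) := by
      conv_rhs => unfold ip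
      rw [mul_sum]
      refine sum_congr rfl fun D _ => ?_
      unfold ip
      ring
    rw [h4, h3, mul_one]
  simp only [h2] at h1
  exact tendsto_nhds_unique h1 tendsto_const_nhds |>.symm ▸ rfl

end CD
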