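import Pool.Agent.Lib.MP_216314_pr.P.PBase

/-!
# Cardy's formula for critical bond percolation on the square lattice: the slit strip

`dsl k L K`: edges of the square lattice with both end points in `0 ≤ x + y ≤ L`, `|x - y| ≤ K`, without the edges between the lines
`x + y = k` and `x + y = k + 1` whose end point on the line `x + y = k + 1` is in `x < y` (the slit).
`Cr k L K`: the left side of the slit (the points of the line `x + y = k` with `x ≤ y`, that is the end points on this line of the
removed edges) is connected in it to the right side `x + y = L` of the strip; `cr k L K` is the probability (all edges open with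
probability `1/2`, independently). It increases with `K`, and `cri k L`, its supremum over `K`, is the crossing probability of the
infinite slit strip.
-/

set_option autoImplicit false

noncomputable section

namespace CD

open Finset FKI FKP

/-- edges of the slit strip -/
def dsl (k L K : ℕ) : Finset Edge :=
  (box (-((L : ℤ) + K)) (L + K) (-((L : ℤ) + K)) (L + K)).filter (fun e =>
    (0 ≤ (ea e).1 + (ea e).2 ∧ (eb e).1 + (eb e).2 ≤ (L : ℤ)) ∧
    (|(ea e).1 - (ea e).2| ≤ (K : ℤ) ∧ |(eb e).1 - (eb e).2| ≤ (K : ℤ)) ∧
    ¬ ((ea e).1 + (ea e).2 = (k : ℤ) ∧ (eb e).1 < (eb e).2))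

/-- the left side of the slit is connected to the right side of the strip -/
def Cr (k L K : ℕ) (ω : Finset Edge) : Prop :=
  ∃ u v : V, (u.1 + u.2 = (k : ℤ) ∧ u.1 ≤ u.2) ∧ v.1 + v.2 = (L : ℤ) ∧ Conn (dsl k L K) ω u v

/-- the crossing probability -/
def cr (k L K : ℕ) : ℝ := Pr (dsl k L K) (Cr k L K)

/-- the crossing probability of the infinite slit strip -/
def cri (k L : ℕ) : ℝ := ⨆ K : ℕ, cr k L K

end CD
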