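import Pool.Agent.Lib.MP_216314_pr.Ca.CaMap

/-!
# The crossing event in terms of tiles
-/

set_option autoImplicit false

noncomputable section

namespace CD

open Finset FKI FKP FKH QS

section

variable {a b N : ℕ} {c : Finset (ℕ × ℕ)}

/-- connection in the square lattice -/
def Cz (a b N : ℕ) (c : Finset (ℕ × ℕ)) (u v : V) : Prop :=
  Conn (dsl (2 * a - 1) (2 * (a + b) - 1) (2 * N + 1)) (c.map (peE N)) u v

theorem Cz_edge (ha : 1 ≤ a) (hb : 1 ≤ b) (hc : c ⊆ TT a b N) {t : ℕ × ℕ} (ht : t ∈ c) :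
    Cz a b N c (ph N (lo t)) (ph N (hi t)) := by
  have h1 : pe N t ∈ c.map (peE N) := mem_map.2 ⟨t, ht, rfl⟩
  have h2 : pe N t ∈ dsl (2 * a - 1) (2 * (a + b) - 1) (2 * N + 1) := by
    rw [← map_TT ha hb]
    exact mem_map.2 ⟨t, hc ht, rfl⟩
  rcases pe_ends N t with h | h
  · exact pexit_edge h2 h1 (Or.inl h)
  · exact pexit_edge h2 h1 (Or.inr h)

theorem Cb_of_Cz {β : ℕ × ℕ → ℕ × ℕ → Prop} {u v : V} (h : Cz a b N c u v) : Cb β c (ch N u) (ch N v) := by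
  obtain ⟨p⟩ := h
  induction p with
  | nil => exact Cb.refl _
  | @cons u v w hadj p ih =>
    refine Cb.trans ?_ ih
    obtain ⟨e, he, hends⟩ := pexit_adj hadj
    rw [mem_inter, mem_map] at he
    obtain ⟨⟨t, ht, rfl⟩, _⟩ := he
    have h1 := Cb.edge (β := β) ht
    have e1 := ch_ph N (lo_odd t)
    have e2 := ch_ph N (hi_odd t)
    have hp : peE N t = pe N t := rfl
    rw [hp] at hends
    rcases pe_ends N t with ⟨h2, h3⟩ | ⟨h2, h3⟩
    · rcases hends with ⟨h4, h5⟩ | ⟨h4, h5⟩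
      · rw [← h4, ← h5, h2, h3, e1, e2]
        exact h1
      · rw [← h4, ← h5, h2, h3, e1, e2]
        exact h1.symm
    · rcases hends with ⟨h4, h5⟩ | ⟨h4, h5⟩
      · rw [← h4, ← h5, h2, h3, e1, e2]
        exact h1.symm
      · rw [← h4, ← h5, h2, h3, e1, e2]
        exact h1

/-- connected to the left side of the slit -/
def SAz (a b N : ℕ) (c : Finset (ℕ × ℕ)) (u : V) : Prop :=
  ∃ w : V, (w.1 + w.2 = ((2 * a - 1 : ℕ) : ℤ) ∧ w.1 ≤ w.2) ∧ Cz a b N c u w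

/-- connected to the right side of the strip -/
def SBz (a b N : ℕ) (c : Finset (ℕ × ℕ)) (u : V) : Prop :=
  ∃ w : V, w.1 + w.2 = ((2 * (a + b) - 1 : ℕ) : ℤ) ∧ Cz a b N c u w

/-- the event -/
def Ez (a b N : ℕ) (c : Finset (ℕ × ℕ)) : Prop := ∃ u v : V, (u.1 + u.2 = ((2 * a - 1 : ℕ) : ℤ) ∧ u.1 ≤ u.2) ∧
  v.1 + v.2 = ((2 * (a + b) - 1 : ℕ) : ℤ) ∧ Cz a b N c u v

theorem Ez_of {u : V} (h1 : SAz a b N c u) (h2 : SBz a b N c u) : Ez a b N c := by
  obtain ⟨w, h3, h4⟩ := h1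
  obtain ⟨w', h5, h6⟩ := h2
  exact ⟨w, w', h3, h5, Conn.trans (Conn.symm h4) h6⟩

theorem SAz_move {u v : V} (h : Cz a b N c u v) (h1 : SAz a b N c v) : SAz a b N c u := by
  obtain ⟨w, h3, h4⟩ := h1
  exact ⟨w, h3, Conn.trans h h4⟩

theorem SBz_move {u v : V} (h : Cz a b N c u v) (h1 : SBz a b N c v) : SBz a b N c u := by
  obtain ⟨w, h3, h4⟩ := h1
  exact ⟨w, h3, Conn.trans h h4⟩

theorem Cz_of_Cb (ha : 1 ≤ a) (hb : 1 ≤ b) (hc : c ⊆ TT a b N) {u v : ℕ × ℕ} (h : Cb (b0 a b N) c u v) :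
    Cz a b N c (ph N u) (ph N v) ∨ (SAz a b N c (ph N u) ∧ SAz a b N c (ph N v)) ∨
      (SBz a b N c (ph N u) ∧ SBz a b N c (ph N v)) ∨ Ez a b N c := by
  induction h with
  | rel x y h =>
    rcases h with ⟨t, ht, h1, h2⟩ | ⟨h1, h2⟩ | ⟨h1, h2⟩
    · left
      rw [← h1, ← h2]
      exact Cz_edge ha hb hc ht
    · right; right; left
      refine ⟨⟨ph N x, ?_, Conn.refl _ _ _⟩, ⟨ph N y, ?_, Conn.refl _ _ _⟩⟩
      · unfold ph
        simp only
        omega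
      · unfold ph
        simp only
        omega
    · right; left
      refine ⟨⟨ph N x, ?_, Conn.refl _ _ _⟩, ⟨ph N y, ?_, Conn.refl _ _ _⟩⟩
      · unfold ph
        simp only
        omega
      · unfold ph
        simp only
        omega
  | refl x => exact Or.inl (Conn.refl _ _ _)
  | symm x y _ ih =>
    rcases ih with h | ⟨h1, h2⟩ | ⟨h1, h2⟩ | h
    · exact Or.inl (Conn.symm h)
    · exact Or.inr (Or.inl ⟨h2, h1⟩)
    · exact Or.inr (Or.inr (Or.inl ⟨h2, h1⟩))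
    · exact Or.inr (Or.inr (Or.inr h))
  | trans x y z _ _ ih1 ih2 =>
    rcases ih1 with h | ⟨h1, h2⟩ | ⟨h1, h2⟩ | h
    · rcases ih2 with h' | ⟨h3, h4⟩ | ⟨h3, h4⟩ | h'
      · exact Or.inl (Conn.trans h h')
      · exact Or.inr (Or.inl ⟨SAz_move h h3, h4⟩)
      · exact Or.inr (Or.inr (Or.inl ⟨SBz_move h h3, h4⟩))
      · exact Or.inr (Or.inr (Or.inr h'))
    · rcases ih2 with h' | ⟨h3, h4⟩ | ⟨h3, h4⟩ | h'
      · exact Or.inr (Or.inl ⟨h1, SAz_move (Conn.symm h') h2⟩)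
      · exact Or.inr (Or.inl ⟨h1, h4⟩)
      · exact Or.inr (Or.inr (Or.inr (Ez_of h2 h3)))
      · exact Or.inr (Or.inr (Or.inr h'))
    · rcases ih2 with h' | ⟨h3, h4⟩ | ⟨h3, h4⟩ | h'
      · exact Or.inr (Or.inr (Or.inl ⟨h1, SBz_move (Conn.symm h') h2⟩))
      · exact Or.inr (Or.inr (Or.inr (Ez_of h3 h2)))
      · exact Or.inr (Or.inr (Or.inl ⟨h1, h4⟩))
      · exact Or.inr (Or.inr (Or.inr h'))
    · exact Or.inr (Or.inr (Or.inr h))

theorem Cr_iff (ha : 1 ≤ a) (hb : 1 ≤ b) (hc : c ⊆ TT a b N) :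
    Cr (2 * a - 1) (2 * (a + b) - 1) (2 * N + 1) (c.map (peE N)) ↔
      Cb (b0 a b N) c (2 * a + 1, 0) (2 * (a + b) + 1, 0) := by
  constructor
  · rintro ⟨u, v, hu, hv, hcv⟩
    have h1 : Cb (b0 a b N) c (ch N u) (ch N v) := Cb_of_Cz hcv
    have h2 : b0 a b N (2 * a + 1, 0) (ch N u) := by
      right
      push_cast [Nat.cast_sub (by omega : 1 ≤ 2 * a)] at hu
      refine ⟨⟨rfl, rfl, Nat.zero_le _⟩, ?_, ?_, ?_⟩
      · show (u.1 + u.2 + 2).toNat = 2 * a + 1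
        omega
      · show (u.1 - u.2 + 1 + 2 * N).toNat % 2 = 0
        omega
      · show (u.1 - u.2 + 1 + 2 * N).toNat ≤ 2 * N
        omega
    have h3 : b0 a b N (ch N v) (2 * (a + b) + 1, 0) := by
      left
      push_cast [Nat.cast_sub (by omega : 1 ≤ 2 * (a + b))] at hv
      refine ⟨⟨?_, ?_⟩, rfl, rfl⟩
      · show (v.1 + v.2 + 2).toNat = 2 * (a + b) + 1
        omega
      · show (v.1 - v.2 + 1 + 2 * N).toNat % 2 = 0
        omega
    exact ((Cb.base h2).trans h1).trans (Cb.base h3)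
  · intro h
    have hA : (ph N (2 * a + 1, 0)).1 + (ph N (2 * a + 1, 0)).2 = ((2 * a - 1 : ℕ) : ℤ) ∧
        (ph N (2 * a + 1, 0)).1 ≤ (ph N (2 * a + 1, 0)).2 := by
      unfold ph
      simp only
      push_cast
      omega
    have hB : (ph N (2 * (a + b) + 1, 0)).1 + (ph N (2 * (a + b) + 1, 0)).2 = ((2 * (a + b) - 1 : ℕ) : ℤ) := by
      unfold ph
      simp only
      push_cast
      omega
    rcases Cz_of_Cb ha hb hc h with h1 | ⟨_, w, h2, h3⟩ | ⟨⟨w, h2, h3⟩, _⟩ | h1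
    · exact ⟨_, _, hA, hB, h1⟩
    · exact ⟨w, _, h2, hB, Conn.symm h3⟩
    · exact ⟨_, w, hA, h2, h3⟩
    · exact h1

open Classical in
theorem cr_eq (ha : 1 ≤ a) (hb : 1 ≤ b) : cr (2 * a - 1) (2 * (a + b) - 1) (2 * N + 1) =
    (((TT a b N).powerset.filter (fun c => Cb (b0 a b N) c (2 * a + 1, 0) (2 * (a + b) + 1, 0))).card : ℝ) /
      2 ^ (TT a b N).card := by
  unfold cr
  rw [← map_TT ha hb, pproba_eq, card_map]
  congr 2
  symm
  refine card_bij (fun c _ => c.map (peE N)) ?_ ?_ ?_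
  · intro c hc
    rw [mem_filter, mem_powerset] at hc ⊢
    refine ⟨map_subset_map.2 hc.1, (Cr_iff ha hb hc.1).2 hc.2⟩
  · intro c _ c' _ h
    exact map_injective _ h
  · intro ω hω
    rw [mem_filter, mem_powerset] at hω
    obtain ⟨h1, h2⟩ := hω
    obtain ⟨c, hc, rfl⟩ := subset_map_iff.1 h1
    refine ⟨c, ?_, rfl⟩
    rw [mem_filter, mem_powerset]
    exact ⟨hc, (Cr_iff ha hb hc).1 h2⟩

end

end CD
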