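import Pool.Agent.Lib.MP_216314_pr.Ca.CaFac

/-!
# The lowering operator on state vectors
-/

set_option autoImplicit false

noncomputable section

namespace CD

open Finset FKI FKP FKH QS

theorem s_six : s ^ 6 = -1 := by
  have h := s_four
  have h1 : s ^ 6 + 1 = (s ^ 2 + 1) * (s ^ 4 - s ^ 2 + 1) := by ring
  rw [h, mul_zero] at h1
  exact eq_neg_of_add_eq_zero_left h1

theorem s_twelve : s ^ 12 = 1 := by
  have h : s ^ 12 = (s ^ 6) ^ 2 := by ring
  rw [h, s_six]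
  ring

/-- coefficient of the lowering operator -/
def cj (D : Finset ℕ) (j : ℕ) : ℂ := (s ^ 8) ^ (D.filter (fun x => x < j)).card * (s ^ 4) ^ (j - 1 - (D.filter (fun x => x < j)).card)

theorem lowr_eq (v : Vc) (D : Finset ℕ) : lowr v D = ∑ j ∈ D, cj D j * v (D.erase j) := rfl

theorem cj_prod {D : Finset ℕ} {P : ℕ} (hD : D ⊆ Icc 1 P) (j : ℕ) :
    cj D j = ∏ x ∈ Ico 1 j, (if x ∈ D then s ^ 8 else s ^ 4) := by
  classical
  rw [prod_ite, prod_const, prod_const]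
  unfold cj
  have h1 : D.filter (fun x => x < j) = (Ico 1 j).filter (fun x => x ∈ D) := by
    ext x
    rw [mem_filter, mem_filter, mem_Ico]
    constructor
    · rintro ⟨h, h'⟩
      have := mem_Icc.1 (hD h)
      exact ⟨⟨this.1, h'⟩, h⟩
    · rintro ⟨⟨_, h'⟩, h⟩
      exact ⟨h, h'⟩
  have h2 := card_filter_add_card_filter_not (s := Ico 1 j) (fun x => x ∈ D)
  rw [Nat.card_Ico] at h2
  rw [h1]
  congr 2
  omega

/-- pairs strictly between the ends of an arc -/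
theorem between {P : ℕ} {σ : ℕ → ℕ} (h : IsNC P σ) {x y : ℕ} (hx : 1 ≤ x) (hy : y ≤ P) (hs : σ x = y)
    {D : Finset ℕ} (hc : ∀ z, x < z → z < y → (σ z ∈ D ↔ z ∉ D)) :
    ((Ioo x y).filter (fun z => z ∈ D)).card = ((Ioo x y).filter (fun z => z ∉ D)).card := by
  have hσ : ∀ z, x < z → z < y → (x < σ z ∧ σ z < y) ∧ σ (σ z) = z := by
    intro z h1 h2
    have h3 := h.2 x z hx h1 (by omega) (by omega)
    rw [hs] at h3
    exact ⟨h3, (h.1 z (by omega) (by omega)).2.2.2⟩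
  refine card_bij' (fun z _ => σ z) (fun z _ => σ z) ?_ ?_ ?_ ?_
  · intro z hz
    rw [mem_filter, mem_Ioo] at hz
    have h1 := hσ z hz.1.1 hz.1.2
    rw [mem_filter, mem_Ioo]
    refine ⟨h1.1, fun h2 => ?_⟩
    exact (hc z hz.1.1 hz.1.2).1 h2 hz.2
  · intro z hz
    rw [mem_filter, mem_Ioo] at hz
    have h1 := hσ z hz.1.1 hz.1.2
    rw [mem_filter, mem_Ioo]
    exact ⟨h1.1, (hc z hz.1.1 hz.1.2).2 hz.2⟩
  · intro z hz
    rw [mem_filter, mem_Ioo] at hz
    exact (hσ z hz.1.1 hz.1.2).2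
  · intro z hz
    rw [mem_filter, mem_Ioo] at hz
    exact (hσ z hz.1.1 hz.1.2).2

theorem cj_ratio {P : ℕ} {σ : ℕ → ℕ} (h : IsNC P σ) {x y : ℕ} (hx : 1 ≤ x) (hxy : x < y) (hy : y ≤ P) (hs : σ x = y)
    {D : Finset ℕ} (hD : D ⊆ Icc 1 P) (hxD : x ∈ D) (hc : ∀ z, x < z → z < y → (σ z ∈ D ↔ z ∉ D)) :
    cj D y = cj D x * s ^ 8 := by
  classical
  rw [cj_prod hD y, cj_prod hD x]
  have e1 : Ico 1 y = Ico 1 x ∪ insert x (Ioo x y) := by
    ext z
    simp only [mem_Ico, mem_union, mem_insert, mem_Ioo]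
    omega
  have e2 : s ^ 8 * s ^ 4 = 1 := by
    have : s ^ 8 * s ^ 4 = s ^ 12 := by ring
    rw [this, s_twelve]
  have e3 : ∏ z ∈ Ioo x y, (if z ∈ D then s ^ 8 else s ^ 4) = 1 := by
    rw [prod_ite, prod_const, prod_const, ← between h hx hy hs hc, ← mul_pow, e2, one_pow]
  rw [e1, prod_union, prod_insert (by simp), if_pos hxD, e3, mul_one]
  · rw [disjoint_left]
    intro z h1 h2
    rw [mem_Ico] at h1
    rw [mem_insert, mem_Ioo] at h2
    omega

theorem Th_erase_lo {P : ℕ} {σ : ℕ → ℕ} (h : IsNC P σ) {x y : ℕ} (hx : 1 ≤ x) (hxy : x < y) (hy : y ≤ P) (hs : σ x = y)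
    {D : Finset ℕ} (hyD : y ∈ D) :
    Th P σ (D.erase x) = s * ∏ z ∈ ((Icc 1 P).erase x).erase y, gx σ D z := by
  classical
  have h1 := (h.1 x hx (by omega)).2.2.2
  rw [hs] at h1
  have m1 : x ∈ Icc 1 P := mem_Icc.2 ⟨hx, by omega⟩
  have m2 : y ∈ (Icc 1 P).erase x := mem_erase.2 ⟨by omega, mem_Icc.2 ⟨by omega, hy⟩⟩
  rw [Th_prod, ← mul_prod_erase _ _ m1, ← mul_prod_erase _ _ m2]
  rw [gx_up (x := x) (by rw [hs]; exact mem_erase.2 ⟨by omega, hyD⟩) (notMem_erase _ _) (by omega),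
    gx_one (x := y) (by
      rw [h1]
      exact ⟨fun h2 => absurd h2 (notMem_erase _ _), fun h2 => absurd (mem_erase.2 ⟨by omega, hyD⟩) h2⟩) (by omega), one_mul]
  congr 1
  refine prod_congr rfl fun z hz => ?_
  rw [mem_erase, mem_erase, mem_Icc] at hz
  have h2 := (h.1 z hz.2.2.1 hz.2.2.2).2.2.2
  refine gx_congr ?_ ?_ Iff.rfl
  · rw [mem_erase]
    exact ⟨fun h3 => h3.2, fun h3 => ⟨hz.2.1, h3⟩⟩
  · rw [mem_erase]
    refine ⟨fun h3 => h3.2, fun h3 => ⟨fun h4 => ?_, h3⟩⟩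
    rw [h4, hs] at h2
    exact hz.1 h2.symm

theorem Th_erase_hi {P : ℕ} {σ : ℕ → ℕ} (h : IsNC P σ) {x y : ℕ} (hx : 1 ≤ x) (hxy : x < y) (hy : y ≤ P) (hs : σ x = y)
    {D : Finset ℕ} (hxD : x ∈ D) :
    Th P σ (D.erase y) = s⁻¹ * ∏ z ∈ ((Icc 1 P).erase x).erase y, gx σ D z := by
  classical
  have h1 := (h.1 x hx (by omega)).2.2.2
  rw [hs] at h1
  have m1 : x ∈ Icc 1 P := mem_Icc.2 ⟨hx, by omega⟩
  have m2 : y ∈ (Icc 1 P).erase x := mem_erase.2 ⟨by omega, mem_Icc.2 ⟨by omega, hy⟩⟩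
  rw [Th_prod, ← mul_prod_erase _ _ m1, ← mul_prod_erase _ _ m2]
  rw [gx_dn (x := x) (by rw [hs]; exact notMem_erase _ _) (mem_erase.2 ⟨by omega, hxD⟩) (by omega),
    gx_one (x := y) (by
      rw [h1]
      exact ⟨fun _ => notMem_erase _ _, fun _ => mem_erase.2 ⟨by omega, hxD⟩⟩) (by omega), one_mul]
  congr 1
  refine prod_congr rfl fun z hz => ?_
  rw [mem_erase, mem_erase, mem_Icc] at hz
  have h2 := (h.1 z hz.2.2.1 hz.2.2.2).2.2.2
  refine gx_congr ?_ ?_ Iff.rfl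
  · rw [mem_erase]
    exact ⟨fun h3 => h3.2, fun h3 => ⟨hz.1, h3⟩⟩
  · rw [mem_erase]
    refine ⟨fun h3 => h3.2, fun h3 => ⟨fun h4 => ?_, h3⟩⟩
    rw [h4, h1] at h2
    exact hz.2.1 h2.symm

theorem pair_zero {P : ℕ} {σ : ℕ → ℕ} (h : IsNC P σ) {x y : ℕ} (hx : 1 ≤ x) (hxy : x < y) (hy : y ≤ P) (hs : σ x = y)
    {D : Finset ℕ} (hD : D ⊆ Icc 1 P) (hxD : x ∈ D) (hyD : y ∈ D) :
    cj D x * Th P σ (D.erase x) + cj D y * Th P σ (D.erase y) = 0 := by
  classical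
  have hs0 := s_ne
  rw [Th_erase_lo h hx hxy hy hs hyD, Th_erase_hi h hx hxy hy hs hxD]
  by_cases h0 : ∏ z ∈ ((Icc 1 P).erase x).erase y, gx σ D z = 0
  · rw [h0]
    ring
  · have hc : ∀ z, x < z → z < y → (σ z ∈ D ↔ z ∉ D) := by
      intro z h1 h2
      by_contra h3
      refine h0 (prod_eq_zero (i := z) ?_ (gx_zero h3))
      rw [mem_erase, mem_erase, mem_Icc]
      exact ⟨by omega, by omega, by omega, by omega⟩
    rw [cj_ratio h hx hxy hy hs hD hxD hc]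
    have e : s ^ 8 * s⁻¹ = - s := by
      have h6 := s_six
      rw [mul_inv_eq_iff_eq_mul₀ hs0]
      linear_combination s ^ 2 * h6
    have e2 : cj D x * (s * ∏ z ∈ ((Icc 1 P).erase x).erase y, gx σ D z) +
        cj D x * s ^ 8 * (s⁻¹ * ∏ z ∈ ((Icc 1 P).erase x).erase y, gx σ D z) =
        cj D x * (∏ z ∈ ((Icc 1 P).erase x).erase y, gx σ D z) * (s + s ^ 8 * s⁻¹) := by ring
    rw [e2, e]
    ring

/-- the lowering operator kills the state vectors -/
theorem low_zero {P : ℕ} {σ : ℕ → ℕ} (h : IsNC P σ) {D : Finset ℕ} (hD : D ⊆ Icc 1 P) :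
    ∑ j ∈ D, cj D j * Th P σ (D.erase j) = 0 := by
  classical
  have h1 : ∑ j ∈ D, cj D j * Th P σ (D.erase j) = ∑ j ∈ D.filter (fun j => σ j ∈ D), cj D j * Th P σ (D.erase j) := by
    symm
    refine sum_subset (filter_subset _ _) fun j hj hj' => ?_
    have h2 : σ j ∉ D := fun h3 => hj' (mem_filter.2 ⟨hj, h3⟩)
    rw [Th_prod, prod_eq_zero (hD hj), mul_zero]
    refine gx_zero fun h3 => ?_
    have h4 := h3.2 (notMem_erase _ _)
    exact h2 (mem_of_mem_erase h4)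
  rw [h1]
  refine sum_involution (fun j _ => σ j) ?_ ?_ ?_ ?_
  · intro j hj
    rw [mem_filter] at hj
    have h2 := mem_Icc.1 (hD hj.1)
    have h3 := h.1 j h2.1 h2.2
    rcases lt_or_gt_of_ne h3.2.2.1 with h4 | h4
    · rw [add_comm]
      exact pair_zero h h3.1 h4 h2.2 h3.2.2.2 hD hj.2 hj.1
    · exact pair_zero h h2.1 h4 h3.2.1 rfl hD hj.1 hj.2
  · intro j hj _
    rw [mem_filter] at hj
    have h2 := mem_Icc.1 (hD hj.1)
    exact (h.1 j h2.1 h2.2).2.2.1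
  · intro j hj
    rw [mem_filter] at hj ⊢
    have h2 := mem_Icc.1 (hD hj.1)
    refine ⟨hj.2, ?_⟩
    rw [(h.1 j h2.1 h2.2).2.2.2]
    exact hj.1
  · intro j hj
    rw [mem_filter] at hj
    have h2 := mem_Icc.1 (hD hj.1)
    exact (h.1 j h2.1 h2.2).2.2.2

theorem lowr_vec {n : ℕ} {σ : ℕ → ℕ} (h : IsNC (2 * n + 2) σ) {D : Finset ℕ} (hD : D ∈ secm n) : lowr (vec n σ) D = vecm n σ D := by
  classical
  have hs0 := s_ne
  have hsub := (mem_powersetCard.1 hD).1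
  have hcard := (mem_powersetCard.1 hD).2
  have hnot : 2 * n + 2 ∉ D := fun h1 => by
    have := mem_Icc.1 (hsub h1)
    omega
  have h0 := low_zero h (D := insert (2 * n + 2) D) (by
    intro x hx
    rw [mem_insert] at hx
    rcases hx with hx | hx
    · rw [hx, mem_Icc]
      omega
    · have := mem_Icc.1 (hsub hx)
      rw [mem_Icc]
      omega)
  rw [sum_insert hnot, erase_insert hnot] at h0
  have hlast : cj (insert (2 * n + 2) D) (2 * n + 2) = s ^ 8 := by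
    unfold cj
    have e1 : (insert (2 * n + 2) D).filter (fun x => x < 2 * n + 2) = D := by
      ext x
      rw [mem_filter, mem_insert]
      constructor
      · rintro ⟨h1 | h1, h2⟩
        · omega
        · exact h1
      · intro h1
        have := mem_Icc.1 (hsub h1)
        exact ⟨Or.inr h1, by omega⟩
    rw [e1, hcard]
    have e2 : 2 * n + 2 - 1 - (n + 1) = n := by omega
    rw [e2]
    have e3 : (s ^ 8) ^ (n + 1) * (s ^ 4) ^ n = (s ^ 12) ^ n * s ^ 8 := by ring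
    rw [e3, s_twelve, one_pow, one_mul]
  rw [hlast] at h0
  have h1 : ∑ j ∈ D, cj (insert (2 * n + 2) D) j * Th (2 * n + 2) σ ((insert (2 * n + 2) D).erase j) =
      s * lowr (vec n σ) D := by
    rw [lowr_eq, mul_sum]
    refine sum_congr rfl fun j hj => ?_
    have hj2 := mem_Icc.1 (hsub hj)
    have e1 : (insert (2 * n + 2) D).erase j = insert (2 * n + 2) (D.erase j) := by
      rw [erase_insert_of_ne (by omega)]
    have e2 : cj (insert (2 * n + 2) D) j = cj D j := by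
      unfold cj
      have e3 : (insert (2 * n + 2) D).filter (fun x => x < j) = D.filter (fun x => x < j) := by
        rw [filter_insert, if_neg (by omega)]
      rw [e3]
    rw [e1, e2]
    unfold vec
    field_simp
  rw [h1] at h0
  unfold vecm
  have h6 := s_six
  have h2 : s * lowr (vec n σ) D = s * (s * Th (2 * n + 2) σ D) := by
    linear_combination h0 - s ^ 2 * Th (2 * n + 2) σ D * h6
  exact mul_left_cancel₀ hs0 h2

theorem lowr_congr {n : ℕ} {v w : Vc} (h : ∀ D ∈ sec n, v D = w D) {D : Finset ℕ} (hD : D ∈ secm n) : lowr v D = lowr w D := by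
  classical
  rw [lowr_eq, lowr_eq]
  refine sum_congr rfl fun j hj => ?_
  rw [h]
  unfold sec
  have h1 := mem_powersetCard.1 hD
  rw [mem_powersetCard]
  exact ⟨fun x hx => h1.1 (mem_of_mem_erase hx), by rw [card_erase_of_mem hj, h1.2]; rfl⟩

theorem lowr_mn (S : Finset (ℕ × ℕ)) (F : Finset (ℕ × ℕ) → Vc) : lowr (mn S F) = mn S (fun c => lowr (F c)) := by
  funext D
  unfold mn
  simp only [lowr_eq]
  rw [sum_comm, sum_div]
  refine sum_congr rfl fun j _ => ?_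
  rw [← mul_sum, mul_div_assoc]

/-- the state vectors live on the sectors -/
theorem Th_card {P : ℕ} {σ : ℕ → ℕ} (h : IsNC P σ) {D : Finset ℕ} (hD : D ⊆ Icc 1 P) (h2 : 2 * D.card ≠ P) : Th P σ D = 0 := by
  classical
  by_contra h0
  have hc : ∀ x ∈ Icc 1 P, (σ x ∈ D ↔ x ∉ D) := by
    intro x hx
    by_contra h3
    refine h0 ?_
    rw [Th_prod]
    exact prod_eq_zero hx (gx_zero h3)
  have h4 : D.card = (Icc 1 P \ D).card := by
    refine card_bij' (fun z _ => σ z) (fun z _ => σ z) ?_ ?_ ?_ ?_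
    · intro z hz
      have h5 := mem_Icc.1 (hD hz)
      have h6 := h.1 z h5.1 h5.2
      rw [mem_sdiff, mem_Icc]
      exact ⟨⟨h6.1, h6.2.1⟩, fun h7 => (hc z (hD hz)).1 h7 hz⟩
    · intro z hz
      rw [mem_sdiff] at hz
      exact (hc z hz.1).2 hz.2
    · intro z hz
      have h5 := mem_Icc.1 (hD hz)
      exact (h.1 z h5.1 h5.2).2.2.2
    · intro z hz
      have h5 := mem_Icc.1 (mem_sdiff.1 hz).1
      exact (h.1 z h5.1 h5.2).2.2.2
  rw [card_sdiff_of_subset hD, Nat.card_Icc] at h4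
  have h5 := card_le_card hD
  rw [Nat.card_Icc] at h5
  omega

theorem vec_card {n : ℕ} {σ : ℕ → ℕ} (h : IsNC (2 * n + 2) σ) {D : Finset ℕ} (hD : D ⊆ Icc 1 (2 * n + 1)) (h2 : D.card ≠ n) : vec n σ D = 0 := by
  unfold vec
  rw [Th_card h, mul_zero]
  · intro x hx
    rw [mem_insert] at hx
    rcases hx with hx | hx
    · rw [hx, mem_Icc]
      omega
    · have := mem_Icc.1 (hD hx)
      rw [mem_Icc]
      omega
  · rw [card_insert_of_notMem]
    · omega
    · intro h1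
      have := mem_Icc.1 (hD h1)
      omega

theorem vecm_card {n : ℕ} {σ : ℕ → ℕ} (h : IsNC (2 * n + 2) σ) {D : Finset ℕ} (hD : D ⊆ Icc 1 (2 * n + 1)) (h2 : D.card ≠ n + 1) : vecm n σ D = 0 := by
  unfold vecm
  rw [Th_card h, mul_zero]
  · intro x hx
    have := mem_Icc.1 (hD hx)
    rw [mem_Icc]
    omega
  · omega

end CD
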