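import Pool.Agent.Lib.MP_216314_pr.Ca.CaVec

/-!
# The state vector of the glued involution is a product
-/

set_option autoImplicit false

noncomputable section

namespace CD

open Finset FKI FKP FKH QS

theorem Th_glue {a b : ℕ} {σ τ : ℕ → ℕ} (hb : 1 ≤ b) (hσ : IsNC (2 * a + 2) σ) (hτ : IsNC (2 * b + 2) τ) (h12 : τ 1 = 2)
    {E FL FR : Finset ℕ} (hL : ∀ x, x ≤ 2 * a + 1 → (x ∈ E ↔ x ∈ FL)) (hL' : 2 * (a + b) + 4 ∈ E ↔ 2 * a + 2 ∈ FL)
    (ht : 2 * (a + b) + 3 ∈ E) (hR : ∀ y, 3 ≤ y → y ≤ 2 * b + 2 → (y + 2 * a ∈ E ↔ y ∈ FR)) (h1 : 1 ∉ FR) (h2 : 2 ∈ FR) :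
    Th (2 * (a + b) + 4) (glue a b σ τ) E = if 2 * a + 2 ∈ E then 0 else Th (2 * a + 2) σ FL * Th (2 * b + 2) τ FR := by
  classical
  have hE := hσ.1 (2 * a + 2) (by omega) le_rfl
  have hτ1 := hτ.1 1 le_rfl (by omega)
  rw [h12] at hτ1
  have s1 : ∏ x ∈ Icc 1 (2 * (a + b) + 4), gx (glue a b σ τ) E x =
      (∏ x ∈ Icc 1 (2 * a + 1), gx (glue a b σ τ) E x) *
        ((gx (glue a b σ τ) E (2 * a + 2)) * ((∏ x ∈ Icc (2 * a + 3) (2 * (a + b) + 2), gx (glue a b σ τ) E x) *
          (gx (glue a b σ τ) E (2 * (a + b) + 3) * gx (glue a b σ τ) E (2 * (a + b) + 4)))) := by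
    rw [prod_Icc_split (2 * a + 1) _ (2 * (a + b) + 4) (by omega)]
    congr 1
    have e1 : Ioc (2 * a + 1) (2 * (a + b) + 4) = insert (2 * a + 2) (Icc (2 * a + 3) (2 * (a + b) + 2) ∪
        {2 * (a + b) + 3, 2 * (a + b) + 4}) := by
      ext x
      simp only [mem_Ioc, mem_insert, mem_union, mem_Icc, mem_singleton]
      omega
    rw [e1, prod_insert, prod_union, prod_pair (by omega)]
    · rw [disjoint_left]
      intro x hx hx'
      rw [mem_Icc] at hx
      rw [mem_insert, mem_singleton] at hx'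
      omega
    · intro h
      rw [mem_union, mem_Icc, mem_insert, mem_singleton] at h
      omega
  have s2 : Th (2 * a + 2) σ FL = (∏ x ∈ Icc 1 (2 * a + 1), gx (glue a b σ τ) E x) * gx (glue a b σ τ) E (2 * (a + b) + 4) := by
    rw [Th_prod, prod_Icc_split (2 * a + 1) _ (2 * a + 2) (by omega)]
    have e1 : Ioc (2 * a + 1) (2 * a + 2) = {2 * a + 2} := by
      ext x
      simp only [mem_Ioc, mem_singleton]
      omega
    rw [e1, prod_singleton]
    congr 1
    · refine prod_congr rfl fun x hx => ?_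
      rw [mem_Icc] at hx
      have h3 := hσ.1 x hx.1 (by omega)
      by_cases h4 : σ x = 2 * a + 2
      · refine gx_congr (hL x hx.2).symm ?_ ?_
        · rw [glue_L' hx.2 h4, h4]
          exact hL'.symm
        · rw [glue_L' hx.2 h4, h4]
          omega
      · refine gx_congr (hL x hx.2).symm ?_ ?_
        · rw [glue_L hx.2 h4]
          exact (hL _ (by omega)).symm
        · rw [glue_L hx.2 h4]
    · refine gx_congr hL'.symm ?_ ?_
      · rw [glue_E4]
        exact (hL _ (by omega)).symm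
      · rw [glue_E4]
        omega
  have s3 : Th (2 * b + 2) τ FR = s * ∏ x ∈ Icc (2 * a + 3) (2 * (a + b) + 2), gx (glue a b σ τ) E x := by
    rw [Th_prod]
    have e1 : Icc 1 (2 * b + 2) = insert 1 (insert 2 (Icc 3 (2 * b + 2))) := by
      ext x
      simp only [mem_insert, mem_Icc]
      omega
    have e2 : Icc (2 * a + 3) (2 * (a + b) + 2) = (Icc 3 (2 * b + 2)).map (addRightEmbedding (2 * a)) := by
      rw [map_add_right_Icc]
      congr 1
      · ring
      · ring
    rw [e1, prod_insert (by simp), prod_insert (by simp), e2, prod_map, gx_up (x := 1) (by rw [h12]; exact h2) h1 (by rw [h12]; omega),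
      gx_one (x := 2) (by rw [hτ1.2.2.2]; exact ⟨fun h => absurd h h1, fun h => absurd h2 h⟩) (by rw [hτ1.2.2.2]; omega), one_mul]
    congr 1
    refine prod_congr rfl fun y hy => ?_
    rw [mem_Icc] at hy
    have h6 := tau_R hτ h12 hy.1 hy.2
    show gx τ FR y = gx (glue a b σ τ) E (y + 2 * a)
    refine gx_congr (hR y hy.1 hy.2).symm ?_ ?_
    · rw [glue_R (by omega) (by omega), Nat.add_sub_cancel]
      exact (hR _ h6.1 h6.2.1).symm
    · rw [glue_R (by omega) (by omega), Nat.add_sub_cancel]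
      omega
  rw [Th_prod, s1]
  by_cases h5 : 2 * a + 2 ∈ E
  · rw [if_pos h5, gx_zero (x := 2 * a + 2)]
    · ring
    · rw [glue_tip]
      intro h6
      exact h6.1 ht h5
  · rw [if_neg h5, s2, s3, gx_up (x := 2 * a + 2) (by rw [glue_tip]; exact ht) h5 (by rw [glue_tip]; omega),
      gx_one (x := 2 * (a + b) + 3) (by
        rw [glue_E3 hb]
        exact ⟨fun h => absurd h h5, fun h => absurd ht h⟩) (by rw [glue_E3 hb]; omega)]
    ring

theorem mem_dL {a x : ℕ} {D : Finset ℕ} : x ∈ dL a D ↔ x ∈ D ∧ x ≤ 2 * a + 1 := by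
  unfold dL
  rw [mem_filter]

theorem mem_dR {a x : ℕ} {D : Finset ℕ} : x ∈ dR a D ↔ x = 2 ∨ (x + 2 * a ∈ D ∧ 3 ≤ x) := by
  unfold dR
  rw [mem_insert, mem_image]
  constructor
  · rintro (h | ⟨y, hy, h⟩)
    · exact Or.inl h
    · rw [mem_filter] at hy
      right
      have e : x + 2 * a = y := by omega
      rw [e]
      exact ⟨hy.1, by omega⟩
  · rintro (h | ⟨h, h'⟩)
    · exact Or.inl h
    · refine Or.inr ⟨x + 2 * a, mem_filter.2 ⟨h, by omega⟩, by omega⟩

theorem vecA_glue {a b : ℕ} {σ τ : ℕ → ℕ} (hb : 1 ≤ b) (hσ : IsNC (2 * a + 2) σ) (hτ : IsNC (2 * b + 2) τ) (h12 : τ 1 = 2)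
    (D : Finset ℕ) :
    vecA (a + b) (glue a b σ τ) D = prodv a (vec a σ) (vecm b τ) D := by
  have hs := s_ne
  unfold vecA
  rw [Th_glue hb hσ hτ h12 (FL := insert (2 * a + 2) (dL a D)) (FR := dR a D)]
  · unfold prodv vec vecm
    have h3 : 2 * a + 2 ∈ D ∪ {2 * (a + b) + 3, 2 * (a + b) + 4} ↔ 2 * a + 2 ∈ D := by
      rw [mem_union, mem_insert, mem_singleton]
      exact ⟨fun h => h.resolve_right (by omega), Or.inl⟩
    by_cases h4 : 2 * a + 2 ∈ D
    · rw [if_pos h4, if_pos (h3.2 h4)]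
    · rw [if_neg h4, if_neg (fun h5 => h4 (h3.1 h5))]
      field_simp
  · intro x hx
    rw [mem_union, mem_insert, mem_singleton, mem_insert, mem_dL]
    constructor
    · rintro (h | h)
      · exact Or.inr ⟨h, hx⟩
      · omega
    · rintro (h | h)
      · omega
      · exact Or.inl h.1
  · constructor
    · intro _
      exact mem_insert_self _ _
    · intro _
      simp
  · simp
  · intro y hy1 hy2
    rw [mem_union, mem_insert, mem_singleton, mem_dR]
    constructor
    · rintro (h | h)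
      · exact Or.inr ⟨h, hy1⟩
      · omega
    · rintro (h | h)
      · omega
      · exact Or.inl h.1
  · rw [mem_dR]
    omega
  · rw [mem_dR]
    exact Or.inl rfl

theorem vecB_glue {a b : ℕ} {σ τ : ℕ → ℕ} (hb : 1 ≤ b) (hσ : IsNC (2 * a + 2) σ) (hτ : IsNC (2 * b + 2) τ) (h12 : τ 1 = 2)
    {D : Finset ℕ} (hD : ∀ x ∈ D, x ≤ 2 * (a + b) + 1) :
    vecB (a + b) (glue a b σ τ) D = prodv a (vecm a σ) (vec b τ) D := by
  have hs := s_ne
  unfold vecB
  rw [Th_glue hb hσ hτ h12 (FL := dL a D) (FR := insert (2 * b + 2) (dR a D))]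
  · unfold prodv vec vecm
    have h3 : 2 * a + 2 ∈ D ∪ {2 * (a + b) + 2, 2 * (a + b) + 3} ↔ 2 * a + 2 ∈ D := by
      rw [mem_union, mem_insert, mem_singleton]
      exact ⟨fun h => h.resolve_right (by omega), Or.inl⟩
    by_cases h4 : 2 * a + 2 ∈ D
    · rw [if_pos h4, if_pos (h3.2 h4)]
    · rw [if_neg h4, if_neg (fun h5 => h4 (h3.1 h5))]
      field_simp
  · intro x hx
    rw [mem_union, mem_insert, mem_singleton, mem_dL]
    constructor
    · rintro (h | h)
      · exact ⟨h, hx⟩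
      · omega
    · intro h
      exact Or.inl h.1
  · rw [mem_union, mem_insert, mem_singleton, mem_dL]
    constructor
    · rintro (h | h)
      · have := hD _ h
        omega
      · omega
    · intro h
      omega
  · simp
  · intro y hy1 hy2
    rw [mem_union, mem_insert, mem_singleton, mem_insert, mem_dR]
    constructor
    · rintro (h | h)
      · exact Or.inr (Or.inr ⟨h, hy1⟩)
      · left
        omega
    · rintro (h | h | h)
      · right
        left
        omega
      · omega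
      · exact Or.inl h.1
  · rw [mem_insert, mem_dR]
    omega
  · rw [mem_insert, mem_dR]
    exact Or.inr (Or.inl rfl)

end CD
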