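import Pool.Agent.Lib.MP_216314_pr.Ca.CaT

/-!
# The glued involution
-/

set_option autoImplicit false

noncomputable section

namespace CD

open Finset FKI FKP FKH QS

section

variable {a b : ℕ} {σ τ : ℕ → ℕ} {x : ℕ}

theorem glue_L (hx : x ≤ 2 * a + 1) (h : σ x ≠ 2 * a + 2) : glue a b σ τ x = σ x := by
  unfold glue
  rw [if_pos hx, if_neg h]

theorem glue_L' (hx : x ≤ 2 * a + 1) (h : σ x = 2 * a + 2) : glue a b σ τ x = 2 * (a + b) + 4 := by
  unfold glue
  rw [if_pos hx, if_pos h]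

theorem glue_tip : glue a b σ τ (2 * a + 2) = 2 * (a + b) + 3 := by
  unfold glue
  rw [if_neg (by omega), if_pos rfl]

theorem glue_E3 (hb : 1 ≤ b) : glue a b σ τ (2 * (a + b) + 3) = 2 * a + 2 := by
  unfold glue
  rw [if_neg (by omega), if_neg (by omega), if_pos rfl]

theorem glue_E4 : glue a b σ τ (2 * (a + b) + 4) = σ (2 * a + 2) := by
  unfold glue
  rw [if_neg (by omega), if_neg (by omega), if_neg (by omega), if_pos rfl]

theorem glue_R (h1 : 2 * a + 3 ≤ x) (h2 : x ≤ 2 * (a + b) + 2) : glue a b σ τ x = τ (x - 2 * a) + 2 * a := by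
  unfold glue
  rw [if_neg (by omega), if_neg (by omega), if_neg (by omega), if_neg (by omega)]

/-- the right part is invariant -/
theorem tau_R (hτ : IsNC (2 * b + 2) τ) (h12 : τ 1 = 2) {y : ℕ} (h1 : 3 ≤ y) (h2 : y ≤ 2 * b + 2) :
    3 ≤ τ y ∧ τ y ≤ 2 * b + 2 ∧ τ y ≠ y ∧ τ (τ y) = y := by
  have h3 := hτ.1 y (by omega) h2
  have h4 := hτ.1 1 le_rfl (by omega)
  rw [h12] at h4
  refine ⟨?_, h3.2.1, h3.2.2.1, h3.2.2.2⟩
  by_contra hc
  have h5 : τ y = 1 ∨ τ y = 2 := by omega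
  rcases h5 with h5 | h5
  · have h6 := h3.2.2.2
    rw [h5, h12] at h6
    omega
  · have h6 := h3.2.2.2
    rw [h5, h4.2.2.2] at h6
    omega

theorem glue_nc (ha : 1 ≤ a) (hb : 1 ≤ b) (hσ : IsNC (2 * a + 2) σ) (hτ : IsNC (2 * b + 2) τ) (h12 : τ 1 = 2) :
    IsNC (2 * (a + b) + 4) (glue a b σ τ) := by
  have hE := hσ.1 (2 * a + 2) (by omega) le_rfl
  have hE1 : σ (2 * a + 2) ≤ 2 * a + 1 := by omega
  -- description of the values
  have hval : ∀ x, 1 ≤ x → x ≤ 2 * (a + b) + 4 →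
      (x ≤ 2 * a + 1 ∧ ((σ x ≤ 2 * a + 1 ∧ glue a b σ τ x = σ x) ∨ (x = σ (2 * a + 2) ∧ glue a b σ τ x = 2 * (a + b) + 4))) ∨
      (x = 2 * a + 2 ∧ glue a b σ τ x = 2 * (a + b) + 3) ∨
      ((2 * a + 3 ≤ x ∧ x ≤ 2 * (a + b) + 2) ∧ glue a b σ τ x = τ (x - 2 * a) + 2 * a) ∨
      (x = 2 * (a + b) + 3 ∧ glue a b σ τ x = 2 * a + 2) ∨ (x = 2 * (a + b) + 4 ∧ glue a b σ τ x = σ (2 * a + 2)) := by
    intro x h1 h2
    by_cases h3 : x ≤ 2 * a + 1
    · left
      refine ⟨h3, ?_⟩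
      have h4 := hσ.1 x h1 (by omega)
      by_cases h5 : σ x = 2 * a + 2
      · right
        refine ⟨?_, glue_L' h3 h5⟩
        rw [← h5]
        exact h4.2.2.2.symm
      · left
        exact ⟨by omega, glue_L h3 h5⟩
    · by_cases h4 : x = 2 * a + 2
      · right; left
        rw [h4]
        exact ⟨rfl, glue_tip⟩
      · by_cases h5 : x ≤ 2 * (a + b) + 2
        · right; right; left
          exact ⟨⟨by omega, h5⟩, glue_R (by omega) h5⟩
        · by_cases h6 : x = 2 * (a + b) + 3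
          · right; right; right; left
            rw [h6]
            exact ⟨rfl, glue_E3 hb⟩
          · right; right; right; right
            have h7 : x = 2 * (a + b) + 4 := by omega
            rw [h7]
            exact ⟨rfl, glue_E4⟩
  constructor
  · intro x h1 h2
    rcases hval x h1 h2 with ⟨h3, ⟨h4, h5⟩ | ⟨h4, h5⟩⟩ | ⟨h4, h5⟩ | ⟨⟨h3, h4⟩, h5⟩ | ⟨h4, h5⟩ | ⟨h4, h5⟩
    · have h6 := hσ.1 x h1 (by omega)
      rw [h5]
      refine ⟨h6.1, by omega, h6.2.2.1, ?_⟩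
      rw [glue_L h4 (by rw [h6.2.2.2]; omega)]
      exact h6.2.2.2
    · rw [h5]
      refine ⟨by omega, le_rfl, by omega, ?_⟩
      rw [glue_E4]
      exact h4.symm
    · rw [h5]
      refine ⟨by omega, by omega, by omega, ?_⟩
      rw [glue_E3 hb]
      exact h4.symm
    · have h6 := tau_R hτ h12 (y := x - 2 * a) (by omega) (by omega)
      rw [h5]
      refine ⟨by omega, by omega, by omega, ?_⟩
      rw [glue_R (by omega) (by omega), Nat.add_sub_cancel, h6.2.2.2]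
      omega
    · rw [h5]
      refine ⟨by omega, by omega, by omega, ?_⟩
      rw [glue_tip]
      exact h4.symm
    · rw [h5]
      refine ⟨hE.1, by omega, by omega, ?_⟩
      rw [glue_L' hE1 hE.2.2.2]
      exact h4.symm
  · intro x y h1 hxy hyx hP
    have hσx : glue a b σ τ x = glue a b σ τ x := rfl
    have hx2 : x ≤ 2 * (a + b) + 4 := by omega
    rcases hval x h1 hx2 with ⟨h3, ⟨h4, h5⟩ | ⟨h4, h5⟩⟩ | ⟨h4, h5⟩ | ⟨⟨h3, h4⟩, h5⟩ | ⟨h4, h5⟩ | ⟨h4, h5⟩
    · rw [h5] at hyx hP ⊢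
      have h6 := hσ.2 x y h1 hxy hyx (by omega)
      rw [glue_L (by omega) (by omega)]
      exact h6
    · rw [h5] at hyx ⊢
      -- x is the exposed point
      rcases hval y (by omega) (by omega) with ⟨g3, ⟨g4, g5⟩ | ⟨g4, g5⟩⟩ | ⟨g4, g5⟩ | ⟨⟨g3, g4⟩, g5⟩ | ⟨g4, g5⟩ | ⟨g4, g5⟩
      · rw [g5]
        have h6 := hσ.2 x y h1 hxy (by rw [h4, hE.2.2.2]; omega) (by rw [h4, hE.2.2.2])
        omega
      · omega
      · omega
      · have h6 := tau_R hτ h12 (y := y - 2 * a) (by omega) (by omega)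
        omega
      · omega
      · omega
    · rw [h5] at hyx ⊢
      rcases hval y (by omega) (by omega) with ⟨g3, _⟩ | ⟨g4, g5⟩ | ⟨⟨g3, g4⟩, g5⟩ | ⟨g4, g5⟩ | ⟨g4, g5⟩
      · omega
      · omega
      · have h6 := tau_R hτ h12 (y := y - 2 * a) (by omega) (by omega)
        omega
      · omega
      · omega
    · have h6 := tau_R hτ h12 (y := x - 2 * a) (by omega) (by omega)
      rw [h5] at hyx hP ⊢
      have h7 := hτ.2 (x - 2 * a) (y - 2 * a) (by omega) (by omega) (by omega) (by omega)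
      rw [glue_R (by omega) (by omega)]
      omega
    · rw [h5] at hyx
      omega
    · rw [h5] at hyx
      omega

end

/-! ### Relation of the regions -/

section

variable {a b : ℕ} {σ τ : ℕ → ℕ} {k l : ℕ}

theorem glue_Rl0_L (hσ : IsNC (2 * a + 2) σ) (hl : l ≤ 2 * a + 1) :
    Rl0 (glue a b σ τ) k l ↔ Rl0 σ k l := by
  unfold Rl0
  refine and_congr Iff.rfl (forall_congr' fun x => ?_)
  constructor
  · intro h h1 h2
    have h3 := h h1 h2
    by_cases h4 : σ x = 2 * a + 2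
    · rw [glue_L' (by omega) h4] at h3
      omega
    · rwa [glue_L (by omega) h4] at h3
  · intro h h1 h2
    have h3 := h h1 h2
    rw [glue_L (by omega) (by omega)]
    exact h3

theorem glue_RlL (hσ : IsNC (2 * a + 2) σ) (hk : k ≤ 2 * a + 1) (hl : l ≤ 2 * a + 1) :
    Rl (glue a b σ τ) k l ↔ Rl σ k l := by
  unfold Rl
  rw [glue_Rl0_L hσ hl, glue_Rl0_L hσ hk]

theorem glue_Rl0_R (hk : 2 * a + 2 ≤ k) (hl : l ≤ 2 * (a + b) + 2) :
    Rl0 (glue a b σ τ) k l ↔ Rl0 τ (k - 2 * a) (l - 2 * a) := by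
  unfold Rl0
  constructor
  · rintro ⟨h1, h2⟩
    refine ⟨by omega, fun x hx1 hx2 => ?_⟩
    have h3 := h2 (x + 2 * a) (by omega) (by omega)
    rw [glue_R (by omega) (by omega), Nat.add_sub_cancel] at h3
    omega
  · rintro ⟨h1, h2⟩
    refine ⟨?_, fun x hx1 hx2 => ?_⟩
    · by_contra hc
      rcases Nat.lt_or_ge l (2 * a) with h3 | h3
      · omega
      · omega
    · have h3 := h2 (x - 2 * a) (by omega) (by omega)
      rw [glue_R (by omega) (by omega)]
      omega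

theorem glue_RlR (hk : 2 * a + 2 ≤ k) (hk' : k ≤ 2 * (a + b) + 2) (hl : 2 * a + 2 ≤ l) (hl' : l ≤ 2 * (a + b) + 2) :
    Rl (glue a b σ τ) k l ↔ Rl τ (k - 2 * a) (l - 2 * a) := by
  unfold Rl
  rw [glue_Rl0_R hk hl', glue_Rl0_R hl hk']

theorem glue_RlX (hk : k ≤ 2 * a + 1) (hl : 2 * a + 2 ≤ l) (hl' : l ≤ 2 * (a + b) + 2) :
    ¬ Rl (glue a b σ τ) k l := by
  rintro (⟨_, h⟩ | ⟨h, _⟩)
  · have h1 := h (2 * a + 2) (by omega) hl
    rw [glue_tip] at h1
    omega
  · omega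

theorem glue_RlA (ha : 1 ≤ a) (hb : 1 ≤ b) (hσ : IsNC (2 * a + 2) σ) (hτ : IsNC (2 * b + 2) τ) (h12 : τ 1 = 2)
    (hk : k ≤ 2 * a + 1) : Rl (glue a b σ τ) k (2 * (a + b) + 3) ↔ Rl σ k (2 * a + 1) := by
  constructor
  · rintro (⟨_, h⟩ | ⟨h, _⟩)
    · left
      refine ⟨hk, fun x h1 h2 => ?_⟩
      have h3 := h x h1 (by omega)
      have h5 := hσ.1 x (by omega) (by omega)
      by_cases h4 : σ x = 2 * a + 2
      · rw [glue_L' h2 h4] at h3
        omega
      · rw [glue_L h2 h4] at h3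
        omega
    · omega
  · rintro (⟨_, h⟩ | ⟨h, _⟩)
    · left
      refine ⟨by omega, fun x h1 h2 => ?_⟩
      by_cases h3 : x ≤ 2 * a + 1
      · have h4 := h x h1 h3
        rw [glue_L h3 (by omega)]
        omega
      · by_cases h4 : x = 2 * a + 2
        · rw [h4, glue_tip]
          omega
        · by_cases h5 : x = 2 * (a + b) + 3
          · rw [h5, glue_E3 hb]
            omega
          · have h6 := tau_R hτ h12 (y := x - 2 * a) (by omega) (by omega)
            rw [glue_R (by omega) (by omega)]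
            omega
    · have hk2 : k = 2 * a + 1 := by omega
      rw [hk2]
      left
      refine ⟨by omega, fun x h1 h2 => ?_⟩
      by_cases h4 : x = 2 * a + 2
      · rw [h4, glue_tip]
        omega
      · by_cases h5 : x = 2 * (a + b) + 3
        · rw [h5, glue_E3 hb]
          omega
        · have h6 := tau_R hτ h12 (y := x - 2 * a) (by omega) (by omega)
          rw [glue_R (by omega) (by omega)]
          omega

theorem glue_RlB (hb : 1 ≤ b) (hk : 2 * a + 2 ≤ k) (hk' : k ≤ 2 * (a + b) + 2) :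
    ¬ Rl (glue a b σ τ) k (2 * (a + b) + 3) := by
  rintro (⟨_, h⟩ | ⟨h, _⟩)
  · have h1 := h (2 * (a + b) + 3) (by omega) le_rfl
    rw [glue_E3 hb] at h1
    omega
  · omega

end

end CD
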