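import Pool.Agent.Lib.MP_216314_pr.Ca.CaGlue

/-!
# The relation of the regions at the height of the tip
-/

set_option autoImplicit false

noncomputable section

namespace CD

open Finset FKI FKP FKH QS

theorem mem_TH {n N : ℕ} {t : ℕ × ℕ} : t ∈ TH n N ↔ (2 ≤ t.1 ∧ t.1 ≤ 2 * n) ∧ t.2 < 2 * N := by
  unfold TH
  rw [mem_product, mem_Icc, mem_range]

theorem lo_sh (a : ℕ) (t : ℕ × ℕ) : lo (t.1 + 2 * a, t.2) = ((lo t).1 + 2 * a, (lo t).2) := by
  unfold lo
  simp only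
  by_cases h : (t.1 + t.2) % 2 = 1
  · rw [if_pos h, if_pos (by omega)]
  · rw [if_neg h, if_neg (by omega)]
    exact Prod.ext (show t.1 + 2 * a + 1 = t.1 + 1 + 2 * a by omega) rfl

theorem hi_sh (a : ℕ) (t : ℕ × ℕ) : hi (t.1 + 2 * a, t.2) = ((hi t).1 + 2 * a, (hi t).2) := by
  unfold hi
  simp only
  by_cases h : (t.1 + t.2) % 2 = 1
  · rw [if_pos h, if_pos (by omega)]
    exact Prod.ext (show t.1 + 2 * a + 1 = t.1 + 1 + 2 * a by omega) rfl
  · rw [if_neg h, if_neg (by omega)]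

theorem Cb_lkb {β : ℕ × ℕ → ℕ × ℕ → Prop} {cl c : Finset (ℕ × ℕ)} {u v : ℕ × ℕ} :
    Cb (lkb β cl) c u v ↔ Cb β (cl ∪ c) u v := by
  have h : ∀ x y, lkb (lkb β cl) c x y ↔ lkb β (cl ∪ c) x y := by
    intro x y
    unfold lkb
    constructor
    · rintro (⟨t, ht, h⟩ | ⟨t, ht, h⟩ | h)
      · exact Or.inl ⟨t, mem_union_right _ ht, h⟩
      · exact Or.inl ⟨t, mem_union_left _ ht, h⟩
      · exact Or.inr h
    · rintro (⟨t, ht, h⟩ | h)
      · rcases mem_union.1 ht with h1 | h1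
        · exact Or.inr (Or.inl ⟨t, h1, h⟩)
        · exact Or.inl ⟨t, h1, h⟩
      · exact Or.inr (Or.inr h)
  have h' : lkb (lkb β cl) c = lkb β (cl ∪ c) := by
    funext x y
    exact propext (h x y)
  unfold Cb
  rw [h']

section

variable {a b N : ℕ} {cL cR : Finset (ℕ × ℕ)}

/-- all lower open tiles -/
def clo (a : ℕ) (cL cR : Finset (ℕ × ℕ)) : Finset (ℕ × ℕ) := cL ∪ cR.map (shE (2 * a))

theorem mem_clo {t : ℕ × ℕ} : t ∈ clo a cL cR ↔ t ∈ cL ∨ ∃ t' ∈ cR, (t'.1 + 2 * a, t'.2) = t := by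
  unfold clo
  rw [mem_union, mem_map]
  exact Iff.rfl

theorem clo_ht (hL : cL ⊆ TH a N) (hR : cR ⊆ TH b N) {t : ℕ × ℕ} (ht : t ∈ clo a cL cR) : t.2 < 2 * N := by
  rcases mem_clo.1 ht with h | ⟨t', h, rfl⟩
  · exact (mem_TH.1 (hL h)).2
  · exact (mem_TH.1 (hR h)).2

theorem bs_b1 (hL : cL ⊆ TH a N) (hR : cR ⊆ TH b N) : Bs (b1 a b N (clo a cL cR)) (a + b) (2 * N) := by
  constructor
  · intro y hy
    exact Or.inr (Or.inl ⟨⟨rfl, hy⟩, rfl, rfl⟩)
  · intro u v h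
    rcases h with ⟨t, ht, h1, h2⟩ | ⟨h1, h2⟩ | ⟨h1, h2⟩
    · have h3 := clo_ht hL hR ht
      have h4 := lo_snd t
      have h5 := hi_snd t
      rw [h1] at h4
      rw [h2] at h5
      exact ⟨Or.inr (by omega), Or.inr (by omega)⟩
    · exact ⟨Or.inl h1.1, Or.inl h2.1⟩
    · exact ⟨Or.inr h1.2.2, Or.inr h2.2.2⟩

theorem side (hb : 1 ≤ b) (hL : cL ⊆ TH a N) (hR : cR ⊆ TH b N) {u v : ℕ × ℕ} (h : Cb (b0 a b N) (clo a cL cR) u v) :
    (u.1 ≤ 2 * a + 1 ↔ v.1 ≤ 2 * a + 1) ∧ (u.1 ≤ 2 * a + 1 → Cn a cL u v) ∧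
      (2 * a + 2 ≤ u.1 → Cn b cR (u.1 - 2 * a, u.2) (v.1 - 2 * a, v.2)) := by
  induction h with
  | rel x y h =>
    rcases h with ⟨t, ht, h1, h2⟩ | ⟨⟨h1, h1'⟩, h2, h2'⟩ | ⟨⟨h1, h1', _⟩, h2, h2', _⟩
    · rcases mem_clo.1 ht with h3 | ⟨t', h3, h4⟩
      · have h5 := mem_TH.1 (hL h3)
        have h6 := lo_fst t
        have h7 := hi_fst t
        rw [h1] at h6
        rw [h2] at h7
        refine ⟨⟨fun _ => by omega, fun _ => by omega⟩, fun _ => ?_, fun h8 => by omega⟩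
        rw [← h1, ← h2]
        exact Cn.edge h3
      · have h5 := mem_TH.1 (hR h3)
        have e1 := lo_sh a t'
        have e2 := hi_sh a t'
        rw [h4, h1] at e1
        rw [h4, h2] at e2
        have h6 := lo_fst t'
        have h7 := hi_fst t'
        refine ⟨⟨fun h8 => ?_, fun h8 => ?_⟩, fun h8 => ?_, fun _ => ?_⟩
        · rw [e1] at h8
          simp only at h8
          omega
        · rw [e2] at h8
          simp only at h8
          omega
        · rw [e1] at h8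
          simp only at h8
          omega
        · rw [e1, e2]
          simp only [Nat.add_sub_cancel]
          exact Cn.edge h3
    · refine ⟨⟨fun _ => by omega, fun _ => by omega⟩, fun _ => by omega, fun _ => ?_⟩
      refine Relation.EqvGen.rel _ _ (Or.inr ⟨⟨?_, h1'⟩, ?_, h2'⟩)
      · simp only
        omega
      · simp only
        omega
    · refine ⟨⟨fun _ => by omega, fun _ => by omega⟩, fun _ => ?_, fun _ => by omega⟩
      exact Relation.EqvGen.rel _ _ (Or.inr ⟨⟨h1, h1'⟩, h2, h2'⟩)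
  | refl x => exact ⟨Iff.rfl, fun _ => Cn.refl _, fun _ => Cn.refl _⟩
  | symm x y _ ih =>
    obtain ⟨h1, h2, h3⟩ := ih
    exact ⟨h1.symm, fun h4 => (h2 (h1.2 h4)).symm, fun h4 => (h3 (by omega)).symm⟩
  | trans x y z _ _ ih1 ih2 =>
    obtain ⟨h1, h2, h3⟩ := ih1
    obtain ⟨h4, h5, h6⟩ := ih2
    exact ⟨h1.trans h4, fun h7 => (h2 h7).trans (h5 (h1.1 h7)), fun h7 => (h3 h7).trans (h6 (by omega))⟩

/-- representative of a site of the left part -/
def rho (a : ℕ) (u : ℕ × ℕ) : ℕ × ℕ := if u.1 = 2 * a + 1 ∧ u.2 % 2 = 0 then (2 * a + 1, 0) else u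

theorem rho_conn {c : Finset (ℕ × ℕ)} {u : ℕ × ℕ} (hu : u.2 ≤ 2 * N) : Cb (b0 a b N) c (rho a u) u := by
  unfold rho
  split_ifs with h
  · exact Cb.base (Or.inr ⟨⟨rfl, rfl, Nat.zero_le _⟩, h.1, h.2, hu⟩)
  · exact Cb.refl _

theorem left_back (hL : cL ⊆ TH a N) {u v : ℕ × ℕ} (h : Cn a cL u v) :
    Cb (b0 a b N) (clo a cL cR) (rho a u) (rho a v) := by
  induction h with
  | rel x y h =>
    rcases h with ⟨t, ht, h1, h2⟩ | ⟨h1, h2⟩
    · have h3 := (mem_TH.1 (hL ht)).2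
      have h4 := lo_snd t
      have h5 := hi_snd t
      rw [← h1, ← h2]
      exact ((rho_conn (by omega)).trans (Cb.edge (mem_clo.2 (Or.inl ht)))).trans (rho_conn (by omega)).symm
    · unfold rho
      rw [if_pos h1, if_pos h2]
      exact Cb.refl _
  | refl x => exact Cb.refl _
  | symm x y _ ih => exact ih.symm
  | trans x y z _ _ ih1 ih2 => exact ih1.trans ih2

theorem right_back {u v : ℕ × ℕ} (h : Cn b cR u v) :
    Cb (b0 a b N) (clo a cL cR) (u.1 + 2 * a, u.2) (v.1 + 2 * a, v.2) := by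
  induction h with
  | rel x y h =>
    rcases h with ⟨t, ht, h1, h2⟩ | ⟨⟨h1, h1'⟩, h2, h2'⟩
    · have h3 : (t.1 + 2 * a, t.2) ∈ clo a cL cR := mem_clo.2 (Or.inr ⟨t, ht, rfl⟩)
      have h4 := Cb.edge (β := b0 a b N) h3
      rw [lo_sh, hi_sh, h1, h2] at h4
      exact h4
    · refine Cb.base (Or.inl ⟨⟨?_, h1'⟩, ?_, h2'⟩)
      · show x.1 + 2 * a = 2 * (a + b) + 1
        omega
      · show y.1 + 2 * a = 2 * (a + b) + 1
        omega
  | refl x => exact Cb.refl _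
  | symm x y _ ih => exact ih.symm
  | trans x y z _ _ ih1 ih2 => exact ih1.trans ih2

theorem cu_start {n h k : ℕ} (hh' : h % 2 = 0) (hk : 1 ≤ k) :
    cu n h 0 k = if k = 2 * n + 1 then (2 * n + 1, 0) else (k, h) := by
  have h1 : ¬ dn n h 0 k := by
    unfold dn
    rw [if_pos hh']
    omega
  unfold cu hh
  rw [if_neg h1, if_pos hh']

theorem TH_sub (n N : ℕ) (hn : 1 ≤ n) : TH n N ⊆ PT n (2 * N * (2 * n)) := by
  intro t ht
  rw [mem_TH] at ht
  unfold PT
  rw [Nat.mul_div_cancel _ (by omega), Nat.mul_mod_left, mem_PS]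
  exact ⟨⟨by omega, by omega⟩, Or.inl ht.2⟩

theorem RT_start {n : ℕ} (hn : 1 ≤ n) (N : ℕ) (c : Finset (ℕ × ℕ)) (k l : ℕ) :
    RT n (2 * N * (2 * n)) c k l ↔ Cn n c (cu n (2 * N) 0 k) (cu n (2 * N) 0 l) := by
  unfold RT RG
  rw [Nat.mul_div_cancel _ (by omega), Nat.mul_mod_left]

/-- the relation in the left part -/
theorem ini_L (hb : 1 ≤ b) (hL : cL ⊆ TH a N) (hR : cR ⊆ TH b N) {k l : ℕ} (hk : k % 2 = 1) (hk' : k ≤ 2 * a + 1)
    (hl : l % 2 = 1) (hl' : l ≤ 2 * a + 1) :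
    Cb (b0 a b N) (clo a cL cR) (k, 2 * N) (l, 2 * N) ↔ Cn a cL (cu a (2 * N) 0 k) (cu a (2 * N) 0 l) := by
  have h1 : ∀ k, k % 2 = 1 → k ≤ 2 * a + 1 → Cn a cL (k, 2 * N) (cu a (2 * N) 0 k) := by
    intro k hk hk'
    rw [cu_start (by omega) (by omega)]
    split_ifs with h
    · rw [h]
      exact FKH.wire (by omega)
    · exact Cn.refl _
  have h2 : ∀ k, k % 2 = 1 → k ≤ 2 * a + 1 → Cb (b0 a b N) (clo a cL cR) (k, 2 * N) (rho a (cu a (2 * N) 0 k)) := by
    intro k hk hk'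
    rw [cu_start (by omega) (by omega)]
    split_ifs with h
    · rw [h]
      have h3 : rho a (2 * a + 1, 0) = (2 * a + 1, 0) := by
        unfold rho
        rw [if_pos ⟨rfl, rfl⟩]
      rw [h3]
      exact Cb.base (Or.inr ⟨⟨rfl, by omega, le_rfl⟩, rfl, rfl, Nat.zero_le _⟩)
    · have h3 : rho a (k, 2 * N) = (k, 2 * N) := by
        unfold rho
        rw [if_neg (fun h' => h h'.1)]
      rw [h3]
      exact Cb.refl _
  constructor
  · intro h
    have h3 := (side hb hL hR h).2.1 hk'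
    exact ((h1 k hk hk').symm.trans h3).trans (h1 l hl hl')
  · intro h
    exact ((h2 k hk hk').trans (left_back hL h)).trans (h2 l hl hl').symm

/-- the relation in the right part -/
theorem ini_R (hb : 1 ≤ b) (hL : cL ⊆ TH a N) (hR : cR ⊆ TH b N) {k l : ℕ} (hk : k % 2 = 1) (hk' : 2 * a + 2 ≤ k)
    (hl : l % 2 = 1) (hl' : 2 * a + 2 ≤ l) :
    Cb (b0 a b N) (clo a cL cR) (cu (a + b) (2 * N) 0 k) (cu (a + b) (2 * N) 0 l) ↔
      Cn b cR (cu b (2 * N) 0 (k - 2 * a)) (cu b (2 * N) 0 (l - 2 * a)) := by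
  have h1 : ∀ k, k % 2 = 1 → 2 * a + 2 ≤ k → cu (a + b) (2 * N) 0 k =
      ((cu b (2 * N) 0 (k - 2 * a)).1 + 2 * a, (cu b (2 * N) 0 (k - 2 * a)).2) := by
    intro k hk hk'
    rw [cu_start (by omega) (by omega), cu_start (by omega) (by omega)]
    by_cases h : k = 2 * (a + b) + 1
    · rw [if_pos h, if_pos (by omega)]
      exact Prod.ext (show 2 * (a + b) + 1 = 2 * b + 1 + 2 * a by omega) rfl
    · rw [if_neg h, if_neg (by omega)]
      exact Prod.ext (show k = k - 2 * a + 2 * a by omega) rfl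
  constructor
  · intro h
    have h2 : 2 * a + 2 ≤ (cu (a + b) (2 * N) 0 k).1 := by
      rw [cu_start (by omega) (by omega)]
      split_ifs
      · simp only
        omega
      · exact hk'
    have h3 := (side hb hL hR h).2.2 h2
    rw [h1 k hk hk', h1 l hl hl'] at h3
    simp only [Nat.add_sub_cancel] at h3
    exact h3
  · intro h
    rw [h1 k hk hk', h1 l hl hl']
    exact right_back h

/-- **the relation of the regions at the height of the tip** -/
theorem ini (ha : 1 ≤ a) (hb : 1 ≤ b) (hL : cL ⊆ TH a N) (hR : cR ⊆ TH b N) (h12 : st b cR (2 * N * (2 * b)) 1 = 2)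
    {k l : ℕ} (hk : vr (a + b) k) (hl : vr (a + b) l) :
    RX (b1 a b N (clo a cL cR)) (a + b) (2 * a + 1, 0) (2 * N * (2 * (a + b))) ∅ k l ↔
      Rl (glue a b (st a cL (2 * N * (2 * a))) (st b cR (2 * N * (2 * b)))) k l := by
  set σ := st a cL (2 * N * (2 * a)) with hσd
  set τ := st b cR (2 * N * (2 * b)) with hτd
  have hσ : IsNC (2 * a + 2) σ := st_nc ha cL _
  have hτ : IsNC (2 * b + 2) τ := st_nc hb cR _
  have hP := glue_nc ha hb hσ hτ h12
  have hRX : ∀ k l, RX (b1 a b N (clo a cL cR)) (a + b) (2 * a + 1, 0) (2 * N * (2 * (a + b))) ∅ k l ↔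
      Cb (b0 a b N) (clo a cL cR) (cx (a + b) (2 * a + 1, 0) (2 * N * (2 * (a + b))) k)
        (cx (a + b) (2 * a + 1, 0) (2 * N * (2 * (a + b))) l) := by
    intro k l
    unfold RX b1
    rw [Cb_lkb, union_empty]
  have hcx : ∀ k, k ≠ 2 * (a + b) + 3 → cx (a + b) (2 * a + 1, 0) (2 * N * (2 * (a + b))) k =
      cu (a + b) (2 * N) 0 k := by
    intro k hk
    unfold cx
    rw [if_neg hk, Nat.mul_div_cancel _ (by omega), Nat.mul_mod_left]
  have hcA : cx (a + b) (2 * a + 1, 0) (2 * N * (2 * (a + b))) (2 * (a + b) + 3) = (2 * a + 1, 0) := by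
    unfold cx
    rw [if_pos rfl]
  have hcL : ∀ k, k % 2 = 1 → k ≤ 2 * a + 1 → cu (a + b) (2 * N) 0 k = (k, 2 * N) := by
    intro k hk hk'
    rw [cu_start (by omega) (by omega), if_neg (by omega)]
  have hA : Cb (b0 a b N) (clo a cL cR) (2 * a + 1, 2 * N) (2 * a + 1, 0) :=
    Cb.base (Or.inr ⟨⟨rfl, by omega, le_rfl⟩, rfl, rfl, Nat.zero_le _⟩)
  -- two regions of the left part
  have hLL : ∀ k l, k % 2 = 1 → k ≤ 2 * a + 1 → l % 2 = 1 → l ≤ 2 * a + 1 →
      (Cb (b0 a b N) (clo a cL cR) (k, 2 * N) (l, 2 * N) ↔ Rl σ k l) := by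
    intro k l hk hk' hl hl'
    rw [ini_L hb hL hR hk hk' hl hl', ← RT_start ha]
    exact inv_st ha _ (hL.trans (TH_sub a N ha)) hk hk' hl hl'
  have hRR : ∀ k l, k % 2 = 1 → 2 * a + 2 ≤ k → k ≤ 2 * (a + b) + 1 → l % 2 = 1 → 2 * a + 2 ≤ l → l ≤ 2 * (a + b) + 1 →
      (Cb (b0 a b N) (clo a cL cR) (cu (a + b) (2 * N) 0 k) (cu (a + b) (2 * N) 0 l) ↔
        Rl τ (k - 2 * a) (l - 2 * a)) := by
    intro k l hk hk' hk2 hl hl' hl2
    rw [ini_R hb hL hR hk hk' hl hl', ← RT_start hb]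
    exact inv_st hb _ (hR.trans (TH_sub b N hb)) (by omega) (by omega) (by omega) (by omega)
  have hcR : ∀ k, k % 2 = 1 → 2 * a + 2 ≤ k → 2 * a + 2 ≤ (cu (a + b) (2 * N) 0 k).1 := by
    intro k hk hk'
    rw [cu_start (by omega) (by omega)]
    split_ifs
    · simp only
      omega
    · exact hk'
  -- a region of the left part and one of the right part
  have hLR : ∀ u v : ℕ × ℕ, u.1 ≤ 2 * a + 1 → 2 * a + 2 ≤ v.1 → ¬ Cb (b0 a b N) (clo a cL cR) u v := by
    intro u v h1 h2 h3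
    have := (side hb hL hR h3).1.1 h1
    omega
  -- the upper case `k ≤ l` in the order: left, right, A
  have key : ∀ k l, vr (a + b) k → vr (a + b) l → k ≤ l → (Cb (b0 a b N) (clo a cL cR)
      (cx (a + b) (2 * a + 1, 0) (2 * N * (2 * (a + b))) k) (cx (a + b) (2 * a + 1, 0) (2 * N * (2 * (a + b))) l) ↔
      Rl (glue a b σ τ) k l) := by
    intro k l hk hl hkl
    obtain ⟨hk1, hk2⟩ := hk
    obtain ⟨hl1, hl2⟩ := hl
    by_cases hlA : l = 2 * (a + b) + 3
    · rw [hlA, hcA]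
      by_cases hkA : k = 2 * (a + b) + 3
      · rw [hkA, hcA]
        exact ⟨fun _ => Rl_refl _ _, fun _ => Cb.refl _⟩
      · rw [hcx k hkA]
        by_cases hk3 : k ≤ 2 * a + 1
        · rw [hcL k hk1 hk3, glue_RlA ha hb hσ hτ h12 hk3, ← hLL k (2 * a + 1) hk1 hk3 (by omega) le_rfl]
          exact ⟨fun h => h.trans hA.symm, fun h => h.trans hA⟩
        · constructor
          · intro h
            exact absurd h.symm (hLR _ _ (by simp) (hcR k hk1 (by omega)))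
          · intro h
            exact absurd h (glue_RlB hb (by omega) (by omega))
    · rw [hcx l hlA, hcx k (by omega)]
      by_cases hl3 : l ≤ 2 * a + 1
      · rw [hcL k hk1 (by omega), hcL l hl1 hl3, glue_RlL hσ (by omega) hl3]
        exact hLL k l hk1 (by omega) hl1 hl3
      · by_cases hk3 : k ≤ 2 * a + 1
        · rw [hcL k hk1 hk3]
          constructor
          · intro h
            exact absurd h (hLR _ _ hk3 (hcR l hl1 (by omega)))
          · intro h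
            exact absurd h (glue_RlX hk3 (by omega) (by omega))
        · rw [glue_RlR (by omega) (by omega) (by omega) (by omega)]
          exact hRR k l hk1 (by omega) (by omega) hl1 (by omega) (by omega)
  rw [hRX]
  rcases le_total k l with h | h
  · exact key k l hk hl h
  · have h1 := key l k hl hk h
    exact ⟨fun h2 => Rl_symm (h1.1 h2.symm), fun h2 => (h1.2 (Rl_symm h2)).symm⟩

end

end CD
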