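import Pool.Agent.Lib.MP_216314_pr.Ca.CaProb

/-!
# Limits of the iterates
-/

set_option autoImplicit false

noncomputable section

namespace CD

open Finset FKI FKP FKH QS Filter Topology

/-! ### The period operator -/

/-- the letters between the first and the last -/
def mid (n : ℕ) : List ℕ := (List.range (2 * n - 1)).map (fun k => k + 2) ++ (List.range (2 * n - 1)).map (fun k => 2 * n - k)

theorem per_mid {n : ℕ} (hn : 1 ≤ n) : per n = 1 :: (mid n ++ [1]) := by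
  obtain ⟨m, rfl⟩ : ∃ m, n = m + 1 := ⟨n - 1, by omega⟩
  have e1 : 2 * (m + 1) - 1 = 2 * m + 1 := by omega
  have e2 : 2 * (m + 1) = (2 * m + 1) + 1 := by ring
  have h1 : (List.range (2 * (m + 1))).map (fun k => k + 1) = 1 :: (List.range (2 * m + 1)).map (fun k => k + 2) := by
    conv_lhs => rw [e2]
    rw [List.range_succ_eq_map, List.map_cons, List.map_map]
    rfl
  have h2 : (List.range (2 * (m + 1))).map (fun k => 2 * (m + 1) - k) =
      (List.range (2 * m + 1)).map (fun k => 2 * (m + 1) - k) ++ [1] := by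
    have h3 : List.range (2 * (m + 1)) = List.range (2 * m + 1) ++ [2 * m + 1] := by
      rw [e2]
      exact List.range_succ
    rw [h3, List.map_append, List.map_singleton]
    congr 2
    omega
  unfold per mid
  rw [h1, h2, e1, List.cons_append, List.append_assoc]

theorem mid_mem {n i : ℕ} (h : i ∈ mid n) : 2 ≤ i ∧ i ≤ 2 * n := by
  unfold mid at h
  rw [List.mem_append, List.mem_map, List.mem_map] at h
  rcases h with ⟨k, hk, rfl⟩ | ⟨k, hk, rfl⟩
  · rw [List.mem_range] at hk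
    omega
  · rw [List.mem_range] at hk
    omega

theorem opF_opH (l : List ℕ) (hl : ∀ i ∈ l, 2 ≤ i) (v : Vc) : opF l v = opH l v := by
  induction l generalizing v with
  | nil => rfl
  | cons i l ih =>
    have hi := hl i List.mem_cons_self
    show opF l (hf i v) = opH l (hs i v)
    have e : hf i v = hs i v := by
      unfold hf
      rw [if_neg (by omega)]
    rw [e]
    exact ih (fun j hj => hl j (List.mem_cons_of_mem _ hj)) _

theorem AF_mid {n : ℕ} (hn : 1 ≤ n) (v : Vc) : AF n v = ee 1 (opH (mid n) (ee 1 v)) := by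
  unfold AF
  rw [per_mid hn, opF_cons, opF_append]
  have e : hf 1 v = ee 1 v := by
    unfold hf
    rw [if_pos rfl]
  rw [e, opF_opH (mid n) (fun i hi => (mid_mem hi).1)]
  show hf 1 (opH (mid n) (ee 1 v)) = _
  unfold hf
  rw [if_pos rfl]

/-- the odd letters from `3` on -/
def oddT (n : ℕ) : List ℕ := (List.range (n - 1)).map (fun k => 2 * k + 3)

theorem oddL_cons {n : ℕ} (hn : 1 ≤ n) : oddL n = 1 :: oddT n := by
  obtain ⟨m, rfl⟩ : ∃ m, n = m + 1 := ⟨n - 1, by omega⟩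
  unfold oddL oddT
  rw [List.range_succ_eq_map, List.map_cons, List.map_map, Nat.add_sub_cancel]
  rfl

theorem oddT_sub {n : ℕ} (hn : 1 ≤ n) : (oddT n).Sublist (mid n) := by
  obtain ⟨m, rfl⟩ : ∃ m, n = m + 1 := ⟨n - 1, by omega⟩
  have e1 : 2 * (m + 1) - 1 = 2 * m + 1 := by omega
  have h : ∀ m : ℕ, ((List.range m).map (fun k => 2 * k + 3)).Sublist ((List.range (2 * m + 1)).map (fun k => k + 2)) := by
    intro m
    induction m with
    | zero => exact List.nil_sublist _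
    | succ m ih =>
      have e1 : 2 * (m + 1) + 1 = 2 * m + 1 + 1 + 1 := by ring
      rw [e1, List.range_succ, List.range_succ (n := 2 * m + 1 + 1), List.range_succ (n := 2 * m + 1), List.map_append, List.map_append,
        List.map_append, List.append_assoc]
      refine List.Sublist.append ih ?_
      exact List.sublist_append_left _ _
  unfold oddT mid
  rw [Nat.add_sub_cancel, e1]
  exact (h m).trans (List.sublist_append_left _ _)

theorem mid_length (n : ℕ) : (mid n).length = 2 * (2 * n - 1) := by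
  unfold mid
  rw [List.length_append, List.length_map, List.length_map, List.length_range]
  ring

theorem norm_sum_list {α : Type} (l : List α) (f : α → ℂ) (C : ℝ)
    (h : ∀ a ∈ l, ‖f a‖ ≤ C) : ‖(l.map f).sum‖ ≤ l.length * C := by
  induction l with
  | nil => simp
  | cons a l ih =>
    rw [List.map_cons, List.sum_cons, List.length_cons]
    have h1 := h a (List.mem_cons_self)
    have h2 := ih (fun b hb => h b (List.mem_cons_of_mem _ hb))
    calc ‖f a + (l.map f).sum‖ ≤ ‖f a‖ + ‖(l.map f).sum‖ := norm_add_le _ _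
      _ ≤ C + l.length * C := add_le_add h1 h2
      _ = ((l.length + 1 : ℕ) : ℝ) * C := by push_cast; ring

theorem half_norm (m : ℕ) : ‖((1 : ℂ) / 2) ^ m‖ = ((1 : ℝ) / 2) ^ m := by
  rw [norm_pow]
  congr 1
  simp

theorem opW_sum_list {α : Type} (w : List ℕ) (l : List α) (f : α → Vc) :
    opW w (fun D => (l.map (fun a => f a D)).sum) = fun D => (l.map (fun a => opW w (f a) D)).sum := by
  induction l with
  | nil =>
    have h := opW_smul w 0 (fun _ => 0)
    simp only [zero_mul] at h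
    exact h
  | cons a l ih =>
    have e : (fun D => ((a :: l).map (fun a => f a D)).sum) =
        fun D => f a D + (fun D => (l.map (fun a => f a D)).sum) D := by
      funext D
      rw [List.map_cons, List.sum_cons]
    rw [e, opW_add, ih]
    funext D
    rw [List.map_cons, List.sum_cons]

/-- sums of words between two letters `1` -/
theorem Bd_words {n : ℕ} (hn : 1 ≤ n) {v : Vc} {C : ℝ} (h : Bd n v C) (l : List (List ℕ))
    (hl : ∀ u ∈ l, ∀ i ∈ u, 1 ≤ i ∧ i ≤ 2 * n) (m : ℕ) :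
    Bd n (ee 1 (fun D => ((1 : ℂ) / 2) ^ m * (l.map (fun u => opW u (ee 1 v) D)).sum))
      (((1 : ℝ) / 2) ^ m * (l.length * C)) := by
  intro w hw D hD
  have e0 : opW w (ee 1 (fun D => ((1 : ℂ) / 2) ^ m * (l.map (fun u => opW u (ee 1 v) D)).sum)) =
      opW (1 :: w) (fun D => ((1 : ℂ) / 2) ^ m * (l.map (fun u => opW u (ee 1 v) D)).sum) := rfl
  rw [e0, opW_smul, opW_sum_list, norm_mul, half_norm]
  refine mul_le_mul_of_nonneg_left ?_ (by positivity)
  refine norm_sum_list l _ C fun u hu => ?_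
  rw [← opW_append]
  refine h (1 :: (u ++ 1 :: w)) ?_ D hD
  intro i hi
  rw [List.mem_cons, List.mem_append, List.mem_cons] at hi
  rcases hi with hi | hi | hi | hi
  · omega
  · exact hl u hu i hi
  · omega
  · exact hw i hi

theorem ee_one_v0 {n : ℕ} (hn : 1 ≤ n) : ee 1 (v0 n) = v0 n := by
  unfold v0
  rw [vec_act (sg0_nc n) le_rfl (by omega)]
  have e : act 1 sg0 = sg0 := by
    funext x
    unfold act
    rw [if_pos (by unfold sg0; rfl)]
  rw [e]

theorem AF_words {n : ℕ} (hn : 1 ≤ n) (v : Vc) :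
    AF n v = ee 1 (fun D => ((1 : ℂ) / 2) ^ (2 * (2 * n - 1)) * ((subs (mid n)).map (fun u => opW u (ee 1 v) D)).sum) := by
  rw [AF_mid hn]
  congr 1
  funext D
  rw [opH_expand, mid_length]

theorem Bd_AF {n : ℕ} (hn : 1 ≤ n) {v : Vc} {C : ℝ} (h : Bd n v C) : Bd n (AF n v) C := by
  rw [AF_words hn]
  have h3 := Bd_words hn h (subs (mid n)) (fun u hu i hi => by
    have := mid_mem (subs_mem hu i hi)
    omega) (2 * (2 * n - 1))
  have e : ((1 : ℝ) / 2) ^ (2 * (2 * n - 1)) * (((subs (mid n)).length : ℝ) * C) = C := by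
    rw [subs_length, mid_length]
    push_cast
    rw [← mul_assoc, ← mul_pow]
    norm_num
  rw [e] at h3
  exact h3

theorem ee_sec {n i : ℕ} (h1 : 1 ≤ i) (h2 : i ≤ 2 * n) {v v' : Vc} (h : ∀ D ∈ sec n, v D = v' D) {D : Finset ℕ} (hD : D ∈ sec n) :
    ee i v D = ee i v' D := by
  unfold ee
  rw [h D hD, h _ (swD_sec h1 h2 hD)]

theorem AF_rest {n : ℕ} (hn : 1 ≤ n) {v : Vc} {C : ℝ} (h : Bd n v C) :
    ∃ r : Vc, (∀ D ∈ sec n, AF n v D = ((1 : ℂ) / 2) ^ (2 * (2 * n - 1)) * (ip n (v0 n) v * v0 n D) + r D) ∧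
      Bd n r ((1 - (1 / 2) ^ (2 * (2 * n - 1))) * C) := by
  have h1 : oddT n ∈ subs (mid n) := subs_sublist (oddT_sub hn)
  obtain ⟨l1, l2, hl⟩ := List.append_of_mem h1
  have hmem : ∀ u ∈ l1 ++ l2, ∀ i ∈ u, 1 ≤ i ∧ i ≤ 2 * n := by
    intro u hu i hi
    have hu2 : u ∈ subs (mid n) := by
      rw [hl, List.mem_append, List.mem_cons]
      rw [List.mem_append] at hu
      rcases hu with hu | hu
      · exact Or.inl hu
      · exact Or.inr (Or.inr hu)
    have := mid_mem (subs_mem hu2 i hi)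
    omega
  have hlen : (l1 ++ l2).length + 1 = 2 ^ (2 * (2 * n - 1)) := by
    have h2 := subs_length (mid n)
    rw [hl, List.length_append, List.length_cons, mid_length] at h2
    rw [List.length_append]
    omega
  set m := 2 * (2 * n - 1) with hm
  refine ⟨ee 1 (fun D => ((1 : ℂ) / 2) ^ m * ((l1 ++ l2).map (fun u => opW u (ee 1 v) D)).sum), ?_, ?_⟩
  · intro D hD
    have e1 : (fun D => ((1 : ℂ) / 2) ^ m * ((subs (mid n)).map (fun u => opW u (ee 1 v) D)).sum) =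
        fun D => (fun D => ((1 : ℂ) / 2) ^ m * opW (oddL n) v D) D +
          (fun D => ((1 : ℂ) / 2) ^ m * ((l1 ++ l2).map (fun u => opW u (ee 1 v) D)).sum) D := by
      funext D
      have e2 : opW (oddT n) (ee 1 v) D = opW (oddL n) v D := by
        rw [oddL_cons hn]
        rfl
      beta_reduce
      rw [hl, List.map_append, List.sum_append, List.map_cons, List.sum_cons, List.map_append, List.sum_append, e2]
      ring
    rw [AF_words hn, e1, ee_add]
    beta_reduce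
    congr 1
    rw [ee_smul]
    show ((1 : ℂ) / 2) ^ m * ee 1 (opW (oddL n) v) D = _
    have e3 : ee 1 (opW (oddL n) v) D = ee 1 (fun D => ip n (v0 n) v * v0 n D) D :=
      ee_sec (n := n) le_rfl (by omega) (fun D hD => proj0 n v hD) hD
    rw [e3, ee_smul, ee_one_v0 hn]
  · have h3 := Bd_words hn h (l1 ++ l2) hmem m
    have e : ((1 : ℝ) / 2) ^ m * (((l1 ++ l2).length : ℝ) * C) =
        (1 - (1 / 2) ^ m) * C := by
      have h4 : (((l1 ++ l2).length : ℝ)) = 2 ^ m - 1 := by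
        have : (((l1 ++ l2).length + 1 : ℕ) : ℝ) = ((2 ^ m : ℕ) : ℝ) := by rw [hlen]
        push_cast at this
        linarith
      rw [h4]
      have h5 : ((1 : ℝ) / 2) ^ m * 2 ^ m = 1 := by
        rw [← mul_pow]
        norm_num
      linear_combination C * h5
    rw [e] at h3
    exact h3

/-! ### Linearity -/

theorem AF_lin {n : ℕ} (hn : 1 ≤ n) (v w : Vc) (c : ℂ) : AF n (fun D => v D + c * w D) = fun D => AF n v D + c * AF n w D := by
  rw [AF_mid hn, AF_mid hn, AF_mid hn]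
  have e1 : ee 1 (fun D => v D + c * w D) = fun D => ee 1 v D + (fun D => c * ee 1 w D) D := by
    have := ee_add 1 v (fun D => c * w D)
    rw [ee_smul] at this
    exact this
  rw [e1, opH_add, opH_smul]
  have e2 := ee_add 1 (opH (mid n) (ee 1 v)) (fun D => c * opH (mid n) (ee 1 w) D)
  rw [ee_smul] at e2
  exact e2

theorem ip_v0_ee {n i : ℕ} (h1 : 1 ≤ i) (h2 : i ≤ 2 * n) {σ : ℕ → ℕ} (h : IsNC (2 * n + 2) σ) : ip n (v0 n) (ee i (vec n σ)) = 1 := by
  rw [vec_act h h1 h2]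
  exact ip_vec (act_nc h h1 (by omega))

theorem ip_gi {n : ℕ} (hn : 1 ≤ n) (m : ℕ) : ip n (v0 n) (gi n m) = 1 := by
  unfold gi
  rw [← mean_low hn m, ip_mn]
  have h : ∀ c ∈ (TH n m).powerset, ip n (v0 n) (vec n (st n c (2 * m * (2 * n)))) = 1 := fun c _ => ip_vec (st_nc hn c _)
  rw [sum_congr rfl h, sum_const, card_powerset, nsmul_eq_mul, mul_one]
  push_cast
  exact div_self (pow_ne_zero _ two_ne_zero)

/-- outside of the sector -/
theorem gi_zero {n : ℕ} (hn : 1 ≤ n) (m : ℕ) {D : Finset ℕ} (hD : D ⊆ Icc 1 (2 * n + 1)) (h2 : D.card ≠ n) : gi n m D = 0 := by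
  unfold gi
  rw [← mean_low hn m]
  unfold mn
  have h : ∀ c ∈ (TH n m).powerset, vec n (st n c (2 * m * (2 * n))) D = 0 := fun c _ => vec_card (st_nc hn c _) hD h2
  rw [sum_congr rfl h, sum_const_zero, zero_div]

theorem gi_succ (n m : ℕ) : gi n (m + 1) = AF n (gi n m) := Function.iterate_succ_apply' _ _ _

/-- fixed vector of the period -/
structure GS (n : ℕ) (Ψ : Vc) : Prop where
  fix : ∀ D ∈ sec n, AF n Ψ D = Ψ D
  zer : ∀ D, D ⊆ Icc 1 (2 * n + 1) → D.card ≠ n → Ψ D = 0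
  non : ∃ D ∈ sec n, Ψ D ≠ 0

/-- geometric convergence -/
theorem conv {n : ℕ} (hn : 1 ≤ n) {Ψ : Vc} (h : ∀ D ∈ sec n, AF n Ψ D = Ψ D) {D : Finset ℕ} (hD : D ∈ sec n) :
    Tendsto (fun m => ip n (v0 n) Ψ * gi n m D) atTop (𝓝 (Ψ D)) := by
  set κ : ℂ := ip n (v0 n) Ψ with hκ
  set x : ℕ → Vc := fun m D => Ψ D + (-κ) * gi n m D with hx
  set θ : ℝ := 1 - (1 / 2) ^ (2 * (2 * n - 1)) with hθ
  have hδ : (0 : ℝ) < (1 / 2) ^ (2 * (2 * n - 1)) := by positivity
  have hδ1 : ((1 : ℝ) / 2) ^ (2 * (2 * n - 1)) ≤ 1 := pow_le_one₀ (by norm_num) (by norm_num)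
  have hθ0 : 0 ≤ θ := by rw [hθ]; linarith
  have hθ1 : θ < 1 := by rw [hθ]; linarith
  set C : ℝ := ∑ D ∈ sec n, ‖x 0 D‖ with hC
  have hA : ∀ m, ip n (v0 n) (x m) = 0 := by
    intro m
    have e : ip n (v0 n) (x m) = ip n (v0 n) Ψ + (-κ) * ip n (v0 n) (gi n m) := sspec_right n (-κ) (v0 n) Ψ (gi n m)
    rw [e, ip_gi hn m, ← hκ]
    ring
  have hB : ∀ m, ∀ D ∈ sec n, x (m + 1) D = AF n (x m) D := by
    intro m D hD
    have e1 : AF n (x m) = fun D => AF n Ψ D + (-κ) * AF n (gi n m) D := AF_lin hn Ψ (gi n m) (-κ)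
    rw [e1]
    show Ψ D + (-κ) * gi n (m + 1) D = AF n Ψ D + (-κ) * AF n (gi n m) D
    rw [h D hD, gi_succ]
  have hBd : ∀ m, Bd n (x m) (θ ^ m * C) := by
    intro m
    induction m with
    | zero => rw [pow_zero, one_mul]; exact Bd_sum n (x 0)
    | succ m ih =>
      obtain ⟨r, hr1, hr2⟩ := AF_rest hn ih
      have e : ∀ D ∈ sec n, x (m + 1) D = r D := by
        intro D hD
        rw [hB m D hD, hr1 D hD, hA m]
        ring
      intro w hw D hD
      rw [opW_sec w hw e D hD]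
      refine (hr2 w hw D hD).trans (le_of_eq ?_)
      rw [pow_succ, hθ]
      ring
  have hx1 : ∀ m, ‖x m D‖ ≤ θ ^ m * C := fun m => Bd_le (hBd m) hD
  have hlim : Tendsto (fun m => x m D) atTop (𝓝 0) := sspec_lim hθ0 hθ1 hx1
  have h2 := hlim.const_sub (Ψ D)
  rw [sub_zero] at h2
  refine h2.congr fun m => ?_
  show Ψ D - (Ψ D + (-κ) * gi n m D) = κ * gi n m D
  ring

theorem GS.kne {n : ℕ} (hn : 1 ≤ n) {Ψ : Vc} (h : GS n Ψ) : ip n (v0 n) Ψ ≠ 0 := by
  obtain ⟨D, hD, hne⟩ := h.non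
  intro h0
  have h1 := conv hn h.fix hD
  rw [h0] at h1
  simp only [zero_mul] at h1
  exact hne (tendsto_nhds_unique h1 tendsto_const_nhds)

theorem GS.lim {n : ℕ} (hn : 1 ≤ n) {Ψ : Vc} (h : GS n Ψ) {D : Finset ℕ} (hD : D ⊆ Icc 1 (2 * n + 1)) :
    Tendsto (fun m => ip n (v0 n) Ψ * gi n m D) atTop (𝓝 (Ψ D)) := by
  by_cases h1 : D.card = n
  · exact conv hn h.fix (mem_powersetCard.2 ⟨hD, h1⟩)
  · rw [h.zer D hD h1]
    simp only [gi_zero hn _ hD h1, mul_zero]
    exact tendsto_const_nhds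

theorem GS.limr {n : ℕ} (hn : 1 ≤ n) {Ψ : Vc} (h : GS n Ψ) {D : Finset ℕ} (hD : D ⊆ Icc 1 (2 * n + 1)) :
    Tendsto (fun m => ip n (v0 n) Ψ * lowr (gi n m) D) atTop (𝓝 (lowr Ψ D)) := by
  simp only [lowr_eq, mul_sum]
  refine tendsto_finsetSum _ fun j _ => ?_
  have h1 := (h.lim hn (D := D.erase j) (fun x hx => hD (mem_of_mem_erase hx))).const_mul (cj D j)
  refine h1.congr fun m => ?_
  ring

section

variable {a b : ℕ}

/-- the pairing of the first kind -/
def pA (a b : ℕ) (Ψn Ψa Ψb : Vc) : ℂ := ip (a + b) Ψn (prodv a Ψa (lowr Ψb))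

/-- the pairing of the second kind -/
def pB (a b : ℕ) (Ψn Ψa Ψb : Vc) : ℂ := ip (a + b) Ψn (prodv a (lowr Ψa) Ψb)

theorem lim_A (ha : 1 ≤ a) (hb : 1 ≤ b) {Ψn Ψa Ψb : Vc} (hn : GS (a + b) Ψn) (hA : GS a Ψa) (hB : GS b Ψb) :
    Tendsto (fun N => ip (a + b) (v0 (a + b)) Ψn * ip a (v0 a) Ψa * ip b (v0 b) Ψb *
      (s ^ 2 * ((cr (2 * a - 1) (2 * (a + b) - 1) (2 * N + 1) : ℝ) : ℂ))) atTop (𝓝 (pA a b Ψn Ψa Ψb)) := by
  have h1 : ∀ N, ip (a + b) (v0 (a + b)) Ψn * ip a (v0 a) Ψa * ip b (v0 b) Ψb *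
      (s ^ 2 * ((cr (2 * a - 1) (2 * (a + b) - 1) (2 * N + 1) : ℝ) : ℂ)) =
      ∑ D ∈ sec (a + b), (ip (a + b) (v0 (a + b)) Ψn * gi (a + b) (N + 1) D) *
        (if 2 * a + 2 ∈ D then 0 else (ip a (v0 a) Ψa * gi a N (dL a D)) * (ip b (v0 b) Ψb * lowr (gi b N) (dR a D))) := by
    intro N
    rw [cr_pair ha hb N]
    unfold ip prodv
    rw [mul_sum]
    refine sum_congr rfl fun D _ => ?_
    split_ifs
    · ring
    · ring
  refine Tendsto.congr (fun N => (h1 N).symm) ?_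
  show Tendsto _ atTop (𝓝 (∑ D ∈ sec (a + b), Ψn D * (if 2 * a + 2 ∈ D then 0 else Ψa (dL a D) * lowr Ψb (dR a D))))
  refine tendsto_finsetSum _ fun D hD => ?_
  refine Tendsto.mul ?_ ?_
  · exact (hn.lim (by omega) (mem_powersetCard.1 hD).1).comp (tendsto_add_atTop_nat 1)
  · by_cases h : 2 * a + 2 ∈ D
    · simp only [if_pos h]
      exact tendsto_const_nhds
    · simp only [if_neg h]
      exact (hA.lim ha (dL_sub hD)).mul (hB.limr hb (dR_sub hb hD))

theorem lim_B (ha : 1 ≤ a) (hb : 1 ≤ b) {Ψn Ψa Ψb : Vc} (hn : GS (a + b) Ψn) (hA : GS a Ψa) (hB : GS b Ψb) :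
    Tendsto (fun N => ip (a + b) (v0 (a + b)) Ψn * ip a (v0 a) Ψa * ip b (v0 b) Ψb *
      (1 - ((cr (2 * a - 1) (2 * (a + b) - 1) (2 * N + 1) : ℝ) : ℂ))) atTop (𝓝 (pB a b Ψn Ψa Ψb)) := by
  have h1 : ∀ N, ip (a + b) (v0 (a + b)) Ψn * ip a (v0 a) Ψa * ip b (v0 b) Ψb *
      (1 - ((cr (2 * a - 1) (2 * (a + b) - 1) (2 * N + 1) : ℝ) : ℂ)) =
      ∑ D ∈ sec (a + b), (ip (a + b) (v0 (a + b)) Ψn * gi (a + b) (N + 1) D) *
        (if 2 * a + 2 ∈ D then 0 else (ip a (v0 a) Ψa * lowr (gi a N) (dL a D)) * (ip b (v0 b) Ψb * gi b N (dR a D))) := by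
    intro N
    rw [cr_pair' ha hb N]
    unfold ip prodv
    rw [mul_sum]
    refine sum_congr rfl fun D _ => ?_
    split_ifs
    · ring
    · ring
  refine Tendsto.congr (fun N => (h1 N).symm) ?_
  show Tendsto _ atTop (𝓝 (∑ D ∈ sec (a + b), Ψn D * (if 2 * a + 2 ∈ D then 0 else lowr Ψa (dL a D) * Ψb (dR a D))))
  refine tendsto_finsetSum _ fun D hD => ?_
  refine Tendsto.mul ?_ ?_
  · exact (hn.lim (by omega) (mem_powersetCard.1 hD).1).comp (tendsto_add_atTop_nat 1)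
  · by_cases h : 2 * a + 2 ∈ D
    · simp only [if_pos h]
      exact tendsto_const_nhds
    · simp only [if_neg h]
      exact (hA.limr ha (dL_sub hD)).mul (hB.lim hb (dR_sub hb hD))

/-- **the limit of the crossing probabilities** -/
theorem lim_cr (ha : 1 ≤ a) (hb : 1 ≤ b) {Ψn Ψa Ψb : Vc} (hn : GS (a + b) Ψn) (hA : GS a Ψa) (hB : GS b Ψb) :
    pA a b Ψn Ψa Ψb + s ^ 2 * pB a b Ψn Ψa Ψb ≠ 0 ∧
    Tendsto (fun N => ((cr (2 * a - 1) (2 * (a + b) - 1) (2 * N + 1) : ℝ) : ℂ)) atTop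
      (𝓝 (pA a b Ψn Ψa Ψb / (pA a b Ψn Ψa Ψb + s ^ 2 * pB a b Ψn Ψa Ψb))) := by
  have hs := s_ne
  have l1 := lim_A ha hb hn hA hB
  have l2 := (lim_B ha hb hn hA hB).const_mul (s ^ 2)
  have k1 := hn.kne (by omega)
  have k2 := hA.kne ha
  have k3 := hB.kne hb
  set K := ip (a + b) (v0 (a + b)) Ψn * ip a (v0 a) Ψa * ip b (v0 b) Ψb with hK
  have hK0 : K ≠ 0 := mul_ne_zero (mul_ne_zero k1 k2) k3
  have l3 := l1.add l2
  have e1 : ∀ N : ℕ, K * (s ^ 2 * ((cr (2 * a - 1) (2 * (a + b) - 1) (2 * N + 1) : ℝ) : ℂ)) +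
      s ^ 2 * (K * (1 - ((cr (2 * a - 1) (2 * (a + b) - 1) (2 * N + 1) : ℝ) : ℂ))) = K * s ^ 2 := fun N => by ring
  simp only [e1] at l3
  have e2 : pA a b Ψn Ψa Ψb + s ^ 2 * pB a b Ψn Ψa Ψb = K * s ^ 2 := tendsto_nhds_unique l3 tendsto_const_nhds
  have hne : K * s ^ 2 ≠ 0 := mul_ne_zero hK0 (pow_ne_zero _ hs)
  rw [e2]
  refine ⟨hne, ?_⟩
  refine (l1.div_const (K * s ^ 2)).congr fun N => ?_
  field_simp

end

end CD
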