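import Pool.Agent.Lib.MP_216314_pr.Ca.CaT

/-!
# The tiles are the edges of the slit strip; the crossing event
-/

set_option autoImplicit false

noncomputable section

namespace CD

open Finset FKI FKP FKH QS

theorem pe_inj (N : ℕ) : Function.Injective (pe N) := by
  rintro ⟨a, b⟩ ⟨a', b'⟩ h
  unfold pe at h
  simp only at h
  split_ifs at h with h1 h2 h2
  · simp only [Prod.mk.injEq, and_true] at h
    rw [Prod.mk.injEq]
    omega
  · simp only [Prod.mk.injEq, Bool.false_eq_true, and_false] at h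
  · simp only [Prod.mk.injEq, Bool.true_eq_false, and_false] at h
  · simp only [Prod.mk.injEq, and_true] at h
    rw [Prod.mk.injEq]
    omega

/-- the map `pe` as an embedding -/
def peE (N : ℕ) : (ℕ × ℕ) ↪ Edge := ⟨pe N, pe_inj N⟩

/-- end points -/
theorem pe_ends (N : ℕ) (t : ℕ × ℕ) :
    (ea (pe N t) = ph N (lo t) ∧ eb (pe N t) = ph N (hi t)) ∨
    (ea (pe N t) = ph N (hi t) ∧ eb (pe N t) = ph N (lo t)) := by
  obtain ⟨a, b⟩ := t
  unfold pe ph lo hi
  by_cases h : (a + b) % 2 = 1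
  · left
    rw [if_pos h, if_pos h, if_pos h]
    simp only [ea, eb, Bool.false_eq_true, if_false, Prod.mk.injEq]
    push_cast
    refine ⟨?_, ?_, ?_⟩
    · trivial
    · omega
    · omega
  · right
    rw [if_neg h, if_neg h, if_neg h]
    simp only [ea, eb, if_true, Prod.mk.injEq]
    push_cast
    refine ⟨⟨?_, ?_⟩, ?_, ?_⟩
    · omega
    · omega
    · omega
    · omega

theorem ch_ph (N : ℕ) {u : ℕ × ℕ} (hu : (u.1 + u.2) % 2 = 1) : ch N (ph N u) = u := by
  obtain ⟨a, b⟩ := u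
  unfold ch ph
  simp only at hu ⊢
  rw [Prod.mk.injEq]
  constructor
  · omega
  · omega

theorem mem_TT {a b N : ℕ} {t : ℕ × ℕ} : t ∈ TT a b N ↔ ((2 ≤ t.1 ∧ t.1 ≤ 2 * (a + b)) ∧ t.2 < 4 * N + 2) ∧
    ¬ (t.1 = 2 * a + 1 ∧ t.2 < 2 * N) := by
  unfold TT
  rw [mem_filter, mem_product, mem_Icc, mem_range]

theorem mem_dsl {k L K : ℕ} {e : Edge} : e ∈ dsl k L K ↔
    (0 ≤ (ea e).1 + (ea e).2 ∧ (eb e).1 + (eb e).2 ≤ (L : ℤ)) ∧
    (|(ea e).1 - (ea e).2| ≤ (K : ℤ) ∧ |(eb e).1 - (eb e).2| ≤ (K : ℤ)) ∧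
    ¬ ((ea e).1 + (ea e).2 = (k : ℤ) ∧ (eb e).1 < (eb e).2) := by
  unfold dsl
  rw [mem_filter, mem_box]
  constructor
  · exact fun h => h.2
  · intro h
    refine ⟨?_, h⟩
    obtain ⟨⟨h1, h2⟩, ⟨h3, h4⟩, _⟩ := h
    rw [abs_le] at h3 h4
    obtain ⟨x, y, t⟩ := e
    cases t
    · simp [ea, eb] at h1 h2 h3 h4 ⊢
      omega
    · simp [ea, eb] at h1 h2 h3 h4 ⊢
      omega

theorem map_TT {a b : ℕ} (ha : 1 ≤ a) (hb : 1 ≤ b) (N : ℕ) :
    (TT a b N).map (peE N) = dsl (2 * a - 1) (2 * (a + b) - 1) (2 * N + 1) := by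
  ext e
  rw [mem_map, mem_dsl, abs_le, abs_le]
  constructor
  · rintro ⟨t, ht, rfl⟩
    rw [mem_TT] at ht
    obtain ⟨j, h⟩ := t
    simp only at ht
    simp only [peE, Function.Embedding.coeFn_mk]
    unfold pe
    by_cases hp : (j + h) % 2 = 1
    · rw [if_pos hp]
      simp only [ea, eb, Bool.false_eq_true, if_false]
      omega
    · rw [if_neg hp]
      simp only [ea, eb, if_true]
      omega
  · obtain ⟨x, y, t⟩ := e
    cases t
    · simp only [ea, eb, Bool.false_eq_true, if_false]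
      rintro ⟨⟨h1, h2⟩, ⟨⟨h3, h4⟩, ⟨h5, h6⟩⟩, h7⟩
      refine ⟨((x + y + 2).toNat, (x - y + 1 + 2 * N).toNat), ?_, ?_⟩
      · rw [mem_TT]
        simp only
        omega
      · show pe N _ = _
        unfold pe
        simp only
        rw [if_pos (by omega)]
        simp only [Prod.mk.injEq, and_true]
        omega
    · simp only [ea, eb, if_true]
      rintro ⟨⟨h1, h2⟩, ⟨⟨h3, h4⟩, ⟨h5, h6⟩⟩, h7⟩
      refine ⟨((x + y + 2).toNat, (x - y + 2 * N).toNat), ?_, ?_⟩
      · rw [mem_TT]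
        simp only
        omega
      · show pe N _ = _
        unfold pe
        simp only
        rw [if_neg (by omega)]
        simp only [Prod.mk.injEq, and_true]
        omega

end CD
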