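import Pool.Agent.Lib.MP_216314_pr.Ca.CaF
import Pool.Agent.Lib.MP_216314_pr.Ca.CaIni

/-!
# Means of the state vectors over the tiles
-/

set_option autoImplicit false

noncomputable section

namespace CD

open Finset FKI FKP FKH QS

theorem mn_ee (S : Finset (ℕ × ℕ)) (i : ℕ) (F : Finset (ℕ × ℕ) → Vc) : ee i (mn S F) = mn S (fun c => ee i (F c)) := by
  have h3 : mn S F = fun D => (1 / 2 ^ S.card) * (∑ c ∈ S.powerset, F c D) := by
    funext D
    unfold mn
    rw [one_div, inv_mul_eq_div]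
  funext D
  rw [h3, ee_smul]
  show (1 / 2 ^ S.card) * ee i (fun D => ∑ c ∈ S.powerset, F c D) D = mn S (fun c => ee i (F c)) D
  rw [ee_sum]
  unfold mn
  rw [one_div, inv_mul_eq_div]

theorem mn_congr {S : Finset (ℕ × ℕ)} {F G : Finset (ℕ × ℕ) → Vc} {D : Finset ℕ} (h : ∀ c, c ⊆ S → F c D = G c D) :
    mn S F D = mn S G D := by
  unfold mn
  rw [sum_congr rfl fun c hc => h c (mem_powerset.1 hc)]

theorem mn_insert {S : Finset (ℕ × ℕ)} {t : ℕ × ℕ} (ht : t ∉ S) (j : ℕ) (F G : Finset (ℕ × ℕ) → Vc)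
    (h : ∀ c, c ⊆ S → (G c = F c ∧ G (insert t c) = ee j (F c)) ∨ (G c = ee j (F c) ∧ G (insert t c) = F c)) :
    mn (insert t S) G = hs j (mn S F) := by
  funext D
  have h1 : ∑ c ∈ (insert t S).powerset, G c D = ∑ c ∈ S.powerset, (F c D + ee j (F c) D) := by
    rw [sum_powerset_insert ht, ← sum_add_distrib]
    refine sum_congr rfl fun c hc => ?_
    rcases h c (mem_powerset.1 hc) with ⟨h2, h3⟩ | ⟨h2, h3⟩
    · rw [h2, h3]
    · rw [h2, h3, add_comm]
  show (∑ c ∈ (insert t S).powerset, G c D) / 2 ^ (insert t S).card = (mn S F D + ee j (mn S F) D) / 2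
  rw [h1, mn_ee, card_insert_of_notMem ht, sum_add_distrib, pow_succ]
  unfold mn
  field_simp

/-- the tiles between the times `T0` and `T0 + t` without the column `1` -/
def UF (n T0 t : ℕ) : Finset (ℕ × ℕ) := (UT n T0 t).filter (fun t => 2 ≤ t.1)

theorem opF_cons (i : ℕ) (l : List ℕ) (v : Vc) : opF (i :: l) v = opF l (hf i v) := rfl

theorem opF_run (l : List ℕ) : ∀ (U : ℕ → Vc), (∀ (k : ℕ) (hk : k < l.length), U (k + 1) = hf l[k] (U k)) →
    opF l (U 0) = U l.length := by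
  induction l with
  | nil =>
    intro U _
    rfl
  | cons i l ih =>
    intro U h
    have h0 : U 1 = hf i (U 0) := h 0 (Nat.succ_pos _)
    rw [opF_cons, ← h0]
    have h1 := ih (fun k => U (k + 1)) (fun k hk => by
      have := h (k + 1) (Nat.succ_lt_succ hk)
      rw [List.getElem_cons_succ] at this
      exact this)
    exact h1

/-- a family of vectors which follows the tiles follows the periods -/
theorem AF_run {n : ℕ} (hn : 1 ≤ n) (U : ℕ → Vc) (m0 : ℕ)
    (h : ∀ t, U (t + 1) = hf (tile n (4 * n * m0 + t)).1 (U t)) (m : ℕ) :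
    (AF n)^[m] (U 0) = U (4 * n * m) := by
  induction m with
  | zero => rfl
  | succ m ih =>
    rw [Function.iterate_succ_apply', ih]
    have h1 := opF_run (per n) (fun k => U (4 * n * m + k)) (fun k hk => by
      have hk' : k < 4 * n := by
        rw [per_length] at hk
        exact hk
      have h2 := h (4 * n * m + k)
      have h3 : 4 * n * m0 + (4 * n * m + k) = 4 * n * (m0 + m) + k := by ring
      rw [h3, tile_fst_eq hn hk'] at h2
      rw [per_get hk]
      exact h2)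
    rw [per_length] at h1
    have h2 : 4 * n * (m + 1) = 4 * n * m + 4 * n := by ring
    rw [h2, ← h1]
    rfl

theorem mean_step {n : ℕ} (hn : 1 ≤ n) {P : ℕ} (hP : 2 * n + 1 < P) (W : (ℕ → ℕ) → Vc)
    (hW : ∀ σ i, IsNC P σ → 1 ≤ i → i ≤ 2 * n → ee i (W σ) = W (act i σ)) {σ0 : ℕ → ℕ} (h0 : IsNC P σ0) (T0 t : ℕ) :
    mn (UF n T0 (t + 1)) (fun c => W (sr n c σ0 T0 (t + 1))) =
      hf (tile n (T0 + t)).1 (mn (UF n T0 t) (fun c => W (sr n c σ0 T0 t))) := by
  have hb := tile_fst hn (T0 + t)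
  have hnc := fun c => sr_nc hn hP c h0 T0 t
  by_cases h1 : (tile n (T0 + t)).1 = 1
  · have e1 : UF n T0 (t + 1) = UF n T0 t := by
      unfold UF
      rw [UT_succ hn, filter_insert, if_neg (by omega)]
    unfold hf
    rw [e1, if_pos h1, mn_ee]
    funext D
    refine mn_congr fun c hc => ?_
    have h2 : ltr c (tile n (T0 + t)) := by
      refine Or.inr ⟨by omega, fun h3 => ?_⟩
      have := (mem_filter.1 (hc h3)).2
      omega
    rw [sr_succ_of h2, hW _ _ (hnc c) le_rfl (by omega), h1]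
  · have e1 : UF n T0 (t + 1) = insert (tile n (T0 + t)) (UF n T0 t) := by
      unfold UF
      rw [UT_succ hn, filter_insert, if_pos (by omega)]
    have hnt : tile n (T0 + t) ∉ UF n T0 t := fun h => UT_notMem hn T0 t (mem_filter.1 h).1
    unfold hf
    rw [e1, if_neg h1]
    refine mn_insert hnt _ _ _ fun c hc => ?_
    have h3 : ee (tile n (T0 + t)).1 (W (sr n c σ0 T0 t)) = W (act (tile n (T0 + t)).1 (sr n c σ0 T0 t)) :=
      hW _ _ (hnc c) hb.1 hb.2
    have h4 := sr_insert hn σ0 T0 t c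
    have h5 : tile n (T0 + t) ∉ c := fun h => hnt (hc h)
    have h6 : tile n (T0 + t) ∈ insert (tile n (T0 + t)) c := mem_insert_self _ _
    rcases Nat.mod_two_eq_zero_or_one (tile n (T0 + t)).1 with hp | hp
    · left
      have g1 : ¬ ltr c (tile n (T0 + t)) := by
        rintro (⟨_, h⟩ | ⟨h, _⟩)
        · exact h5 h
        · omega
      have g2 : ltr (insert (tile n (T0 + t)) c) (tile n (T0 + t)) := Or.inl ⟨hp, h6⟩
      rw [sr_succ_not g1, sr_succ_of g2, h4, h3]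
      exact ⟨rfl, rfl⟩
    · right
      have g1 : ltr c (tile n (T0 + t)) := Or.inr ⟨hp, h5⟩
      have g2 : ¬ ltr (insert (tile n (T0 + t)) c) (tile n (T0 + t)) := by
        rintro (⟨h, _⟩ | ⟨_, h⟩)
        · omega
        · exact h h6
      rw [sr_succ_of g1, sr_succ_not g2, h4, h3]
      exact ⟨rfl, rfl⟩

theorem mean_run {n : ℕ} (hn : 1 ≤ n) {P : ℕ} (hP : 2 * n + 1 < P) (W : (ℕ → ℕ) → Vc)
    (hW : ∀ σ i, IsNC P σ → 1 ≤ i → i ≤ 2 * n → ee i (W σ) = W (act i σ)) {σ0 : ℕ → ℕ} (h0 : IsNC P σ0) (m0 m : ℕ) :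
    mn (UF n (4 * n * m0) (4 * n * m)) (fun c => W (sr n c σ0 (4 * n * m0) (4 * n * m))) = (AF n)^[m] (W σ0) := by
  have h1 := AF_run hn (fun t => mn (UF n (4 * n * m0) t) (fun c => W (sr n c σ0 (4 * n * m0) t))) m0
    (fun t => mean_step hn hP W hW h0 (4 * n * m0) t) m
  have h2 : mn (UF n (4 * n * m0) 0) (fun c => W (sr n c σ0 (4 * n * m0) 0)) = W σ0 := by
    funext D
    unfold mn UF
    rw [UT_zero, filter_empty, powerset_empty, sum_singleton, card_empty, pow_zero, div_one]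
    rfl
  rw [← h1]
  exact congrArg _ h2

theorem st_sr (n : ℕ) (c : Finset (ℕ × ℕ)) (T : ℕ) : sr n c sg0 0 T = st n c T := by
  induction T with
  | zero => rfl
  | succ T ih =>
    show (if ltr c (tile n (0 + T)) then act (tile n (0 + T)).1 (sr n c sg0 0 T) else sr n c sg0 0 T) =
      (if ltr c (tile n T) then act (tile n T).1 (st n c T) else st n c T)
    rw [ih, Nat.zero_add]

theorem mem_PT_slab {n : ℕ} (hn : 1 ≤ n) (h : ℕ) {t : ℕ × ℕ} : t ∈ PT n (2 * n * h) ↔ (1 ≤ t.1 ∧ t.1 ≤ 2 * n) ∧ t.2 < h := by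
  unfold PT
  rw [Nat.mul_div_cancel_left _ (by omega), Nat.mul_mod_right, mem_PS]
  constructor
  · rintro ⟨h1, h2 | ⟨_, h3⟩⟩
    · exact ⟨h1, h2⟩
    · unfold dn at h3
      split_ifs at h3
      · omega
      · omega
  · rintro ⟨h1, h2⟩
    exact ⟨h1, Or.inl h2⟩

theorem UF_low {n : ℕ} (hn : 1 ≤ n) (N : ℕ) : UF n (4 * n * 0) (4 * n * N) = TH n N := by
  ext t
  unfold UF UT
  have e1 : 4 * n * 0 + 4 * n * N = 2 * n * (2 * N) := by ring
  have e2 : 4 * n * 0 = 2 * n * 0 := by ring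
  rw [mem_filter, mem_sdiff, e1, e2, mem_PT_slab hn, mem_PT_slab hn, mem_TH]
  omega

theorem UF_up {a b : ℕ} (hn : 1 ≤ a + b) (N : ℕ) :
    UF (a + b) (4 * (a + b) * N) (4 * (a + b) * (N + 1)) = TU a b N := by
  ext t
  unfold UF UT TU
  have e1 : 4 * (a + b) * N + 4 * (a + b) * (N + 1) = 2 * (a + b) * (4 * N + 2) := by ring
  have e2 : 4 * (a + b) * N = 2 * (a + b) * (2 * N) := by ring
  rw [mem_filter, mem_sdiff, e1, e2, mem_PT_slab hn, mem_PT_slab hn, mem_product, mem_Icc, mem_Ico]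
  omega

theorem mean_low {n : ℕ} (hn : 1 ≤ n) (N : ℕ) :
    mn (TH n N) (fun c => vec n (st n c (2 * N * (2 * n)))) = (AF n)^[N] (v0 n) := by
  have h := mean_run hn (P := 2 * n + 2) (by omega) (vec n) (fun σ i h h1 h2 => vec_act h h1 h2) (sg0_nc n) 0 N
  rw [UF_low hn] at h
  have e1 : 2 * N * (2 * n) = 4 * n * N := by ring
  have e2 : 4 * n * 0 = 0 := by ring
  rw [e2] at h
  simp only [st_sr] at h
  rw [e1]
  exact h

theorem mean_upA {a b : ℕ} (hn : 1 ≤ a + b) (N : ℕ) {σ0 : ℕ → ℕ} (h0 : IsNC (2 * (a + b) + 4) σ0) :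
    mn (TU a b N) (fun c => vecA (a + b) (sr (a + b) c σ0 (4 * (a + b) * N) (4 * (a + b) * (N + 1)))) =
      (AF (a + b))^[N + 1] (vecA (a + b) σ0) := by
  have h := mean_run hn (P := 2 * (a + b) + 4) (by omega) (vecA (a + b)) (fun σ i h h1 h2 => ee_vecA h h1 h2) h0 N (N + 1)
  rw [UF_up hn] at h
  exact h

theorem mean_upB {a b : ℕ} (hn : 1 ≤ a + b) (N : ℕ) {σ0 : ℕ → ℕ} (h0 : IsNC (2 * (a + b) + 4) σ0) :
    mn (TU a b N) (fun c => vecB (a + b) (sr (a + b) c σ0 (4 * (a + b) * N) (4 * (a + b) * (N + 1)))) =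
      (AF (a + b))^[N + 1] (vecB (a + b) σ0) := by
  have h := mean_run hn (P := 2 * (a + b) + 4) (by omega) (vecB (a + b)) (fun σ i h h1 h2 => ee_vecB h h1 h2) h0 N (N + 1)
  rw [UF_up hn] at h
  exact h

/-- without tiles of the column `1` the first two points are joined -/
theorem st_one {n : ℕ} (hn : 1 ≤ n) {N : ℕ} {c : Finset (ℕ × ℕ)} (hc : c ⊆ TH n N) : st n c (2 * N * (2 * n)) 1 = 2 := by
  rcases Nat.eq_zero_or_pos N with hN | hN
  · rw [hN]
    have e : 2 * 0 * (2 * n) = 0 := by ring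
    rw [e]
    rfl
  · obtain ⟨M, rfl⟩ : ∃ M, N = M + 1 := ⟨N - 1, by omega⟩
    have e : 2 * (M + 1) * (2 * n) = (4 * n * M + (4 * n - 1)) + 1 := by
      have e1 : 2 * (M + 1) * (2 * n) = 4 * n * M + 4 * n := by ring
      omega
    have h1 : (tile n (4 * n * M + (4 * n - 1))).1 = 1 := by
      rw [tile_fst_eq hn (by omega), if_neg (by omega)]
      omega
    have h2 : ltr c (tile n (4 * n * M + (4 * n - 1))) := by
      refine Or.inr ⟨by omega, fun h3 => ?_⟩
      have := (mem_TH.1 (hc h3)).1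
      omega
    rw [e, st_succ_of h2, h1]
    unfold act
    by_cases h4 : st n c (4 * n * M + (4 * n - 1)) 1 = 1 + 1
    · rw [if_pos h4, h4]
    · rw [if_neg h4, if_pos rfl]

end CD
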