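import Pool.Agent.Lib.MP_216314_pr.Ca.CaEvt
import Pool.Agent.Lib.MP_216314_pr.P.PSymC

/-!
# Monotonicity of the crossing probability of the slit strip
-/

set_option autoImplicit false

noncomputable section

namespace CD

open Finset FKI FKP Filter Topology

variable {k L K : ℕ}

theorem Cr_inc (k L K : ℕ) : Inc (Cr k L K) := by
  rintro ω ω' h ⟨u, v, h1, h2, h3⟩
  exact ⟨u, v, h1, h2, h3.mono (Finset.Subset.refl _) h⟩

theorem Cr_dep {F : Finset Edge} (hF : dsl k L K ⊆ F) : Dep F (Cr k L K) := by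
  intro ω
  constructor
  · rintro ⟨u, v, h1, h2, h3⟩
    exact ⟨u, v, h1, h2, (dep_Conn hF u v ω).1 h3⟩
  · rintro ⟨u, v, h1, h2, h3⟩
    exact ⟨u, v, h1, h2, (dep_Conn hF u v ω).2 h3⟩

/-! ### Height -/

theorem dsl_mono {K K' : ℕ} (h : K ≤ K') : dsl k L K ⊆ dsl k L K' := by
  intro e he
  rw [mem_dsl] at he ⊢
  have h' : (K : ℤ) ≤ K' := Int.ofNat_le.2 h
  exact ⟨he.1, ⟨he.2.1.1.trans h', he.2.1.2.trans h'⟩, he.2.2⟩

theorem cr_mono {K K' : ℕ} (h : K ≤ K') : cr k L K ≤ cr k L K' := by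
  unfold cr
  refine (Pr_super (dsl_mono h) (Cr_inc k L K)).trans (Pr_mono fun ω _ hω => ?_)
  obtain ⟨u, v, h1, h2, h3⟩ := hω
  exact ⟨u, v, h1, h2, h3.mono (dsl_mono h) (Finset.Subset.refl _)⟩

theorem cr_le_one (k L K : ℕ) : cr k L K ≤ 1 := Pr_le_one _ _

theorem cr_nonneg (k L K : ℕ) : 0 ≤ cr k L K := Pr_nonneg _ _

theorem cri_tendsto (k L : ℕ) : Tendsto (fun K => cr k L K) atTop (𝓝 (cri k L)) :=
  tendsto_atTop_ciSup (fun _ _ h => cr_mono h) ⟨1, by
    rintro _ ⟨K, rfl⟩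
    exact cr_le_one k L K⟩

/-! ### Width on the right -/

theorem dsl_right (k L K : ℕ) : dsl k L K ⊆ dsl k (L + 1) K := by
  intro e he
  rw [mem_dsl] at he ⊢
  push_cast
  exact ⟨⟨he.1.1, by linarith [he.1.2]⟩, he.2.1, he.2.2⟩

/-- a path to the line `x + y = L + 1` meets the line `x + y = L` -/
theorem first_line {ω : Finset Edge} {u w : V} (hu : u.1 + u.2 ≤ (L : ℤ)) (h : Conn (dsl k (L + 1) K) ω u w) :
    (Conn (dsl k L K) ω u w ∧ w.1 + w.2 ≤ (L : ℤ)) ∨ ∃ w' : V, w'.1 + w'.2 = (L : ℤ) ∧ Conn (dsl k L K) ω u w' := by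
  have key : ∀ a b : V, (gr (ω ∩ dsl k (L + 1) K)).Walk a b →
      ((Conn (dsl k L K) ω u a ∧ a.1 + a.2 ≤ (L : ℤ)) ∨ ∃ w' : V, w'.1 + w'.2 = (L : ℤ) ∧ Conn (dsl k L K) ω u w') →
      ((Conn (dsl k L K) ω u b ∧ b.1 + b.2 ≤ (L : ℤ)) ∨ ∃ w' : V, w'.1 + w'.2 = (L : ℤ) ∧ Conn (dsl k L K) ω u w') := by
    intro a b p
    induction p with
    | nil => exact id
    | @cons a b c hadj p ih =>
      intro h1
      refine ih ?_
      rcases h1 with ⟨h1, h2⟩ | h1
      · by_cases h3 : a.1 + a.2 = (L : ℤ)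
        · exact Or.inr ⟨a, h3, h1⟩
        · obtain ⟨e, he, hends⟩ := pexit_adj hadj
          rw [Finset.mem_inter] at he
          have h5 : (eb e).1 + (eb e).2 = (ea e).1 + (ea e).2 + 1 := by
            obtain ⟨x, y, t⟩ := e
            cases t
            · simp [ea, eb]
              ring
            · simp [ea, eb]
              ring
          have hsum : b.1 + b.2 ≤ (L : ℤ) := by
            rcases hends with ⟨h6, h7⟩ | ⟨h6, h7⟩
            · rw [h6, h7] at h5
              omega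
            · rw [h6, h7] at h5
              omega
          have heb : (eb e).1 + (eb e).2 ≤ (L : ℤ) := by
            rcases hends with ⟨h6, h7⟩ | ⟨h6, h7⟩
            · rw [h7]
              exact hsum
            · rw [h7]
              exact h2
          have hmem : e ∈ dsl k L K := by
            have h8 := mem_dsl.1 he.2
            rw [mem_dsl]
            exact ⟨⟨h8.1.1, heb⟩, h8.2.1, h8.2.2⟩
          exact Or.inl ⟨h1.trans (pexit_edge hmem he.1 hends), hsum⟩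
      · exact Or.inr h1
  obtain ⟨p⟩ := h
  exact key u w p (Or.inl ⟨Conn.refl _ _ _, hu⟩)

theorem cr_right (hk : k ≤ L) (K : ℕ) : cr k (L + 1) K ≤ cr k L K := by
  unfold cr
  rw [← Pr_dep (dsl_right k L K) (Cr_dep (Finset.Subset.refl _))]
  refine Pr_mono fun ω _ hω => ?_
  obtain ⟨u, v, h1, h2, h3⟩ := hω
  have hk' : (k : ℤ) ≤ L := Int.ofNat_le.2 hk
  rcases first_line (L := L) (by rw [h1.1]; exact hk') h3 with ⟨_, h4⟩ | ⟨w, h4, h5⟩
  · push_cast at h2
    omega
  · exact ⟨u, w, h1, h4, h5⟩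

/-! ### Width on the left -/

/-- translation -/
theorem cr_shift {k' L' K' : ℕ} (x y : ℤ)
    (hE : ∀ e, e ∈ dsl k L K → FKP.shE x y e ∈ dsl k' L' K')
    (hA : ∀ u : V, u.1 + u.2 = (k : ℤ) → u.1 ≤ u.2 → (u.1 + x) + (u.2 + y) = (k' : ℤ) ∧ u.1 + x ≤ u.2 + y)
    (hB : (L : ℤ) + x + y = L') : cr k L K ≤ cr k' L' K' := by
  have h1 : (dsl k L K).map (FKP.shE x y).toEmbedding ⊆ dsl k' L' K' := by
    intro e he
    rw [Finset.mem_map] at he
    obtain ⟨e', he', rfl⟩ := he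
    exact hE e' he'
  unfold cr
  have h2 := Pr_super h1 (Cr_inc k' L' K')
  rw [Pr_map] at h2
  refine le_trans (Pr_mono fun ω hω hC => ?_) h2
  obtain ⟨u, v, h3, h4, h5⟩ := hC
  have h6 := (conn_map (cp_sh x y) (dsl k L K) ω u v).2 h5
  refine ⟨FKP.shV x y u, FKP.shV x y v, hA u h3.1 h3.2, ?_, h6.mono h1 (Finset.Subset.refl _)⟩
  show (v.1 + x) + (v.2 + y) = (L' : ℤ)
  rw [← hB, ← h4]
  ring

theorem cr_left (k L K : ℕ) : cr k L K ≤ cr (k + 1) (L + 1) (K + 1) := by
  rcases Nat.even_or_odd k with ⟨n, hn⟩ | ⟨n, hn⟩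
  · refine cr_shift 0 1 ?_ ?_ (by push_cast; ring)
    · intro e he
      rw [mem_dsl, abs_le, abs_le] at he
      rw [mem_dsl, abs_le, abs_le]
      obtain ⟨x, y, t⟩ := e
      cases t
      · simp only [ea, eb, FKP.shE, Equiv.coe_fn_mk] at he ⊢
        push_cast
        simp at he ⊢
        omega
      · simp only [ea, eb, FKP.shE, Equiv.coe_fn_mk] at he ⊢
        push_cast
        simp at he ⊢
        omega
    · intro u h1 h2
      push_cast
      omega
  · refine cr_shift 1 0 ?_ ?_ (by push_cast; ring)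
    · intro e he
      rw [mem_dsl, abs_le, abs_le] at he
      rw [mem_dsl, abs_le, abs_le]
      obtain ⟨x, y, t⟩ := e
      cases t
      · simp only [ea, eb, FKP.shE, Equiv.coe_fn_mk] at he ⊢
        push_cast
        simp at he ⊢
        omega
      · simp only [ea, eb, FKP.shE, Equiv.coe_fn_mk] at he ⊢
        push_cast
        simp at he ⊢
        omega
    · intro u h1 h2
      push_cast
      omega

/-! ### The infinite strip -/

theorem cri_right {k L : ℕ} (hk : k ≤ L) : cri k (L + 1) ≤ cri k L :=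
  le_of_tendsto_of_tendsto' (cri_tendsto k (L + 1)) (cri_tendsto k L) fun K => cr_right hk K

theorem cri_left (k L : ℕ) : cri k L ≤ cri (k + 1) (L + 1) :=
  le_of_tendsto_of_tendsto' (cri_tendsto k L) ((cri_tendsto (k + 1) (L + 1)).comp (tendsto_add_atTop_nat 1)) fun K => cr_left k L K

end CD
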