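import Pool.Agent.Lib.MP_216314_pr.Ca.CaC
import Pool.Agent.Lib.MP_216314_pr.X.XBr

/-!
# The fixed vector of the half strip with one dummy pair
-/

set_option autoImplicit false

noncomputable section

namespace CD

open Finset

/-- all arguments one -/
def one : ℕ → ℂ := fun _ => 1

theorem nz_one (L : ℕ) : PX.NZ L one := fun _ _ => one_ne_zero

/-- the arguments `-ω, 1, ..., 1, b, 1, ...` with `b` at the position `m` -/
def qt (m : ℕ) (b : ℂ) : ℕ → ℂ := fun k => if k = 0 then -PX.om else if k = m then b else 1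

theorem nz_qt (L m : ℕ) {b : ℂ} (hb : b ≠ 0) : PX.NZ L (qt m b) := by
  intro k _
  unfold qt
  split_ifs
  · exact neg_ne_zero.2 PX.om_ne_zero
  · exact hb
  · exact one_ne_zero

theorem sw_qt (m : ℕ) (hm : 1 ≤ m) (b : ℂ) : PX.sw m (qt (m + 1) b) = qt m b := by
  funext k
  by_cases h1 : k = m
  · rw [h1, PX.sw_left]
    unfold qt
    rw [if_neg (by omega), if_pos rfl, if_neg (by omega), if_pos rfl]
  · by_cases h2 : k = m + 1
    · rw [h2, PX.sw_right]
      unfold qt
      rw [if_neg (by omega), if_neg (by omega), if_neg (by omega), if_neg (by omega)]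
    · rw [PX.sw_of_ne _ _ h1 h2]
      unfold qt
      rw [if_neg h2, if_neg h1]

theorem sw_qt' (m : ℕ) (hm : 1 ≤ m) (b : ℂ) : PX.sw m (qt m b) = qt (m + 1) b := by
  rw [← sw_qt m hm b, PX.sw_sw]

theorem iv_qt (m : ℕ) (hm : 1 ≤ m) (b : ℂ) : PX.iv m (qt m b) = qt m b⁻¹ := by
  funext k
  by_cases h1 : k = m
  · rw [h1, PX.iv_self]
    unfold qt
    rw [if_neg (by omega), if_pos rfl, if_neg (by omega), if_pos rfl]
  · rw [PX.iv_of_ne h1]
    unfold qt
    rw [if_neg h1, if_neg h1]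

theorem qt_ip : qt 1 (-PX.om ^ 2) = PX.ip 0 (-PX.om) one := by
  funext k
  unfold qt PX.ip one
  rw [if_neg (Nat.not_lt_zero k), zero_add]
  split_ifs
  · rfl
  · ring
  · rfl

theorem om2_ne : -PX.om ^ 2 ≠ 0 := neg_ne_zero.mpr (pow_ne_zero 2 PX.om_ne_zero)

theorem om_ne : -PX.om ≠ 0 := neg_ne_zero.mpr PX.om_ne_zero

theorem om2_inv : (-PX.om ^ 2)⁻¹ = -PX.om := by
  apply inv_eq_of_mul_eq_one_right
  linear_combination PX.om_cube

theorem iv_sw : PX.iv 0 (qt 1 (-PX.om)) = PX.sw 0 (PX.ip 0 (-PX.om) one) := by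
  funext k
  by_cases h0 : k = 0
  · rw [h0, PX.iv_self, PX.sw_left, PX.ip_right]
    unfold qt
    rw [if_pos rfl, PX.neg_om_inv]
    ring
  · rw [PX.iv_of_ne h0]
    by_cases h1 : k = 0 + 1
    · rw [h1, PX.sw_right, PX.ip_left]
      unfold qt
      rw [if_neg (by omega), if_pos rfl]
    · rw [PX.sw_of_ne _ _ h0 h1]
      unfold qt PX.ip one
      rw [if_neg h0, if_neg (by omega), if_neg (by omega), if_neg h0, if_neg h1]

section

variable {m : ℕ}

/-- the vector at the arguments `y` -/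
def Gy (m : ℕ) (y : ℕ → ℂ) : QS.Vc := PX.tr (PX.gv (2 * m + 3) y)

theorem hs_Gy {i : ℕ} (hi : i + 1 < 2 * m + 3) {y : ℕ → ℂ} (h0 : y (i + 1) ≠ 0) (h : y i = -PX.om ^ 2 * y (i + 1)) :
    FKH.hs (i + 1) (Gy m y) = Gy m (PX.sw i y) := by
  unfold Gy
  rw [PX.gv_iso hi h0 h, PX.tr_RR]
  rfl

theorem up_Gy (l : ℕ) (hl : l + 1 ≤ 2 * m + 2) :
    QS.opH ((List.range l).map (fun k => k + 2)) (Gy m (qt 1 (-PX.om ^ 2))) = Gy m (qt (l + 1) (-PX.om ^ 2)) := by
  induction l with
  | zero => rfl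
  | succ l ih =>
    rw [List.range_succ, List.map_append, QS.opH_append, ih (by omega)]
    show FKH.hs (l + 2) (Gy m (qt (l + 1) (-PX.om ^ 2))) = _
    rw [hs_Gy (i := l + 1) (by omega), sw_qt' _ (by omega)]
    · unfold qt
      rw [if_neg (by omega), if_neg (by omega)]
      exact one_ne_zero
    · unfold qt
      rw [if_neg (by omega), if_pos rfl, if_neg (by omega), if_neg (by omega), mul_one]

theorem dn_Gy (l : ℕ) (hl : l + 1 ≤ 2 * m + 2) :
    QS.opH ((List.range l).map (fun k => l + 1 - k)) (Gy m (qt (l + 1) (-PX.om))) = Gy m (qt 1 (-PX.om)) := by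
  induction l with
  | zero => rfl
  | succ l ih =>
    rw [List.range_succ_eq_map, List.map_cons, List.map_map]
    have h1 : ((fun k => l + 1 + 1 - k) ∘ Nat.succ) = (fun k => l + 1 - k) := by
      funext k
      simp only [Function.comp_apply]
      omega
    rw [h1]
    show QS.opH ((List.range l).map (fun k => l + 1 - k)) (FKH.hs (l + 2) (Gy m (qt (l + 2) (-PX.om)))) = _
    rw [hs_Gy (i := l + 1) (by omega), sw_qt _ (by omega)]
    · exact ih (by omega)
    · unfold qt
      rw [if_neg (by omega), if_pos rfl]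
      exact om_ne
    · unfold qt
      rw [if_neg (by omega), if_neg (by omega), if_neg (by omega), if_pos rfl]
      linear_combination (-1 : ℂ) * PX.om_cube

/-- **the period fixes the vector** -/
theorem AF_Gy (m : ℕ) : AF (m + 1) (Gy m (qt 1 (-PX.om ^ 2))) = Gy m (qt 1 (-PX.om ^ 2)) := by
  rw [AF_mid (by omega)]
  have e1 : QS.ee 1 (Gy m (qt 1 (-PX.om ^ 2))) = Gy m (qt 1 (-PX.om ^ 2)) := by
    rw [qt_ip]
    unfold Gy
    have h := PX.gv_cup (L := 2 * m + 1) (i := 0) (Nat.zero_le _) om_ne one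
    have h2 := PX.tr_ee 0 (PX.gv (2 * m + 3) (PX.ip 0 (-PX.om) one))
    rw [h] at h2
    exact h2.symm
  have e2 : QS.opH (mid (m + 1)) (Gy m (qt 1 (-PX.om ^ 2))) = Gy m (qt 1 (-PX.om)) := by
    unfold mid
    have h3 : 2 * (m + 1) - 1 = 2 * m + 1 := by omega
    rw [h3, QS.opH_append, up_Gy _ (by omega)]
    have h4 : Gy m (qt (2 * m + 1 + 1) (-PX.om ^ 2)) = Gy m (qt (2 * m + 1 + 1) (-PX.om)) := by
      unfold Gy
      have h5 := PX.refl_right (L := 2 * m + 3) (by omega) (nz_qt (2 * m + 3) (2 * m + 2) om2_ne)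
      rw [show 2 * m + 3 - 1 = 2 * m + 2 from rfl, iv_qt _ (by omega), om2_inv] at h5
      rw [show 2 * m + 1 + 1 = 2 * m + 2 from rfl, h5]
    rw [h4]
    exact dn_Gy (2 * m + 1) (by omega)
  have e3 : QS.ee 1 (Gy m (qt 1 (-PX.om))) = Gy m (qt 1 (-PX.om ^ 2)) := by
    have h5 := PX.refl_left (L := 2 * m + 3) (by omega) (nz_qt (2 * m + 3) 1 om_ne)
    rw [iv_sw] at h5
    rw [qt_ip]
    unfold Gy
    rw [← h5]
    have h := PX.gv_cup' (L := 2 * m + 1) (i := 0) (Nat.zero_le _) om_ne one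
    have h2 := PX.tr_ee 0 (PX.gv (2 * m + 3) (PX.sw 0 (PX.ip 0 (-PX.om) one)))
    rw [h] at h2
    exact h2.symm
  rw [e1, e2, e3]

/-- the ground state with one dummy pair -/
def Ph (m : ℕ) : QS.Vc := PX.tr (PX.Ins 0 (PX.gv (2 * m + 1) one))

/-- the factor -/
def Kc (m : ℕ) : ℂ := PX.Kf (2 * m + 1) (-PX.om) one

theorem Kc_ne (m : ℕ) : Kc m ≠ 0 := by
  unfold Kc PX.Kf
  refine prod_ne_zero_iff.2 fun k _ => ?_
  have h1 : PX.om ^ 2 * -PX.om = -1 := by linear_combination -PX.om_cube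
  rw [h1]
  unfold PX.XX one
  norm_num

theorem Gy_Ph (m : ℕ) : Gy m (qt 1 (-PX.om ^ 2)) = fun D => Kc m * Ph m D := by
  rw [qt_ip]
  unfold Gy Kc Ph
  have h := PX.fusion (2 * m + 1) 0 (Nat.zero_le _) om_ne (nz_one (2 * m + 1))
  funext D
  unfold PX.tr
  have h2 := congrFun h (PX.shl D)
  rw [Pi.smul_apply, smul_eq_mul] at h2
  exact h2

theorem AF_smul {n : ℕ} (hn : 1 ≤ n) (c : ℂ) (v : QS.Vc) : AF n (fun D => c * v D) = fun D => c * AF n v D := by
  rw [AF_mid hn, AF_mid hn, QS.ee_smul, QS.opH_smul, QS.ee_smul]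

theorem AF_Ph (m : ℕ) : AF (m + 1) (Ph m) = Ph m := by
  have h := AF_Gy m
  rw [Gy_Ph, AF_smul (by omega)] at h
  funext D
  have h2 := congrFun h D
  exact mul_left_cancel₀ (Kc_ne m) h2

theorem shl_card {n : ℕ} {D : Finset ℕ} (hD : D ⊆ Icc 1 n) : (PX.shl D).card = D.card := by
  have h1 : D = (PX.shl D).map ⟨fun k => k + 1, Nat.succ_injective⟩ := by
    ext k
    rw [Finset.mem_map]
    constructor
    · intro hk
      have h2 := Finset.mem_Icc.1 (hD hk)
      exact ⟨k - 1, PX.mem_shl.2 (by rwa [Nat.sub_add_cancel h2.1]), Nat.sub_add_cancel h2.1⟩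
    · rintro ⟨a, ha, h⟩
      have h2 := PX.mem_shl.1 ha
      have h3 : a + 1 = k := h
      rwa [← h3]
  conv_rhs => rw [h1, Finset.card_map]

theorem Ph_zero (m : ℕ) (D : Finset ℕ) (hD : D ⊆ Icc 1 (2 * (m + 1) + 1)) (h : D.card ≠ m + 1) : Ph m D = 0 := by
  have h1 := congrFun (Gy_Ph m) D
  have h2 : Gy m (qt 1 (-PX.om ^ 2)) D = 0 := by
    refine PX.gv_wt (2 * m + 3) _ _ fun h3 => ?_
    have h4 := (PX.mem_cfn.1 h3).2
    rw [shl_card hD] at h4
    omega
  rw [h2] at h1
  exact (mul_eq_zero.1 h1.symm).resolve_left (Kc_ne m)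

/-- the norm -/
def Nm (L : ℕ) : ℂ := ∑ a ∈ PX.cfn L (L / 2), PX.gv L one a * PX.gv L one a

theorem ip_tr (m : ℕ) (v w : PX.Vec) : QS.ip (m + 1) (PX.tr (PX.Ins 0 v)) (PX.tr (PX.Ins 0 w)) =
    -PX.om ^ 2 * ∑ a ∈ PX.cfn (2 * m + 1) m, v a * w a := by
  have h1 : QS.ip (m + 1) (PX.tr (PX.Ins 0 v)) (PX.tr (PX.Ins 0 w)) =
      PX.BF (2 * m + 3) (m + 1) (fun _ => 1) (PX.Ins 0 v) (PX.Ins 0 w) := by
    unfold QS.ip PX.BF PX.tr
    rw [PX.sum_sec (m + 1) (fun a => PX.Ins 0 v a * PX.Ins 0 w a)]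
    exact Finset.sum_congr rfl (fun a _ => by ring)
  rw [h1, PX.BF_Ins (L := 2 * m + 1) (Nat.zero_le _) (fun _ => 1) (fun _ => 1) (fun _ => rfl) (fun _ => rfl), PX.Con_Ins_self]
  unfold PX.BF
  congr 1
  exact Finset.sum_congr rfl (fun a _ => by ring)

theorem ip_Ph (m : ℕ) : QS.ip (m + 1) (Ph m) (Ph m) = -PX.om ^ 2 * Nm (2 * m + 1) := by
  unfold Ph Nm
  rw [ip_tr]
  have e : (2 * m + 1) / 2 = m := by omega
  rw [e]

theorem GS_Ph (m : ℕ) (h : Nm (2 * m + 1) ≠ 0) : GS (m + 1) (Ph m) := by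
  refine ⟨fun D _ => by rw [AF_Ph], Ph_zero m, ?_⟩
  by_contra hc
  push Not at hc
  have h1 := ip_Ph m
  have h2 : QS.ip (m + 1) (Ph m) (Ph m) = 0 := by
    unfold QS.ip
    exact sum_eq_zero fun D hD => by rw [hc D hD, mul_zero]
  rw [h2] at h1
  exact h ((mul_eq_zero.1 h1.symm).resolve_left om2_ne)

end

/-! ### The pairing -/

/-- the pairing of the homogeneous vectors, the tip is in the configuration -/
def G0 (k m : ℕ) : ℂ := ∑ s ∈ PX.cfn k (k / 2), ∑ t ∈ PX.cfn m (m / 2),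
  PX.gv (k + m + 1) one (s ∪ insert k (t.map (addRightEmbedding (k + 1)))) * PX.gv k one s * PX.gv m one t

/-- the right factor in the variables of the upper strip -/
def Hr (p q : ℕ) : PX.Vec := fun E => if 2 * p + 1 ∈ E then
  PX.gv (2 * p + 1) one (E ∩ range (2 * p + 1)) * PX.gv (2 * q + 1) one (E.preimage (fun x => x + (2 * p + 2)) (fun _ _ _ _ h => Nat.add_right_cancel h)) else 0

theorem prodC_Hr (p q : ℕ) : prodC (p + 1) (Ph p) (Ph q) = PX.tr (PX.Ins 0 (fun E => -PX.om ^ 2 * Hr p q E)) := by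
  funext D
  unfold prodC Ph PX.tr Hr
  rw [PX.Ins_apply, PX.Ins_apply, PX.Ins_apply]
  have m1 : (0 ∈ PX.shl (dL (p + 1) D)) = (0 ∈ PX.shl D) := by
    rw [eq_iff_iff, PX.mem_shl, PX.mem_shl, mem_dL]
    exact ⟨fun h => h.1, fun h => ⟨h, by omega⟩⟩
  have m2 : (0 + 1 ∈ PX.shl (dL (p + 1) D)) = (0 + 1 ∈ PX.shl D) := by
    rw [eq_iff_iff, PX.mem_shl, PX.mem_shl, mem_dL]
    exact ⟨fun h => h.1, fun h => ⟨h, by omega⟩⟩
  have m3 : (0 ∈ PX.shl (dR (p + 1) D)) = False := by
    rw [eq_iff_iff, PX.mem_shl, mem_dR]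
    constructor
    · intro h
      omega
    · exact False.elim
  have m4 : (0 + 1 ∈ PX.shl (dR (p + 1) D)) = True := by
    rw [eq_iff_iff, PX.mem_shl, mem_dR]
    exact ⟨fun _ => trivial, fun _ => Or.inl rfl⟩
  have m5 : (2 * (p + 1) + 2 ∈ D) = (2 * p + 1 ∈ PX.rm 0 (PX.shl D)) := by
    rw [eq_iff_iff, PX.mem_rm, PX.mem_shl]
    have e : PX.up 0 (2 * p + 1) + 1 = 2 * (p + 1) + 2 := by
      unfold PX.up
      rw [if_neg (Nat.not_lt_zero _)]
      ring
    rw [e]
  have m6 : PX.rm 0 (PX.shl (dL (p + 1) D)) = PX.rm 0 (PX.shl D) ∩ range (2 * p + 1) := by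
    ext x
    have e : PX.up 0 x = x + 2 := by
      unfold PX.up
      rw [if_neg (Nat.not_lt_zero _)]
    rw [mem_inter, PX.mem_rm, PX.mem_rm, e, PX.mem_shl, PX.mem_shl, mem_dL, mem_range]
    constructor
    · rintro ⟨h1, h2⟩
      exact ⟨h1, by omega⟩
    · rintro ⟨h1, h2⟩
      exact ⟨h1, by omega⟩
  have m7 : PX.rm 0 (PX.shl (dR (p + 1) D)) =
      (PX.rm 0 (PX.shl D)).preimage (fun x => x + (2 * p + 2)) (fun _ _ _ _ h => Nat.add_right_cancel h) := by
    ext x
    have e : ∀ x, PX.up 0 x = x + 2 := by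
      intro x
      unfold PX.up
      rw [if_neg (Nat.not_lt_zero _)]
    rw [mem_preimage, PX.mem_rm, PX.mem_rm, e, e, PX.mem_shl, PX.mem_shl, mem_dR]
    have e2 : x + (2 * p + 2) + 2 + 1 = x + 2 + 1 + 2 * (p + 1) := by ring
    rw [e2]
    constructor
    · rintro (h | h)
      · omega
      · exact h.1
    · intro h
      exact Or.inr ⟨h, by omega⟩
  rw [m6, m7]
  simp only [m1, m2, m3, m4, m5]
  by_cases h : 2 * p + 1 ∈ PX.rm 0 (PX.shl D)
  · rw [if_pos h, if_pos h]
    have e : PX.cc False True = -PX.om ^ 2 := by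
      unfold PX.cc
      rw [if_neg (fun h => h), if_pos trivial]
    rw [e]
    ring
  · rw [if_neg h, if_neg h]
    ring

theorem sum_Hr (p q : ℕ) : ∑ E ∈ PX.cfn (2 * (p + q + 1) + 1) (p + q + 1), PX.gv (2 * (p + q + 1) + 1) one E * Hr p q E =
    G0 (2 * p + 1) (2 * q + 1) := by
  unfold G0
  have hp : (2 * p + 1) / 2 = p := by omega
  have hq : (2 * q + 1) / 2 = q := by omega
  have hL : 2 * p + 1 + (2 * q + 1) + 1 = 2 * (p + q + 1) + 1 := by ring
  rw [hp, hq, hL, ← sum_product']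
  symm
  refine sum_bij_ne_zero (fun st _ _ => st.1 ∪ insert (2 * p + 1) (st.2.map (addRightEmbedding (2 * p + 1 + 1)))) ?_ ?_ ?_ ?_
  · intro st hst _
    rw [mem_product, PX.mem_cfn, PX.mem_cfn] at hst
    obtain ⟨⟨h1, h2⟩, h3, h4⟩ := hst
    rw [PX.mem_cfn]
    constructor
    · intro x hx
      rw [mem_union, mem_insert, mem_map] at hx
      rw [mem_range]
      rcases hx with hx | hx | ⟨y, hy, hx⟩
      · have := mem_range.1 (h1 hx)
        omega
      · omega
      · have := mem_range.1 (h3 hy)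
        have h5 : y + (2 * p + 1 + 1) = x := hx
        omega
    · rw [card_union_of_disjoint, card_insert_of_notMem, card_map, h2, h4]
      · omega
      · rw [mem_map]
        rintro ⟨y, _, hx⟩
        have h5 : y + (2 * p + 1 + 1) = 2 * p + 1 := hx
        omega
      · rw [disjoint_left]
        intro x hx hx'
        have := mem_range.1 (h1 hx)
        rw [mem_insert, mem_map] at hx'
        rcases hx' with hx' | ⟨y, _, hx'⟩
        · omega
        · have h5 : y + (2 * p + 1 + 1) = x := hx'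
          omega
  · intro st hst _ st' hst' _ he
    rw [mem_product, PX.mem_cfn, PX.mem_cfn] at hst hst'
    have key : ∀ (st : Finset ℕ × Finset ℕ), st.1 ⊆ range (2 * p + 1) → ∀ x,
        (x ∈ st.1 ↔ x < 2 * p + 1 ∧ x ∈ st.1 ∪ insert (2 * p + 1) (st.2.map (addRightEmbedding (2 * p + 1 + 1)))) ∧
        (x ∈ st.2 ↔ x + (2 * p + 1 + 1) ∈ st.1 ∪ insert (2 * p + 1) (st.2.map (addRightEmbedding (2 * p + 1 + 1)))) := by
      intro st h1 x
      constructor
      · constructor
        · intro hx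
          exact ⟨mem_range.1 (h1 hx), mem_union_left _ hx⟩
        · rintro ⟨hx, hx'⟩
          rw [mem_union, mem_insert, mem_map] at hx'
          rcases hx' with hx' | hx' | ⟨y, _, hx'⟩
          · exact hx'
          · omega
          · have h5 : y + (2 * p + 1 + 1) = x := hx'
            omega
      · constructor
        · intro hx
          refine mem_union_right _ (mem_insert_of_mem (mem_map.2 ⟨x, hx, rfl⟩))
        · intro hx
          rw [mem_union, mem_insert, mem_map] at hx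
          rcases hx with hx | hx | ⟨y, hy, hx⟩
          · have := mem_range.1 (h1 hx)
            omega
          · omega
          · have h5 : y + (2 * p + 1 + 1) = x + (2 * p + 1 + 1) := hx
            have h6 : y = x := by omega
            rwa [← h6]
    refine Prod.ext ?_ ?_
    · ext x
      rw [(key st hst.1.1 x).1, (key st' hst'.1.1 x).1, he]
    · ext x
      rw [(key st hst.1.1 x).2, (key st' hst'.1.1 x).2, he]
  · intro E hE hne
    have hmem : 2 * p + 1 ∈ E := by
      by_contra hc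
      refine hne ?_
      unfold Hr
      rw [if_neg hc, mul_zero]
    have hE2 := PX.mem_cfn.1 hE
    have hval : PX.gv (2 * (p + q + 1) + 1) one E * Hr p q E = PX.gv (2 * (p + q + 1) + 1) one E *
        (PX.gv (2 * p + 1) one (E ∩ range (2 * p + 1)) *
          PX.gv (2 * q + 1) one (E.preimage (fun x => x + (2 * p + 2)) (fun _ _ _ _ h => Nat.add_right_cancel h))) := by
      unfold Hr
      rw [if_pos hmem]
    rw [hval] at hne
    have n1 : PX.gv (2 * p + 1) one (E ∩ range (2 * p + 1)) ≠ 0 := fun h => hne (by rw [h, zero_mul, mul_zero])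
    have n2 : PX.gv (2 * q + 1) one (E.preimage (fun x => x + (2 * p + 2)) (fun _ _ _ _ h => Nat.add_right_cancel h)) ≠ 0 :=
      fun h => hne (by rw [h, mul_zero, mul_zero])
    have c1 : E ∩ range (2 * p + 1) ∈ PX.cfn (2 * p + 1) p := by
      by_contra hc
      refine n1 (PX.gv_wt (2 * p + 1) one _ ?_)
      rw [hp]
      exact hc
    have c2 : E.preimage (fun x => x + (2 * p + 2)) (fun _ _ _ _ h => Nat.add_right_cancel h) ∈ PX.cfn (2 * q + 1) q := by
      by_contra hc
      refine n2 (PX.gv_wt (2 * q + 1) one _ ?_)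
      rw [hq]
      exact hc
    have hEeq : (E ∩ range (2 * p + 1)) ∪ insert (2 * p + 1)
        ((E.preimage (fun x => x + (2 * p + 2)) (fun _ _ _ _ h => Nat.add_right_cancel h)).map (addRightEmbedding (2 * p + 1 + 1))) = E := by
      ext x
      rw [mem_union, mem_inter, mem_range, mem_insert, mem_map]
      constructor
      · rintro (hx | hx | ⟨y, hy, hx⟩)
        · exact hx.1
        · rw [hx]
          exact hmem
        · have h5 : y + (2 * p + 1 + 1) = x := hx
          rw [mem_preimage] at hy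
          rw [← h5]
          exact hy
      · intro hx
        by_cases h1 : x < 2 * p + 1
        · exact Or.inl ⟨hx, h1⟩
        · by_cases h2 : x = 2 * p + 1
          · exact Or.inr (Or.inl h2)
          · refine Or.inr (Or.inr ⟨x - (2 * p + 2), ?_, ?_⟩)
            · rw [mem_preimage]
              have e : x - (2 * p + 2) + (2 * p + 2) = x := by omega
              rw [e]
              exact hx
            · show x - (2 * p + 2) + (2 * p + 1 + 1) = x
              omega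
    refine ⟨(E ∩ range (2 * p + 1), E.preimage (fun x => x + (2 * p + 2)) (fun _ _ _ _ h => Nat.add_right_cancel h)),
      mem_product.2 ⟨c1, c2⟩, ?_, hEeq⟩
    show PX.gv (2 * (p + q + 1) + 1) one ((E ∩ range (2 * p + 1)) ∪ insert (2 * p + 1)
        ((E.preimage (fun x => x + (2 * p + 2)) (fun _ _ _ _ h => Nat.add_right_cancel h)).map (addRightEmbedding (2 * p + 1 + 1)))) *
      PX.gv (2 * p + 1) one (E ∩ range (2 * p + 1)) *
      PX.gv (2 * q + 1) one (E.preimage (fun x => x + (2 * p + 2)) (fun _ _ _ _ h => Nat.add_right_cancel h)) ≠ 0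
    rw [hEeq, mul_assoc]
    exact hne
  · intro st hst _
    rw [mem_product, PX.mem_cfn, PX.mem_cfn] at hst
    obtain ⟨⟨h1, h2⟩, h3, h4⟩ := hst
    have i1 : (st.1 ∪ insert (2 * p + 1) (st.2.map (addRightEmbedding (2 * p + 1 + 1)))) ∩ range (2 * p + 1) = st.1 := by
      ext x
      rw [mem_inter, mem_union, mem_insert, mem_map, mem_range]
      constructor
      · rintro ⟨hx | hx | ⟨y, _, hx⟩, hx'⟩
        · exact hx
        · omega
        · have h5 : y + (2 * p + 1 + 1) = x := hx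
          omega
      · intro hx
        exact ⟨Or.inl hx, mem_range.1 (h1 hx)⟩
    have i2 : (st.1 ∪ insert (2 * p + 1) (st.2.map (addRightEmbedding (2 * p + 1 + 1)))).preimage (fun x => x + (2 * p + 2))
        (fun _ _ _ _ h => Nat.add_right_cancel h) = st.2 := by
      ext x
      rw [mem_preimage, mem_union, mem_insert, mem_map]
      constructor
      · rintro (hx | hx | ⟨y, hy, hx⟩)
        · have := mem_range.1 (h1 hx)
          omega
        · omega
        · have h5 : y + (2 * p + 1 + 1) = x + (2 * p + 2) := hx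
          have h6 : y = x := by omega
          rwa [← h6]
      · intro hx
        exact Or.inr (Or.inr ⟨x, hx, rfl⟩)
    have i3 : 2 * p + 1 ∈ st.1 ∪ insert (2 * p + 1) (st.2.map (addRightEmbedding (2 * p + 1 + 1))) :=
      mem_union_right _ (mem_insert_self _ _)
    unfold Hr
    rw [if_pos i3, i1, i2]
    ring

theorem pC_G0 (p q : ℕ) : pC (p + 1) (q + 1) (Ph (p + q + 1)) (Ph p) (Ph q) = (PX.om ^ 2) ^ 2 * G0 (2 * p + 1) (2 * q + 1) := by
  unfold pC
  rw [prodC_Hr]
  have e : p + 1 + (q + 1) = (p + q + 1) + 1 := by ring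
  rw [e]
  unfold Ph
  rw [ip_tr, ← sum_Hr, mul_sum, mul_sum]
  refine sum_congr rfl fun E _ => ?_
  ring

end CD
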