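import Pool.Agent.Lib.MP_216314_pr.Ca.CaMean
import Pool.Agent.Lib.MP_216314_pr.Ca.CaEvt

/-!
# The crossing probability as a pairing of iterates
-/

set_option autoImplicit false

noncomputable section

namespace CD

open Finset FKI FKP FKH QS

/-! ### Linear algebra -/

theorem ip_comm' (n : ℕ) (v w : Vc) : ip n v w = ip n w v := by
  unfold ip
  exact sum_congr rfl fun D _ => by ring

theorem ip_hs {n i : ℕ} (h1 : 1 ≤ i) (h2 : i ≤ 2 * n) (v w : Vc) : ip n v (hs i w) = ip n (hs i v) w := by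
  have h := ip_symm h1 h2 v w
  unfold ip hs at *
  have e1 : ∀ D, v D * ((w D + ee i w D) / 2) = (v D * w D + v D * ee i w D) / 2 := fun D => by ring
  have e2 : ∀ D, (v D + ee i v D) / 2 * w D = (v D * w D + ee i v D * w D) / 2 := fun D => by ring
  simp only [e1, e2]
  rw [← sum_div, ← sum_div, sum_add_distrib, sum_add_distrib, h]

theorem ip_hf {n i : ℕ} (h1 : 1 ≤ i) (h2 : i ≤ 2 * n) (v w : Vc) : ip n v (hf i w) = ip n (hf i v) w := by
  unfold hf
  split_ifs with h
  · rw [← h]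
    exact ip_symm h1 h2 v w
  · exact ip_hs h1 h2 v w

theorem opF_append (l l' : List ℕ) (v : Vc) : opF (l ++ l') v = opF l' (opF l v) := by
  induction l generalizing v with
  | nil => rfl
  | cons i l ih => exact ih _

theorem ip_opF {n : ℕ} (l : List ℕ) (hl : ∀ i ∈ l, 1 ≤ i ∧ i ≤ 2 * n) (v w : Vc) :
    ip n v (opF l w) = ip n (opF l.reverse v) w := by
  induction l generalizing v w with
  | nil => rfl
  | cons i l ih =>
    have hi := hl i (List.mem_cons_self)
    rw [List.reverse_cons, opF_append]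
    show ip n v (opF l (hf i w)) = ip n (hf i (opF l.reverse v)) w
    rw [ih (fun j hj => hl j (List.mem_cons_of_mem _ hj)), ip_hf hi.1 hi.2]

theorem per_rev (n : ℕ) : (per n).reverse = per n := by
  unfold per
  rw [List.reverse_append]
  have e1 : ((List.range (2 * n)).map (fun k => k + 1)).reverse =
      (List.range (2 * n)).map (fun k => 2 * n - k) := by
    apply List.ext_getElem
    · simp
    · intro i h1 h2
      have hi : i < 2 * n := by
        rw [List.length_map, List.length_range] at h2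
        exact h2
      simp only [List.getElem_reverse, List.getElem_map, List.getElem_range, List.length_map,
        List.length_range]
      omega
  have e2 : ((List.range (2 * n)).map (fun k => 2 * n - k)).reverse =
      (List.range (2 * n)).map (fun k => k + 1) := by
    rw [← e1, List.reverse_reverse]
  rw [e1, e2]

theorem ip_AF (n : ℕ) (v w : Vc) : ip n v (AF n w) = ip n (AF n v) w := by
  unfold AF
  rw [ip_opF (per n) (fun i hi => per_mem hi), per_rev]

theorem ip_AF_iter (n m : ℕ) (v w : Vc) : ip n v ((AF n)^[m] w) = ip n ((AF n)^[m] v) w := by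
  induction m generalizing v w with
  | zero => rfl
  | succ m ih => rw [Function.iterate_succ_apply', ip_AF, ih, Function.iterate_succ_apply]

theorem ip_mn (n : ℕ) (v : Vc) (S : Finset (ℕ × ℕ)) (F : Finset (ℕ × ℕ) → Vc) :
    ip n v (mn S F) = (∑ c ∈ S.powerset, ip n v (F c)) / 2 ^ S.card := by
  unfold ip mn
  rw [sum_comm, sum_div]
  refine sum_congr rfl fun D _ => ?_
  rw [← mul_sum, mul_div_assoc]

/-! ### Sums over sets of tiles -/

theorem sum_pow_union {α : Type*} [DecidableEq α] (S T : Finset α) (h : Disjoint S T) (f : Finset α → ℂ) :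
    ∑ c ∈ (S ∪ T).powerset, f c = ∑ c1 ∈ S.powerset, ∑ c2 ∈ T.powerset, f (c1 ∪ c2) := by
  induction T using Finset.induction_on generalizing f with
  | empty =>
    rw [union_empty]
    refine sum_congr rfl fun c _ => ?_
    rw [powerset_empty, sum_singleton, union_empty]
  | insert t T ht ih =>
    have h1 : Disjoint S T := disjoint_of_subset_right (subset_insert _ _) h
    have h2 : t ∉ S := fun h3 => (disjoint_left.1 h) h3 (mem_insert_self _ _)
    have h3 : t ∉ S ∪ T := by
      rw [mem_union]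
      rintro (h4 | h4)
      · exact h2 h4
      · exact ht h4
    rw [union_insert, sum_powerset_insert h3, ih h1, ih h1 (fun c => f (insert t c)), ← sum_add_distrib]
    refine sum_congr rfl fun c1 _ => ?_
    rw [sum_powerset_insert ht]
    congr 1
    refine sum_congr rfl fun c2 _ => ?_
    rw [union_insert]

section

variable {a b N : ℕ}

theorem TT_split (ha : 1 ≤ a) (hb : 1 ≤ b) (N : ℕ) : TT a b N = (TH a N ∪ (TH b N).map (shE (2 * a))) ∪ TU a b N := by
  ext t
  rw [mem_TT, mem_union, mem_union, mem_TH, mem_map]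
  unfold TU
  rw [mem_product, mem_Icc, mem_Ico]
  constructor
  · rintro ⟨⟨h1, h2⟩, h3⟩
    by_cases h4 : 2 * N ≤ t.2
    · exact Or.inr ⟨h1, h4, h2⟩
    · left
      by_cases h5 : t.1 ≤ 2 * a
      · exact Or.inl ⟨⟨h1.1, h5⟩, by omega⟩
      · right
        refine ⟨(t.1 - 2 * a, t.2), mem_TH.2 ⟨⟨?_, ?_⟩, ?_⟩, ?_⟩
        · show 2 ≤ t.1 - 2 * a
          omega
        · show t.1 - 2 * a ≤ 2 * b
          omega
        · show t.2 < 2 * N
          omega
        · exact Prod.ext (show t.1 - 2 * a + 2 * a = t.1 by omega) rfl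
  · rintro ((h | ⟨t', h, rfl⟩) | h)
    · omega
    · have h1 := mem_TH.1 h
      show ((2 ≤ t'.1 + 2 * a ∧ t'.1 + 2 * a ≤ 2 * (a + b)) ∧ t'.2 < 4 * N + 2) ∧ ¬ (t'.1 + 2 * a = 2 * a + 1 ∧ t'.2 < 2 * N)
      omega
    · omega

theorem dis1 (a b N : ℕ) : Disjoint (TH a N) ((TH b N).map (shE (2 * a))) := by
  rw [disjoint_left]
  intro t h1 h2
  rw [mem_map] at h2
  obtain ⟨t', h3, rfl⟩ := h2
  have h4 := mem_TH.1 h1
  have h5 := mem_TH.1 h3
  have h6 : (shE (2 * a) t').1 = t'.1 + 2 * a := rfl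
  rw [h6] at h4
  omega

theorem dis2 (a b N : ℕ) : Disjoint (TH a N ∪ (TH b N).map (shE (2 * a))) (TU a b N) := by
  rw [disjoint_left]
  intro t h1 h2
  unfold TU at h2
  rw [mem_product, mem_Ico] at h2
  rw [mem_union, mem_map] at h1
  rcases h1 with h1 | ⟨t', h3, rfl⟩
  · have := mem_TH.1 h1
    omega
  · have h4 := mem_TH.1 h3
    have h5 : (shE (2 * a) t').2 = t'.2 := rfl
    rw [h5] at h2
    omega

theorem TT_card (ha : 1 ≤ a) (hb : 1 ≤ b) (N : ℕ) : (TT a b N).card = ((TH a N).card + (TH b N).card) + (TU a b N).card := by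
  rw [TT_split ha hb, card_union_of_disjoint (dis2 a b N), card_union_of_disjoint (dis1 a b N), card_map]

theorem sum_TT (ha : 1 ≤ a) (hb : 1 ≤ b) (N : ℕ) (f : Finset (ℕ × ℕ) → ℂ) :
    ∑ c ∈ (TT a b N).powerset, f c =
      ∑ cL ∈ (TH a N).powerset, ∑ cR ∈ (TH b N).powerset, ∑ cu ∈ (TU a b N).powerset, f (clo a cL cR ∪ cu) := by
  rw [TT_split ha hb, sum_pow_union _ _ (dis2 a b N), sum_pow_union _ _ (dis1 a b N)]
  refine sum_congr rfl fun cL _ => ?_
  refine (sum_bij (fun cR _ => cR.map (shE (2 * a))) ?_ ?_ ?_ ?_).symm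
  · intro cR hR
    rw [mem_powerset] at hR ⊢
    exact map_subset_map.2 hR
  · intro cR _ cR' _ h
    exact map_injective _ h
  · intro c hc
    rw [mem_powerset] at hc
    obtain ⟨cR, hR, rfl⟩ := subset_map_iff.1 hc
    exact ⟨cR, mem_powerset.2 hR, rfl⟩
  · intro cR _
    rfl

/-- the involution at the top -/
def top (a b N : ℕ) (cL cR cu : Finset (ℕ × ℕ)) : ℕ → ℕ :=
  sr (a + b) cu (glue a b (st a cL (2 * N * (2 * a))) (st b cR (2 * N * (2 * b)))) (4 * (a + b) * N) (4 * (a + b) * (N + 1))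

/-- the event -/
theorem evt_top (ha : 1 ≤ a) (hb : 1 ≤ b) {cL cR cu : Finset (ℕ × ℕ)} (hL : cL ⊆ TH a N) (hR : cR ⊆ TH b N) (hU : cu ⊆ TU a b N) :
    Cb (b0 a b N) (clo a cL cR ∪ cu) (2 * a + 1, 0) (2 * (a + b) + 1, 0) ↔
      Rl (top a b N cL cR cu) (2 * (a + b) + 1) (2 * (a + b) + 3) := by
  have hn : 1 ≤ a + b := by omega
  have h12 := st_one hb hR
  have hσ := st_nc ha cL (2 * N * (2 * a))
  have hτ := st_nc hb cR (2 * N * (2 * b))
  have hg := glue_nc ha hb hσ hτ h12
  have e0 : 2 * N * (2 * (a + b)) = 4 * (a + b) * N := by ring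
  have hini := fun k l hk hl => ini ha hb hL hR h12 (k := k) (l := l) hk hl
  rw [e0] at hini
  have hU' : cu ⊆ UT (a + b) (4 * (a + b) * N) (4 * (a + b) * (N + 1)) := by
    rw [← UF_up hn] at hU
    exact hU.trans (filter_subset _ _)
  have h := inv_sr hn (bs_b1 hL hR) (T0 := 4 * (a + b) * N) (by rw [← e0]) (q := (2 * a + 1, 0)) (Nat.zero_le _) hg hini
    (4 * (a + b) * (N + 1)) hU' (k := 2 * (a + b) + 1) (l := 2 * (a + b) + 3) ⟨by omega, by omega⟩ ⟨by omega, by omega⟩
  unfold top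
  rw [← h]
  unfold RX b1
  rw [Cb_lkb]
  have c1 : ∀ T, cx (a + b) (2 * a + 1, 0) T (2 * (a + b) + 3) = (2 * a + 1, 0) := by
    intro T
    unfold cx
    rw [if_pos rfl]
  have c2 : ∀ T, cx (a + b) (2 * a + 1, 0) T (2 * (a + b) + 1) = (2 * (a + b) + 1, 0) := by
    intro T
    unfold cx FKH.cu
    rw [if_neg (by omega), if_pos rfl]
  rw [c1, c2]
  exact ⟨fun h => h.symm, fun h => h.symm⟩

open Classical in
theorem cr_sum (ha : 1 ≤ a) (hb : 1 ≤ b) (N : ℕ) : ((cr (2 * a - 1) (2 * (a + b) - 1) (2 * N + 1) : ℝ) : ℂ) =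
    (∑ cL ∈ (TH a N).powerset, ∑ cR ∈ (TH b N).powerset, ∑ cu ∈ (TU a b N).powerset,
      (if Rl (top a b N cL cR cu) (2 * (a + b) + 1) (2 * (a + b) + 3) then (1 : ℂ) else 0)) / 2 ^ (TT a b N).card := by
  rw [cr_eq ha hb, card_filter]
  push_cast
  rw [sum_TT ha hb]
  congr 1
  refine sum_congr rfl fun cL hL => sum_congr rfl fun cR hR => sum_congr rfl fun cu hU => ?_
  rw [mem_powerset] at hL hR hU
  have h := evt_top ha hb hL hR hU
  by_cases h1 : Rl (top a b N cL cR cu) (2 * (a + b) + 1) (2 * (a + b) + 3)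
  · rw [if_pos h1, if_pos (h.2 h1), Complex.ofReal_one]
  · rw [if_neg h1, if_neg (fun h2 => h1 (h.1 h2)), Complex.ofReal_zero]

open Classical in
theorem cr_sum' (ha : 1 ≤ a) (hb : 1 ≤ b) (N : ℕ) : 1 - ((cr (2 * a - 1) (2 * (a + b) - 1) (2 * N + 1) : ℝ) : ℂ) =
    (∑ cL ∈ (TH a N).powerset, ∑ cR ∈ (TH b N).powerset, ∑ cu ∈ (TU a b N).powerset,
      (if Rl (top a b N cL cR cu) (2 * (a + b) + 1) (2 * (a + b) + 3) then (0 : ℂ) else 1)) / 2 ^ (TT a b N).card := by
  have h1 : (∑ cL ∈ (TH a N).powerset, ∑ cR ∈ (TH b N).powerset, ∑ cu ∈ (TU a b N).powerset, (1 : ℂ)) =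
      2 ^ (TT a b N).card := by
    rw [← sum_TT ha hb N (fun _ => 1), sum_const, card_powerset, nsmul_eq_mul, mul_one]
    push_cast
    rfl
  have h2 : (2 : ℂ) ^ (TT a b N).card ≠ 0 := pow_ne_zero _ two_ne_zero
  rw [cr_sum ha hb, eq_div_iff h2, sub_mul, div_mul_cancel₀ _ h2, one_mul, ← h1, ← sum_sub_distrib]
  refine sum_congr rfl fun cL _ => ?_
  rw [← sum_sub_distrib]
  refine sum_congr rfl fun cR _ => ?_
  rw [← sum_sub_distrib]
  refine sum_congr rfl fun cu _ => ?_
  split_ifs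
  · exact sub_self 1
  · exact sub_zero 1

/-! ### Product -/

theorem dL_sub {D : Finset ℕ} (hD : D ∈ sec (a + b)) : dL a D ⊆ Icc 1 (2 * a + 1) := by
  intro x hx
  rw [mem_dL] at hx
  have := mem_Icc.1 ((mem_powersetCard.1 hD).1 hx.1)
  rw [mem_Icc]
  omega

theorem dR_sub (hb : 1 ≤ b) {D : Finset ℕ} (hD : D ∈ sec (a + b)) : dR a D ⊆ Icc 1 (2 * b + 1) := by
  intro x hx
  rw [mem_dR] at hx
  rw [mem_Icc]
  rcases hx with hx | hx
  · omega
  · have := mem_Icc.1 ((mem_powersetCard.1 hD).1 hx.1)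
    omega

theorem dLR_card {D : Finset ℕ} (hD : D ∈ sec (a + b)) (h : 2 * a + 2 ∉ D) : (dL a D).card + (dR a D).card = a + b + 1 := by
  have h1 : D = dL a D ∪ D.filter (fun x => 2 * a + 2 < x) := by
    ext x
    rw [mem_union, mem_dL, mem_filter]
    constructor
    · intro hx
      by_cases h2 : x ≤ 2 * a + 1
      · exact Or.inl ⟨hx, h2⟩
      · refine Or.inr ⟨hx, ?_⟩
        have : x ≠ 2 * a + 2 := fun h3 => h (h3 ▸ hx)
        omega
    · rintro (hx | hx)
      · exact hx.1
      · exact hx.1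
  have h2 : Disjoint (dL a D) (D.filter (fun x => 2 * a + 2 < x)) := by
    rw [disjoint_left]
    intro x h3 h4
    rw [mem_dL] at h3
    rw [mem_filter] at h4
    omega
  have h3 : D.card = (dL a D).card + (D.filter (fun x => 2 * a + 2 < x)).card := by
    conv_lhs => rw [h1]
    exact card_union_of_disjoint h2
  have h4 : (dR a D).card = (D.filter (fun x => 2 * a + 2 < x)).card + 1 := by
    unfold dR
    rw [card_insert_of_notMem, card_image_of_injOn]
    · intro x hx y hy hxy
      rw [mem_coe, mem_filter] at hx hy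
      simp only at hxy
      omega
    · rw [mem_image]
      rintro ⟨y, hy, h5⟩
      rw [mem_filter] at hy
      omega
  have h5 := (mem_powersetCard.1 hD).2
  omega

theorem prodv_mnA (ha : 1 ≤ a) (hb : 1 ≤ b) {D : Finset ℕ} (hD : D ∈ sec (a + b)) :
    prodv a (mn (TH a N) (fun c => vec a (st a c (2 * N * (2 * a))))) (lowr (mn (TH b N) (fun c => vec b (st b c (2 * N * (2 * b)))))) D =
      (∑ cL ∈ (TH a N).powerset, ∑ cR ∈ (TH b N).powerset,
        prodv a (vec a (st a cL (2 * N * (2 * a)))) (vecm b (st b cR (2 * N * (2 * b)))) D) / 2 ^ ((TH a N).card + (TH b N).card) := by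
  unfold prodv
  by_cases h : 2 * a + 2 ∈ D
  · simp only [if_pos h, sum_const_zero, zero_div]
  · simp only [if_neg h]
    by_cases h1 : (dL a D).card = a
    · have h2 := dLR_card hD h
      have h3 : dR a D ∈ secm b := by
        unfold secm
        rw [mem_powersetCard]
        exact ⟨dR_sub hb hD, by omega⟩
      rw [lowr_mn]
      have h4 : mn (TH b N) (fun c => lowr (vec b (st b c (2 * N * (2 * b))))) (dR a D) =
          mn (TH b N) (fun c => vecm b (st b c (2 * N * (2 * b)))) (dR a D) :=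
        mn_congr fun c _ => lowr_vec (st_nc hb c _) h3
      rw [h4]
      unfold mn
      rw [div_mul_div_comm, ← pow_add, sum_mul_sum]
    · have h2 : ∀ c, vec a (st a c (2 * N * (2 * a))) (dL a D) = 0 := fun c => vec_card (st_nc ha c _) (dL_sub hD) h1
      unfold mn
      simp only [h2, sum_const_zero, zero_div, zero_mul]

theorem prodv_mnB (ha : 1 ≤ a) (hb : 1 ≤ b) {D : Finset ℕ} (hD : D ∈ sec (a + b)) :
    prodv a (lowr (mn (TH a N) (fun c => vec a (st a c (2 * N * (2 * a)))))) (mn (TH b N) (fun c => vec b (st b c (2 * N * (2 * b))))) D =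
      (∑ cL ∈ (TH a N).powerset, ∑ cR ∈ (TH b N).powerset,
        prodv a (vecm a (st a cL (2 * N * (2 * a)))) (vec b (st b cR (2 * N * (2 * b)))) D) / 2 ^ ((TH a N).card + (TH b N).card) := by
  unfold prodv
  by_cases h : 2 * a + 2 ∈ D
  · simp only [if_pos h, sum_const_zero, zero_div]
  · simp only [if_neg h]
    by_cases h1 : (dR a D).card = b
    · have h2 := dLR_card hD h
      have h3 : dL a D ∈ secm a := by
        unfold secm
        rw [mem_powersetCard]
        exact ⟨dL_sub hD, by omega⟩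
      rw [lowr_mn]
      have h4 : mn (TH a N) (fun c => lowr (vec a (st a c (2 * N * (2 * a))))) (dL a D) =
          mn (TH a N) (fun c => vecm a (st a c (2 * N * (2 * a)))) (dL a D) :=
        mn_congr fun c _ => lowr_vec (st_nc ha c _) h3
      rw [h4]
      unfold mn
      rw [div_mul_div_comm, ← pow_add, sum_mul_sum]
    · have h2 : ∀ c, vec b (st b c (2 * N * (2 * b))) (dR a D) = 0 := fun c => vec_card (st_nc hb c _) (dR_sub hb hD) h1
      unfold mn
      simp only [h2, sum_const_zero, zero_div, mul_zero]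

/-- the iterates of the boundary vector -/
def gi (n N : ℕ) : Vc := (AF n)^[N] (v0 n)

/-- **the crossing probability is a pairing** -/
theorem cr_pair (ha : 1 ≤ a) (hb : 1 ≤ b) (N : ℕ) : s ^ 2 * ((cr (2 * a - 1) (2 * (a + b) - 1) (2 * N + 1) : ℝ) : ℂ) =
    ip (a + b) (gi (a + b) (N + 1)) (prodv a (gi a N) (lowr (gi b N))) := by
  classical
  have hn : 1 ≤ a + b := by omega
  rw [cr_sum ha hb, TT_card ha hb]
  unfold gi
  rw [← mean_low ha N, ← mean_low hb N]
  have h1 : ip (a + b) ((AF (a + b))^[N + 1] (v0 (a + b)))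
      (prodv a (mn (TH a N) (fun c => vec a (st a c (2 * N * (2 * a))))) (lowr (mn (TH b N) (fun c => vec b (st b c (2 * N * (2 * b))))))) =
      (∑ cL ∈ (TH a N).powerset, ∑ cR ∈ (TH b N).powerset, ip (a + b) ((AF (a + b))^[N + 1] (v0 (a + b)))
        (vecA (a + b) (glue a b (st a cL (2 * N * (2 * a))) (st b cR (2 * N * (2 * b)))))) / 2 ^ ((TH a N).card + (TH b N).card) := by
    unfold ip
    simp only [sum_comm (s := (TH b N).powerset)]
    rw [sum_comm, sum_div]
    refine sum_congr rfl fun D hD => ?_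
    rw [prodv_mnA ha hb hD, mul_div_assoc', mul_sum]
    congr 1
    refine sum_congr rfl fun cL _ => ?_
    rw [mul_sum]
    refine sum_congr rfl fun cR hR => ?_
    rw [vecA_glue hb (st_nc ha cL _) (st_nc hb cR _) (st_one hb (mem_powerset.1 hR))]
  rw [h1]
  have h2 : ∀ cL ∈ (TH a N).powerset, ∀ cR ∈ (TH b N).powerset, ip (a + b) ((AF (a + b))^[N + 1] (v0 (a + b)))
      (vecA (a + b) (glue a b (st a cL (2 * N * (2 * a))) (st b cR (2 * N * (2 * b))))) =
      (∑ cu ∈ (TU a b N).powerset, s ^ 2 * (if Rl (top a b N cL cR cu) (2 * (a + b) + 1) (2 * (a + b) + 3) then (1 : ℂ) else 0)) /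
        2 ^ (TU a b N).card := by
    intro cL hL cR hR
    rw [mem_powerset] at hL hR
    have h12 := st_one hb hR
    have hσ := st_nc ha cL (2 * N * (2 * a))
    have hτ := st_nc hb cR (2 * N * (2 * b))
    have hg := glue_nc ha hb hσ hτ h12
    rw [← ip_AF_iter, ← mean_upA hn N hg, ip_mn]
    congr 1
    refine sum_congr rfl fun cu _ => ?_
    rw [ip_vecA (sr_nc hn (by omega) cu hg _ _)]
    unfold top
    rw [mul_ite, mul_one, mul_zero]
  rw [sum_congr rfl fun cL hL => sum_congr rfl fun cR hR => h2 cL hL cR hR]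
  simp only [← sum_div, ← mul_sum]
  rw [pow_add]
  field_simp

theorem cr_pair' (ha : 1 ≤ a) (hb : 1 ≤ b) (N : ℕ) : 1 - ((cr (2 * a - 1) (2 * (a + b) - 1) (2 * N + 1) : ℝ) : ℂ) =
    ip (a + b) (gi (a + b) (N + 1)) (prodv a (lowr (gi a N)) (gi b N)) := by
  classical
  have hn : 1 ≤ a + b := by omega
  rw [cr_sum' ha hb, TT_card ha hb]
  unfold gi
  rw [← mean_low ha N, ← mean_low hb N]
  have h1 : ip (a + b) ((AF (a + b))^[N + 1] (v0 (a + b)))
      (prodv a (lowr (mn (TH a N) (fun c => vec a (st a c (2 * N * (2 * a)))))) (mn (TH b N) (fun c => vec b (st b c (2 * N * (2 * b)))))) =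
      (∑ cL ∈ (TH a N).powerset, ∑ cR ∈ (TH b N).powerset, ip (a + b) ((AF (a + b))^[N + 1] (v0 (a + b)))
        (vecB (a + b) (glue a b (st a cL (2 * N * (2 * a))) (st b cR (2 * N * (2 * b)))))) / 2 ^ ((TH a N).card + (TH b N).card) := by
    unfold ip
    simp only [sum_comm (s := (TH b N).powerset)]
    rw [sum_comm, sum_div]
    refine sum_congr rfl fun D hD => ?_
    rw [prodv_mnB ha hb hD, mul_div_assoc', mul_sum]
    congr 1
    refine sum_congr rfl fun cL _ => ?_
    rw [mul_sum]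
    refine sum_congr rfl fun cR hR => ?_
    rw [vecB_glue hb (st_nc ha cL _) (st_nc hb cR _) (st_one hb (mem_powerset.1 hR))]
    intro x hx
    exact (mem_Icc.1 ((mem_powersetCard.1 hD).1 hx)).2
  rw [h1]
  have h2 : ∀ cL ∈ (TH a N).powerset, ∀ cR ∈ (TH b N).powerset, ip (a + b) ((AF (a + b))^[N + 1] (v0 (a + b)))
      (vecB (a + b) (glue a b (st a cL (2 * N * (2 * a))) (st b cR (2 * N * (2 * b))))) =
      (∑ cu ∈ (TU a b N).powerset, (if Rl (top a b N cL cR cu) (2 * (a + b) + 1) (2 * (a + b) + 3) then (0 : ℂ) else 1)) /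
        2 ^ (TU a b N).card := by
    intro cL hL cR hR
    rw [mem_powerset] at hL hR
    have h12 := st_one hb hR
    have hσ := st_nc ha cL (2 * N * (2 * a))
    have hτ := st_nc hb cR (2 * N * (2 * b))
    have hg := glue_nc ha hb hσ hτ h12
    rw [← ip_AF_iter, ← mean_upB hn N hg, ip_mn]
    congr 1
    refine sum_congr rfl fun cu _ => ?_
    rw [ip_vecB (sr_nc hn (by omega) cu hg _ _)]
    rfl
  rw [sum_congr rfl fun cL hL => sum_congr rfl fun cR hR => h2 cL hL cR hR]
  simp only [← sum_div]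
  rw [pow_add]
  field_simp

end

end CD
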