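import Pool.Agent.Lib.MP_216314_pr.Ca.CaB
import Pool.Agent.Lib.MP_216314_pr.H.HInv

/-!
# States with one more region (Cardy's formula, slit strip, lattice side)

From time `T0` on (heights `≥ h0`). `sr n c σ0 T0 t`: the involution of `{1,...,2n+4}` after `t` more tiles, starting from `σ0`.
`RX β n q T c k l`: the odd regions `k`, `l` are connected at time `T`; the region `2 n + 3` is the site `q`.
`inv_sr`: `RX` is given by the involution.
-/

set_option autoImplicit false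

namespace CD

open Finset FKH QS

/-- involution after `t` more tiles -/
def sr (n : ℕ) (c : Finset (ℕ × ℕ)) (σ0 : ℕ → ℕ) (T0 : ℕ) : ℕ → (ℕ → ℕ)
  | 0 => σ0
  | t + 1 => if ltr c (tile n (T0 + t)) then act (tile n (T0 + t)).1 (sr n c σ0 T0 t) else sr n c σ0 T0 t

/-- the tiles between the times `T0` and `T0 + t` -/
def UT (n T0 t : ℕ) : Finset (ℕ × ℕ) := PT n (T0 + t) \ PT n T0

theorem UT_zero (n T0 : ℕ) : UT n T0 0 = ∅ := by
  unfold UT
  rw [add_zero, sdiff_self]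
  rfl

theorem UT_succ {n : ℕ} (hn : 1 ≤ n) (T0 t : ℕ) : UT n T0 (t + 1) = insert (tile n (T0 + t)) (UT n T0 t) := by
  unfold UT
  rw [← add_assoc, PT_succ hn, insert_sdiff_of_notMem]
  exact fun h => tile_notMem hn (T0 + t) (PT_mono hn (Nat.le_add_right T0 t) h)

theorem UT_notMem {n : ℕ} (hn : 1 ≤ n) (T0 t : ℕ) : tile n (T0 + t) ∉ UT n T0 t := fun h =>
  tile_notMem hn (T0 + t) (mem_sdiff.1 h).1

theorem UT_sub (n T0 t : ℕ) : UT n T0 t ⊆ PT n (T0 + t) := sdiff_subset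

theorem UT_mono {n : ℕ} (hn : 1 ≤ n) (T0 : ℕ) {t t' : ℕ} (h : t ≤ t') : UT n T0 t ⊆ UT n T0 t' :=
  sdiff_subset_sdiff (PT_mono hn (Nat.add_le_add_left h T0)) (Subset.refl _)

theorem UT_mem {n : ℕ} (hn : 1 ≤ n) (T0 : ℕ) {t t' : ℕ} (h : t < t') : tile n (T0 + t) ∈ UT n T0 t' := by
  refine UT_mono hn T0 h ?_
  rw [UT_succ hn]
  exact mem_insert_self _ _

theorem sr_nc {n : ℕ} (hn : 1 ≤ n) {P : ℕ} (hP : 2 * n + 1 < P) (c : Finset (ℕ × ℕ)) {σ0 : ℕ → ℕ} (h0 : IsNC P σ0)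
    (T0 t : ℕ) : IsNC P (sr n c σ0 T0 t) := by
  induction t with
  | zero => exact h0
  | succ t ih =>
    have h1 := tile_fst hn (T0 + t)
    show IsNC P (if ltr c (tile n (T0 + t)) then act (tile n (T0 + t)).1 (sr n c σ0 T0 t) else sr n c σ0 T0 t)
    split_ifs
    · exact act_nc ih h1.1 (by omega)
    · exact ih

theorem sr_succ_of {n : ℕ} {c : Finset (ℕ × ℕ)} {σ0 : ℕ → ℕ} {T0 t : ℕ} (h : ltr c (tile n (T0 + t))) :
    sr n c σ0 T0 (t + 1) = act (tile n (T0 + t)).1 (sr n c σ0 T0 t) := by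
  show (if ltr c (tile n (T0 + t)) then _ else _) = _
  rw [if_pos h]

theorem sr_succ_not {n : ℕ} {c : Finset (ℕ × ℕ)} {σ0 : ℕ → ℕ} {T0 t : ℕ} (h : ¬ ltr c (tile n (T0 + t))) :
    sr n c σ0 T0 (t + 1) = sr n c σ0 T0 t := by
  show (if ltr c (tile n (T0 + t)) then _ else _) = _
  rw [if_neg h]

theorem sr_congr {n : ℕ} (hn : 1 ≤ n) {c c' : Finset (ℕ × ℕ)} (σ0 : ℕ → ℕ) (T0 t : ℕ)
    (h : ∀ t' ∈ UT n T0 t, (t' ∈ c ↔ t' ∈ c')) : sr n c σ0 T0 t = sr n c' σ0 T0 t := by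
  induction t with
  | zero => rfl
  | succ t ih =>
    have h1 := ih (fun t' ht => h t' (UT_mono hn T0 (Nat.le_succ t) ht))
    have h2 := h _ (UT_mem hn T0 (Nat.lt_succ_self t))
    have h3 : ltr c (tile n (T0 + t)) ↔ ltr c' (tile n (T0 + t)) := by
      unfold ltr
      rw [h2]
    by_cases h4 : ltr c (tile n (T0 + t))
    · rw [sr_succ_of h4, sr_succ_of (h3.1 h4), h1]
    · rw [sr_succ_not h4, sr_succ_not (fun h5 => h4 (h3.2 h5)), h1]

theorem sr_insert {n : ℕ} (hn : 1 ≤ n) (σ0 : ℕ → ℕ) (T0 t : ℕ) (c : Finset (ℕ × ℕ)) :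
    sr n (insert (tile n (T0 + t)) c) σ0 T0 t = sr n c σ0 T0 t := by
  refine sr_congr hn σ0 T0 t fun t' ht => ?_
  rw [mem_insert]
  constructor
  · rintro (h | h)
    · rw [h] at ht
      exact absurd ht (UT_notMem hn T0 t)
    · exact h
  · exact Or.inr

/-- the site of a region at time `T` -/
def cx (n : ℕ) (q : ℕ × ℕ) (T k : ℕ) : ℕ × ℕ := if k = 2 * n + 3 then q else cu n (T / (2 * n)) (T % (2 * n)) k

/-- connection of the regions at time `T` -/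
def RX (β : ℕ × ℕ → ℕ × ℕ → Prop) (n : ℕ) (q : ℕ × ℕ) (T : ℕ) (c : Finset (ℕ × ℕ)) (k l : ℕ) : Prop :=
  Cb β c (cx n q T k) (cx n q T l)

/-- the regions -/
def vr (n k : ℕ) : Prop := k % 2 = 1 ∧ (k ≤ 2 * n + 1 ∨ k = 2 * n + 3)

theorem RX.symm {β : ℕ × ℕ → ℕ × ℕ → Prop} {n : ℕ} {q : ℕ × ℕ} {T : ℕ} {c : Finset (ℕ × ℕ)} {k l : ℕ} (h : RX β n q T c k l) :
    RX β n q T c l k := Cb.symm h

theorem RX_self (β : ℕ × ℕ → ℕ × ℕ → Prop) (n : ℕ) (q : ℕ × ℕ) (T : ℕ) (c : Finset (ℕ × ℕ)) (k : ℕ) : RX β n q T c k k :=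
  Cb.refl _

theorem RX_comm (β : ℕ × ℕ → ℕ × ℕ → Prop) (n : ℕ) (q : ℕ × ℕ) (T : ℕ) (c : Finset (ℕ × ℕ)) (k l : ℕ) :
    RX β n q T c k l ↔ RX β n q T c l k := ⟨RX.symm, RX.symm⟩

theorem cu_time {n : ℕ} (hn : 1 ≤ n) (T : ℕ) {k : ℕ} (hk : k % 2 = 1) (hk' : k ≤ 2 * n + 1) :
    cu n ((T + 1) / (2 * n)) ((T + 1) % (2 * n)) k = cu n (T / (2 * n)) (T % (2 * n) + 1) k := by
  rcases time_succ hn T with ⟨_, h2, h3⟩ | ⟨h4, h2, h3⟩
  · rw [h2, h3]
  · rw [h2, h3, h4, cu_next n _ k (by omega) hk']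

section

variable {β : ℕ × ℕ → ℕ × ℕ → Prop} {n h0 : ℕ} {q : ℕ × ℕ} {T : ℕ} {c : Finset (ℕ × ℕ)} {k l : ℕ}

theorem RX_RG (hk : k ≠ 2 * n + 3) (hl : l ≠ 2 * n + 3) :
    RX β n q T c k l ↔ RGb β n (T / (2 * n)) (T % (2 * n)) c k l := by
  unfold RX RGb cx
  rw [if_neg hk, if_neg hl]

theorem RX_MK (hl : l ≠ 2 * n + 3) :
    RX β n q T c (2 * n + 3) l ↔ MKb β n (T / (2 * n)) (T % (2 * n)) c q l := by
  unfold RX MKb cx
  rw [if_pos rfl, if_neg hl]

theorem RX_RG' (hn : 1 ≤ n) (hk : k % 2 = 1) (hk' : k ≤ 2 * n + 1) (hl : l % 2 = 1) (hl' : l ≤ 2 * n + 1) :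
    RX β n q (T + 1) c k l ↔ RGb β n (T / (2 * n)) (T % (2 * n) + 1) c k l := by
  unfold RX RGb cx
  rw [if_neg (by omega), if_neg (by omega), cu_time hn T hk hk', cu_time hn T hl hl']

theorem RX_MK' (hn : 1 ≤ n) (hl : l % 2 = 1) (hl' : l ≤ 2 * n + 1) :
    RX β n q (T + 1) c (2 * n + 3) l ↔ MKb β n (T / (2 * n)) (T % (2 * n) + 1) c q l := by
  unfold RX MKb cx
  rw [if_pos rfl, if_neg (by omega), cu_time hn T hl hl']

theorem RX_even_closed (hn : 1 ≤ n) (hj : (tile n T).1 % 2 = 0) (hk : vr n k) (hl : vr n l) :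
    RX β n q (T + 1) c k l ↔ RX β n q T c k l := by
  have hi' := mod_lt hn T
  rcases hk with ⟨hk, hk' | hk'⟩ <;> rcases hl with ⟨hl, hl' | hl'⟩
  · rw [RX_RG' hn hk hk' hl hl', RX_RG (by omega) (by omega)]
    exact RGb_even_closed hi' hj hk hl
  · rw [hl', RX_comm, RX_comm β n q T, RX_MK' hn hk hk', RX_MK (by omega)]
    exact MKb_even_closed hi' hj hk
  · rw [hk', RX_MK' hn hl hl', RX_MK (by omega)]
    exact MKb_even_closed hi' hj hl
  · rw [hk', hl']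
    exact ⟨fun _ => RX_self _ _ _ _ _ _, fun _ => RX_self _ _ _ _ _ _⟩

theorem RX_odd_closed (hn : 1 ≤ n) (hβ : Bs β n h0) (hT : h0 ≤ T / (2 * n)) (hq : q.2 ≤ h0) (hc : c ⊆ PT n T)
    (hj : (tile n T).1 % 2 = 1) (hk : vr n k) (hl : vr n l) :
    RX β n q (T + 1) c k l ↔ k = l ∨ (k ≠ (tile n T).1 ∧ l ≠ (tile n T).1 ∧ RX β n q T c k l) := by
  have hi' := mod_lt hn T
  have hb := tile_fst hn T
  rcases hk with ⟨hk, hk' | hk'⟩ <;> rcases hl with ⟨hl, hl' | hl'⟩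
  · rw [RX_RG' hn hk hk' hl hl', RX_RG (by omega) (by omega)]
    exact RGb_odd_closed hβ hT hc hi' hj hk hk' hl hl'
  · rw [hl', RX_comm, RX_comm β n q T, RX_MK' hn hk hk', RX_MK (by omega),
      MKb_odd_closed hβ hT hc hi' hj (hq.trans hT)]
    constructor
    · rintro ⟨h1, h2⟩
      exact Or.inr ⟨h1, by omega, h2⟩
    · rintro (h1 | ⟨h1, _, h2⟩)
      · omega
      · exact ⟨h1, h2⟩
  · rw [hk', RX_MK' hn hl hl', RX_MK (by omega), MKb_odd_closed hβ hT hc hi' hj (hq.trans hT)]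
    constructor
    · rintro ⟨h1, h2⟩
      exact Or.inr ⟨by omega, h1, h2⟩
    · rintro (h1 | ⟨_, h1, h2⟩)
      · omega
      · exact ⟨h1, h2⟩
  · rw [hk', hl']
    exact ⟨fun _ => Or.inl rfl, fun _ => RX_self _ _ _ _ _ _⟩

theorem RX_odd_open (hn : 1 ≤ n) (hβ : Bs β n h0) (hT : h0 ≤ T / (2 * n)) (hq : q.2 ≤ h0) (hc : c ⊆ PT n T)
    (hj : (tile n T).1 % 2 = 1) (hk : vr n k) (hl : vr n l) :
    RX β n q (T + 1) (insert (tile n T) c) k l ↔ RX β n q T c k l := by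
  have hi' := mod_lt hn T
  rcases hk with ⟨hk, hk' | hk'⟩ <;> rcases hl with ⟨hl, hl' | hl'⟩
  · rw [RX_RG' hn hk hk' hl hl', RX_RG (by omega) (by omega)]
    exact RGb_odd_open hβ hT hc hi' hj hk hk' hl hl'
  · rw [hl', RX_comm, RX_comm β n q T, RX_MK' hn hk hk', RX_MK (by omega)]
    exact MKb_odd_open hβ hT hc hi' hj (hq.trans hT) hk hk'
  · rw [hk', RX_MK' hn hl hl', RX_MK (by omega)]
    exact MKb_odd_open hβ hT hc hi' hj (hq.trans hT) hl hl'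
  · rw [hk', hl']
    exact ⟨fun _ => RX_self _ _ _ _ _ _, fun _ => RX_self _ _ _ _ _ _⟩

theorem RX_even_open (hn : 1 ≤ n) (hβ : Bs β n h0) (hj : (tile n T).1 % 2 = 0) (hk : vr n k) (hl : vr n l) :
    RX β n q (T + 1) (insert (tile n T) c) k l ↔ RX β n q T c k l ∨
      (RX β n q T c k ((tile n T).1 - 1) ∧ RX β n q T c ((tile n T).1 + 1) l) ∨
      (RX β n q T c k ((tile n T).1 + 1) ∧ RX β n q T c ((tile n T).1 - 1) l) := by
  have hi' := mod_lt hn T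
  have hb := tile_fst hn T
  rcases hk with ⟨hk, hk' | hk'⟩ <;> rcases hl with ⟨hl, hl' | hl'⟩
  · rw [RX_RG' hn hk hk' hl hl', RX_RG (by omega) (by omega), RX_RG (by omega) (by omega), RX_RG (by omega) (by omega),
      RX_RG (by omega) (by omega), RX_RG (by omega) (by omega)]
    exact RGb_even_open hβ hi' hj hk hl
  · subst hl'
    have g1 : RX β n q (T + 1) (insert (tile n T) c) k (2 * n + 3) ↔
        MKb β n (T / (2 * n)) (T % (2 * n) + 1) (insert (tile n T) c) q k := (RX_comm _ _ _ _ _ _ _).trans (RX_MK' hn hk hk')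
    have g2 : RX β n q T c k (2 * n + 3) ↔ MKb β n (T / (2 * n)) (T % (2 * n)) c q k :=
      (RX_comm _ _ _ _ _ _ _).trans (RX_MK (by omega))
    have g3 : RX β n q T c k ((tile n T).1 - 1) ↔ RGb β n (T / (2 * n)) (T % (2 * n)) c ((tile n T).1 - 1) k :=
      (RX_comm _ _ _ _ _ _ _).trans (RX_RG (by omega) (by omega))
    have g4 : RX β n q T c k ((tile n T).1 + 1) ↔ RGb β n (T / (2 * n)) (T % (2 * n)) c ((tile n T).1 + 1) k :=
      (RX_comm _ _ _ _ _ _ _).trans (RX_RG (by omega) (by omega))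
    have g5 : RX β n q T c ((tile n T).1 + 1) (2 * n + 3) ↔ MKb β n (T / (2 * n)) (T % (2 * n)) c q ((tile n T).1 + 1) :=
      (RX_comm _ _ _ _ _ _ _).trans (RX_MK (by omega))
    have g6 : RX β n q T c ((tile n T).1 - 1) (2 * n + 3) ↔ MKb β n (T / (2 * n)) (T % (2 * n)) c q ((tile n T).1 - 1) :=
      (RX_comm _ _ _ _ _ _ _).trans (RX_MK (by omega))
    rw [g1, g2, g3, g4, g5, g6]
    have h := MKb_even_open (c := c) (u := q) hβ hi' hj hk
    refine h.trans (or_congr Iff.rfl ?_)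
    constructor
    · rintro (⟨h1, h2⟩ | ⟨h1, h2⟩)
      · exact Or.inr ⟨h2, h1⟩
      · exact Or.inl ⟨h2, h1⟩
    · rintro (⟨h1, h2⟩ | ⟨h1, h2⟩)
      · exact Or.inr ⟨h2, h1⟩
      · exact Or.inl ⟨h2, h1⟩
  · rw [hk', RX_MK' hn hl hl', RX_MK (by omega), RX_MK (by omega), RX_MK (by omega), RX_RG (by omega) (by omega),
      RX_RG (by omega) (by omega)]
    exact MKb_even_open hβ hi' hj hl
  · rw [hk', hl']
    exact ⟨fun _ => Or.inl (RX_self _ _ _ _ _ _), fun _ => RX_self _ _ _ _ _ _⟩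

end

theorem split_u {n : ℕ} (hn : 1 ≤ n) {T0 t : ℕ} {c : Finset (ℕ × ℕ)} (hc : c ⊆ UT n T0 (t + 1)) :
    c ⊆ UT n T0 t ∨ ∃ c0, c0 ⊆ UT n T0 t ∧ c = insert (tile n (T0 + t)) c0 := by
  rw [UT_succ hn] at hc
  by_cases h : tile n (T0 + t) ∈ c
  · right
    refine ⟨c.erase (tile n (T0 + t)), ?_, (insert_erase h).symm⟩
    intro t' ht
    rw [mem_erase] at ht
    exact (mem_insert.1 (hc ht.2)).resolve_left ht.1
  · left
    intro t' ht
    refine (mem_insert.1 (hc ht)).resolve_left ?_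
    intro he
    rw [he] at ht
    exact h ht

/-- **the relation of the regions is given by the involution** -/
theorem inv_sr {β : ℕ × ℕ → ℕ × ℕ → Prop} {n h0 : ℕ} (hn : 1 ≤ n) (hβ : Bs β n h0) {T0 : ℕ} (hT : h0 * (2 * n) ≤ T0)
    {q : ℕ × ℕ} (hq : q.2 ≤ h0) {σ0 : ℕ → ℕ} (hσ : IsNC (2 * n + 4) σ0)
    (hini : ∀ k l, vr n k → vr n l → (RX β n q T0 ∅ k l ↔ Rl σ0 k l)) (t : ℕ) :
    ∀ {c : Finset (ℕ × ℕ)}, c ⊆ UT n T0 t → ∀ {k l : ℕ}, vr n k → vr n l →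
      (RX β n q (T0 + t) c k l ↔ Rl (sr n c σ0 T0 t) k l) := by
  induction t with
  | zero =>
    intro c hc k l hk hl
    rw [UT_zero, subset_empty] at hc
    rw [hc]
    exact hini k l hk hl
  | succ t ih =>
    intro c hc k l hk hl
    have hb := tile_fst hn (T0 + t)
    have hT1 : h0 ≤ (T0 + t) / (2 * n) := by
      rw [Nat.le_div_iff_mul_le (by omega)]
      omega
    have hkP : k < 2 * n + 4 := by unfold vr at hk; omega
    have hlP : l < 2 * n + 4 := by unfold vr at hl; omega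
    have hk1 := hk.1
    have hl1 := hl.1
    rw [← add_assoc]
    rcases split_u hn hc with hc0 | ⟨c0, hc0, rfl⟩
    · have hnt : tile n (T0 + t) ∉ c := fun h => UT_notMem hn T0 t (hc0 h)
      rcases Nat.mod_two_eq_zero_or_one (tile n (T0 + t)).1 with hp | hp
      · have h1 : ¬ ltr c (tile n (T0 + t)) := by
          unfold ltr
          rintro (⟨_, h⟩ | ⟨h, _⟩)
          · exact hnt h
          · omega
        rw [sr_succ_not h1, RX_even_closed hn hp hk hl]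
        exact ih hc0 hk hl
      · have h1 : ltr c (tile n (T0 + t)) := Or.inr ⟨hp, hnt⟩
        rw [sr_succ_of h1, Rl_act_cut (sr_nc hn (by omega) c hσ T0 t) hb.1 (by omega) hkP hlP (by omega) (by omega),
          RX_odd_closed hn hβ hT1 hq (hc0.trans (UT_sub n T0 t)) hp hk hl, ih hc0 hk hl]
    · have hmem : tile n (T0 + t) ∈ insert (tile n (T0 + t)) c0 := mem_insert_self _ _
      rcases Nat.mod_two_eq_zero_or_one (tile n (T0 + t)).1 with hp | hp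
      · have h1 : ltr (insert (tile n (T0 + t)) c0) (tile n (T0 + t)) := Or.inl ⟨hp, hmem⟩
        have v1 : vr n ((tile n (T0 + t)).1 - 1) := ⟨by omega, by omega⟩
        have v2 : vr n ((tile n (T0 + t)).1 + 1) := ⟨by omega, by omega⟩
        rw [sr_succ_of h1, sr_insert hn, Rl_act_merge (sr_nc hn (by omega) c0 hσ T0 t) hb.1 (by omega) hkP hlP
          (by omega) (by omega), RX_even_open hn hβ hp hk hl, ih hc0 hk hl, ih hc0 hk v1, ih hc0 v2 hl, ih hc0 hk v2,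
          ih hc0 v1 hl]
      · have h1 : ¬ ltr (insert (tile n (T0 + t)) c0) (tile n (T0 + t)) := by
          unfold ltr
          rintro (⟨h, _⟩ | ⟨_, h⟩)
          · omega
          · exact h hmem
        rw [sr_succ_not h1, sr_insert hn, RX_odd_open hn hβ hT1 hq (hc0.trans (UT_sub n T0 t)) hp hk hl]
        exact ih hc0 hk hl

end CD
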