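import Pool.Agent.Lib.MP_216314_pr.Ca.CaSt
import Pool.Agent.Lib.MP_216314_pr.Ca.CaDef
import Pool.Agent.Lib.MP_216314_pr.H.HEvt
import Pool.Agent.Lib.MP_216314_pr.H.HSum

/-!
# Cardy's formula, slit strip, lattice side: definitions for the tiles, the states and the vectors

`k = 2 a - 1`, `L = 2 (a + b) - 1` with `a, b ≥ 1`; heights `0, ..., 4 N + 2`, the slit is at heights below `2 N`. The point `(x, y)` is the site
`(x + y + 2, x - y + 1 + 2 N)`.
-/

set_option autoImplicit false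

noncomputable section

namespace CD

open Finset FKI FKP FKH QS

/-- all tiles of the slit strip -/
def TT (a b N : ℕ) : Finset (ℕ × ℕ) :=
  (Icc 2 (2 * (a + b)) ×ˢ range (4 * N + 2)).filter (fun t => ¬ (t.1 = 2 * a + 1 ∧ t.2 < 2 * N))

/-- tiles of the half strip of `2 n - 1` tile columns, `2 N` slabs -/
def TH (n N : ℕ) : Finset (ℕ × ℕ) := Icc 2 (2 * n) ×ˢ range (2 * N)

/-- shift to the right -/
def shE (s : ℕ) : (ℕ × ℕ) ↪ (ℕ × ℕ) := ⟨fun t => (t.1 + s, t.2), fun t t' h => by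
  simp only [Prod.mk.injEq] at h
  exact Prod.ext (by omega) h.2⟩

/-- the upper tiles -/
def TU (a b N : ℕ) : Finset (ℕ × ℕ) := Icc 2 (2 * (a + b)) ×ˢ Ico (2 * N) (4 * N + 2)

/-- point of the square lattice of a site -/
def ph (N : ℕ) (u : ℕ × ℕ) : V := (((u.1 : ℤ) + u.2 - 3 - 2 * N) / 2, ((u.1 : ℤ) - u.2 - 1 + 2 * N) / 2)

/-- site of a point -/
def ch (N : ℕ) (v : V) : ℕ × ℕ := ((v.1 + v.2 + 2).toNat, (v.1 - v.2 + 1 + 2 * N).toNat)

/-- edge of a tile -/
def pe (N : ℕ) (t : ℕ × ℕ) : Edge :=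
  if (t.1 + t.2) % 2 = 1 then (((t.1 : ℤ) + t.2 - 3 - 2 * N) / 2, ((t.1 : ℤ) - t.2 - 1 + 2 * N) / 2, false)
  else (((t.1 : ℤ) + t.2 - 2 - 2 * N) / 2, ((t.1 : ℤ) - t.2 - 2 + 2 * N) / 2, true)

/-- the wires: right side of the strip, left side of the slit -/
def b0 (a b N : ℕ) (u v : ℕ × ℕ) : Prop :=
  ((u.1 = 2 * (a + b) + 1 ∧ u.2 % 2 = 0) ∧ (v.1 = 2 * (a + b) + 1 ∧ v.2 % 2 = 0)) ∨
  ((u.1 = 2 * a + 1 ∧ u.2 % 2 = 0 ∧ u.2 ≤ 2 * N) ∧ (v.1 = 2 * a + 1 ∧ v.2 % 2 = 0 ∧ v.2 ≤ 2 * N))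

/-- the wires and the lower edges: base relation for the upper part -/
def b1 (a b N : ℕ) (cl : Finset (ℕ × ℕ)) : ℕ × ℕ → ℕ × ℕ → Prop := lkb (b0 a b N) cl

/-- the involution of the glued half strips -/
def glue (a b : ℕ) (σ τ : ℕ → ℕ) : ℕ → ℕ := fun x =>
  if x ≤ 2 * a + 1 then (if σ x = 2 * a + 2 then 2 * (a + b) + 4 else σ x)
  else if x = 2 * a + 2 then 2 * (a + b) + 3
  else if x = 2 * (a + b) + 3 then 2 * a + 2
  else if x = 2 * (a + b) + 4 then σ (2 * a + 2)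
  else τ (x - 2 * a) + 2 * a

/-- state vector with three lower ends, the spins of the ends are up, down, down -/
def vecA (n : ℕ) (σ : ℕ → ℕ) : Vc := fun D => Th (2 * n + 4) σ (D ∪ {2 * n + 3, 2 * n + 4})

/-- state vector, the spin of the end is up -/
def vecm (n : ℕ) (σ : ℕ → ℕ) : Vc := fun D => s * Th (2 * n + 2) σ D

/-- the sector with one more down spin -/
def secm (n : ℕ) : Finset (Finset ℕ) := powersetCard (n + 1) (Icc 1 (2 * n + 1))

/-- lowering operator -/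
def lowr (v : Vc) : Vc := fun D =>
  ∑ j ∈ D, ((s ^ 8) ^ (D.filter (fun x => x < j)).card * (s ^ 4) ^ (j - 1 - (D.filter (fun x => x < j)).card)) * v (D.erase j)

/-- left part of a configuration -/
def dL (a : ℕ) (D : Finset ℕ) : Finset ℕ := D.filter (fun x => x ≤ 2 * a + 1)

/-- right part of a configuration, shifted, with the position `2` added -/
def dR (a : ℕ) (D : Finset ℕ) : Finset ℕ :=
  insert 2 ((D.filter (fun x => 2 * a + 2 < x)).image (fun x => x - 2 * a))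

/-- product of two vectors -/
def prodv (a : ℕ) (v w : Vc) : Vc := fun D => if 2 * a + 2 ∈ D then 0 else v (dL a D) * w (dR a D)

/-- one letter, the letter `1` is always present -/
def hf (j : ℕ) (v : Vc) : Vc := if j = 1 then ee 1 v else hs j v

/-- a word of such letters -/
def opF : List ℕ → Vc → Vc
  | [], v => v
  | i :: l, v => opF l (hf i v)

/-- the double row -/
def AF (n : ℕ) : Vc → Vc := opF (per n)

/-- mean of a family of vectors over the subsets of a set of tiles -/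
def mn (S : Finset (ℕ × ℕ)) (F : Finset (ℕ × ℕ) → Vc) : Vc := fun D => (∑ c ∈ S.powerset, F c D) / 2 ^ S.card

end CD
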