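import Pool.Agent.Lib.MP_216314_pr.Ca.CaGlue
import Pool.Agent.Lib.MP_216314_pr.S.SEnd

/-!
# The state vectors with three ends
-/

set_option autoImplicit false

noncomputable section

namespace CD

open Finset FKI FKP FKH QS

/-- state vector with three lower ends, the spins of the ends are down, down, up -/
def vecB (n : ℕ) (σ : ℕ → ℕ) : Vc := fun D => Th (2 * n + 4) σ (D ∪ {2 * n + 2, 2 * n + 3})

open Classical in
/-- local factor of `Th` -/
def gx (σ : ℕ → ℕ) (D : Finset ℕ) (x : ℕ) : ℂ :=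
  if (σ x ∈ D ↔ x ∉ D) then (if x < σ x then (if x ∈ D then s⁻¹ else s) else 1) else 0

theorem Th_prod (P : ℕ) (σ : ℕ → ℕ) (D : Finset ℕ) : Th P σ D = ∏ x ∈ Icc 1 P, gx σ D x := by
  classical
  unfold Th
  by_cases h : ∀ x ∈ Icc 1 P, (σ x ∈ D ↔ x ∉ D)
  · rw [if_pos h, prod_filter]
    refine prod_congr rfl fun x hx => ?_
    unfold gx
    rw [if_pos (h x hx)]
  · rw [if_neg h]
    push Not at h
    obtain ⟨x, hx, h1⟩ := h
    symm
    refine prod_eq_zero hx ?_
    unfold gx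
    rw [if_neg]
    tauto

theorem gx_congr {σ τ : ℕ → ℕ} {D E : Finset ℕ} {x y : ℕ} (h1 : x ∈ D ↔ y ∈ E) (h2 : σ x ∈ D ↔ τ y ∈ E)
    (h3 : x < σ x ↔ y < τ y) : gx σ D x = gx τ E y := by
  unfold gx
  simp only [h1, h2, h3]

theorem gx_zero {σ : ℕ → ℕ} {D : Finset ℕ} {x : ℕ} (h : ¬ (σ x ∈ D ↔ x ∉ D)) : gx σ D x = 0 := if_neg h

theorem gx_one {σ : ℕ → ℕ} {D : Finset ℕ} {x : ℕ} (h : (σ x ∈ D ↔ x ∉ D)) (h' : ¬ x < σ x) : gx σ D x = 1 := by
  unfold gx
  rw [if_pos h, if_neg h']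

theorem gx_up {σ : ℕ → ℕ} {D : Finset ℕ} {x : ℕ} (h : σ x ∈ D) (h1 : x ∉ D) (h' : x < σ x) : gx σ D x = s := by
  unfold gx
  rw [if_pos ⟨fun _ => h1, fun _ => h⟩, if_pos h', if_neg h1]

theorem gx_dn {σ : ℕ → ℕ} {D : Finset ℕ} {x : ℕ} (h : σ x ∉ D) (h1 : x ∈ D) (h' : x < σ x) : gx σ D x = s⁻¹ := by
  unfold gx
  rw [if_pos ⟨fun h2 => absurd h2 h, fun h2 => absurd h1 h2⟩, if_pos h', if_pos h1]

/-! ### Letters -/

theorem ee_Th_union {P i : ℕ} {σ : ℕ → ℕ} (h : IsNC P σ) (h1 : 1 ≤ i) (h2 : i < P) (E : Finset ℕ)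
    (h3 : i ∉ E) (h4 : i + 1 ∉ E) : ee i (fun D => Th P σ (D ∪ E)) = fun D => Th P (act i σ) (D ∪ E) := by
  have h5 := Th_act h h1 h2
  funext D
  have h6 := congrFun h5 (D ∪ E)
  have m1 : (i ∈ D ∪ E) = (i ∈ D) := by
    rw [eq_iff_iff, mem_union]
    exact ⟨fun h => h.resolve_right h3, Or.inl⟩
  have m2 : (i + 1 ∈ D ∪ E) = (i + 1 ∈ D) := by
    rw [eq_iff_iff, mem_union]
    exact ⟨fun h => h.resolve_right h4, Or.inl⟩
  have m3 : swD i (D ∪ E) = swD i D ∪ E := by
    ext x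
    by_cases hx : x = i
    · rw [hx, mem_swD_left, mem_union, mem_union, mem_swD_left]
      exact ⟨fun h => Or.inl (h.resolve_right h4), fun h => Or.inl (h.resolve_right h3)⟩
    · by_cases hx' : x = i + 1
      · rw [hx', mem_swD_right, mem_union, mem_union, mem_swD_right]
        exact ⟨fun h => Or.inl (h.resolve_right h3), fun h => Or.inl (h.resolve_right h4)⟩
      · rw [mem_swD_ne hx hx', mem_union, mem_union, mem_swD_ne hx hx']
  rw [← h6]
  unfold ee
  simp only [m1, m2, m3]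

theorem ee_vecA {n i : ℕ} {σ : ℕ → ℕ} (h : IsNC (2 * n + 4) σ) (h1 : 1 ≤ i) (h2 : i ≤ 2 * n) :
    ee i (vecA n σ) = vecA n (act i σ) := by
  refine ee_Th_union h h1 (by omega) _ ?_ ?_
  · rw [mem_insert, mem_singleton]
    omega
  · rw [mem_insert, mem_singleton]
    omega

theorem ee_vecB {n i : ℕ} {σ : ℕ → ℕ} (h : IsNC (2 * n + 4) σ) (h1 : 1 ≤ i) (h2 : i ≤ 2 * n) :
    ee i (vecB n σ) = vecB n (act i σ) := by
  refine ee_Th_union h h1 (by omega) _ ?_ ?_
  · rw [mem_insert, mem_singleton]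
    omega
  · rw [mem_insert, mem_singleton]
    omega

/-! ### The odd word -/

theorem actW_append (l l' : List ℕ) (σ : ℕ → ℕ) : actW (l ++ l') σ = actW l' (actW l σ) := by
  induction l generalizing σ with
  | nil => rfl
  | cons i l ih => exact ih _

theorem opW_append' (l l' : List ℕ) (v : Vc) : opW (l ++ l') v = opW l' (opW l v) := by
  induction l generalizing v with
  | nil => rfl
  | cons i l ih => exact ih _

theorem oddL_succ' (m : ℕ) : oddL (m + 1) = oddL m ++ [2 * m + 1] := by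
  unfold oddL
  rw [List.range_succ, List.map_append]
  rfl

theorem act_keep {i x : ℕ} {σ : ℕ → ℕ} {P : ℕ} (h : IsNC P σ) (hi1 : 1 ≤ i) (hi2 : i + 1 ≤ P) (hx : σ x = x + 1) (hx1 : 1 ≤ x) (hx2 : x ≤ P)
    (h1 : x ≠ i) (h2 : x ≠ i + 1) (h3 : i ≠ x + 1) : act i σ x = x + 1 := by
  have hxx := (h.1 x hx1 hx2).2.2.2
  have hii := (h.1 i hi1 (by omega)).2.2.2
  have hii' := (h.1 (i + 1) (by omega) hi2).2.2.2
  unfold act
  by_cases h4 : σ i = i + 1
  · rw [if_pos h4, hx]
  · rw [if_neg h4, if_neg h1, if_neg h2, if_neg, if_neg, hx]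
    · intro h5
      rw [← h5, hx] at hii'
      omega
    · intro h5
      rw [← h5, hx] at hii
      omega

/-- the action of the odd word -/
theorem odd_word {n P : ℕ} (hP : 2 * n + 1 ≤ P) {σ : ℕ → ℕ} (h : IsNC P σ) {k l : ℕ} (hk : 2 * n < k) (hk' : k < P)
    (hk1 : k % 2 = 1) (hl : 2 * n < l) (hl' : l < P) (hl1 : l % 2 = 1) (hkl : k ≠ l) (m : ℕ) (hm : m ≤ n) :
    IsNC P (actW (oddL m) σ) ∧ (∀ j, j < m → actW (oddL m) σ (2 * j + 1) = 2 * j + 2) ∧
      (Rl (actW (oddL m) σ) k l ↔ Rl σ k l) := by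
  induction m with
  | zero => exact ⟨h, fun j hj => absurd hj (Nat.not_lt_zero j), Iff.rfl⟩
  | succ m ih =>
    obtain ⟨h1, h2, h3⟩ := ih (by omega)
    have e : actW (oddL (m + 1)) σ = act (2 * m + 1) (actW (oddL m) σ) := by
      rw [oddL_succ', actW_append]
      rfl
    rw [e]
    refine ⟨act_nc h1 (by omega) (by omega), fun j hj => ?_, ?_⟩
    · by_cases hjm : j = m
      · rw [hjm]
        unfold act
        by_cases h4 : actW (oddL m) σ (2 * m + 1) = 2 * m + 1 + 1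
        · rw [if_pos h4, h4]
        · rw [if_neg h4, if_pos rfl]
      · have h4 := h2 j (by omega)
        exact act_keep h1 (by omega) (by omega) h4 (by omega) (by omega) (by omega) (by omega) (by omega)
    · rw [Rl_act_cut h1 (by omega) (by omega) hk' hl' (by omega) (by omega), ← h3]
      constructor
      · rintro (h4 | ⟨_, _, h4⟩)
        · exact absurd h4 hkl
        · exact h4
      · intro h4
        exact Or.inr ⟨by omega, by omega, h4⟩

theorem opW_union {n P : ℕ} {σ : ℕ → ℕ} (h : IsNC P σ) (hP : 2 * n + 1 ≤ P) (E : Finset ℕ) (hE : ∀ x ∈ E, 2 * n + 1 < x) (w : List ℕ)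
    (hw : ∀ i ∈ w, 1 ≤ i ∧ i ≤ 2 * n) :
    opW w (fun D => Th P σ (D ∪ E)) = fun D => Th P (actW w σ) (D ∪ E) := by
  induction w generalizing σ with
  | nil => rfl
  | cons i l ih =>
    have hi := hw i List.mem_cons_self
    have h1 := act_nc h hi.1 (show i < P by omega)
    show opW l (ee i (fun D => Th P σ (D ∪ E))) = _
    rw [ee_Th_union h hi.1 (by omega) E (fun h2 => by have := hE _ h2; omega) (fun h2 => by have := hE _ h2; omega)]
    exact ih h1 (fun j hj => hw j (List.mem_cons_of_mem _ hj))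

/-- the four last points after the odd word -/
theorem last_four {n : ℕ} {σ : ℕ → ℕ} (h : IsNC (2 * n + 4) σ) (h1 : ∀ j, j < n → σ (2 * j + 1) = 2 * j + 2) :
    (∀ x, 1 ≤ x → x ≤ 2 * n → σ x = sg0 x) ∧
      ((σ (2 * n + 1) = 2 * n + 4 ∧ σ (2 * n + 2) = 2 * n + 3 ∧ σ (2 * n + 3) = 2 * n + 2 ∧ σ (2 * n + 4) = 2 * n + 1 ∧
        Rl σ (2 * n + 1) (2 * n + 3)) ∨
      (σ (2 * n + 1) = 2 * n + 2 ∧ σ (2 * n + 2) = 2 * n + 1 ∧ σ (2 * n + 3) = 2 * n + 4 ∧ σ (2 * n + 4) = 2 * n + 3 ∧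
        ¬ Rl σ (2 * n + 1) (2 * n + 3))) := by
  have hs : ∀ x, 1 ≤ x → x ≤ 2 * n → σ x = sg0 x := by
    intro x hx1 hx2
    unfold sg0
    by_cases hp : x % 2 = 1
    · have h2 := h1 (x / 2) (by omega)
      have e1 : 2 * (x / 2) + 1 = x := by omega
      rw [e1] at h2
      rw [if_pos hp, h2]
      omega
    · have h2 := h1 ((x - 1) / 2) (by omega)
      have e1 : 2 * ((x - 1) / 2) + 1 = x - 1 := by omega
      have e2 : 2 * ((x - 1) / 2) + 2 = x := by omega
      rw [e1, e2] at h2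
      have h3 := (h.1 (x - 1) (by omega) (by omega)).2.2.2
      rw [h2] at h3
      rw [if_neg hp, h3]
  refine ⟨hs, ?_⟩
  have hlow : ∀ x, 2 * n + 1 ≤ x → x ≤ 2 * n + 4 → 2 * n + 1 ≤ σ x := by
    intro x hx1 hx2
    by_contra hc
    have h2 := h.1 x (by omega) hx2
    have h3 := hs (σ x) h2.1 (by omega)
    rw [h2.2.2.2] at h3
    unfold sg0 at h3
    split_ifs at h3 <;> omega
  have a1 := h.1 (2 * n + 1) (by omega) (by omega)
  have a2 := h.1 (2 * n + 2) (by omega) (by omega)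
  have a3 := h.1 (2 * n + 3) (by omega) (by omega)
  have a4 := h.1 (2 * n + 4) (by omega) (by omega)
  have l1 := hlow (2 * n + 1) (by omega) (by omega)
  have l2 := hlow (2 * n + 2) (by omega) (by omega)
  have l3 := hlow (2 * n + 3) (by omega) (by omega)
  have l4 := hlow (2 * n + 4) (by omega) (by omega)
  have hc : σ (2 * n + 1) = 2 * n + 2 ∨ σ (2 * n + 1) = 2 * n + 3 ∨ σ (2 * n + 1) = 2 * n + 4 := by omega
  rcases hc with hc | hc | hc
  · right
    rw [hc] at a1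
    have b2 : σ (2 * n + 2) = 2 * n + 1 := a1.2.2.2
    have b3 : σ (2 * n + 3) = 2 * n + 4 := by
      have h2 : σ (2 * n + 3) ≠ 2 * n + 1 := fun h3 => by rw [h3, hc] at a3; omega
      have h3 : σ (2 * n + 3) ≠ 2 * n + 2 := fun h3 => by rw [h3, b2] at a3; omega
      omega
    have b4 : σ (2 * n + 4) = 2 * n + 3 := by rw [b3] at a3; exact a3.2.2.2
    refine ⟨hc, b2, b3, b4, ?_⟩
    rintro (⟨_, h2⟩ | ⟨h2, _⟩)
    · have h3 := h2 (2 * n + 2) (by omega) (by omega)
      rw [b2] at h3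
      omega
    · omega
  · exfalso
    have h2 := h.2 (2 * n + 1) (2 * n + 2) (by omega) (by omega) (by rw [hc]; omega) (by rw [hc]; omega)
    rw [hc] at h2
    omega
  · left
    rw [hc] at a1
    have b4 : σ (2 * n + 4) = 2 * n + 1 := a1.2.2.2
    have b2 : σ (2 * n + 2) = 2 * n + 3 := by
      have h2 : σ (2 * n + 2) ≠ 2 * n + 1 := fun h3 => by rw [h3, hc] at a2; omega
      have h3 : σ (2 * n + 2) ≠ 2 * n + 4 := fun h3 => by rw [h3, b4] at a2; omega
      omega
    have b3 : σ (2 * n + 3) = 2 * n + 2 := by rw [b2] at a2; exact a2.2.2.2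
    refine ⟨hc, b2, b3, b4, Or.inl ⟨by omega, fun x hx1 hx2 => ?_⟩⟩
    have h5 : x = 2 * n + 2 ∨ x = 2 * n + 3 := by omega
    rcases h5 with h5 | h5
    · rw [h5, b2]
      omega
    · rw [h5, b3]
      omega

theorem prod_Icc_split (P : ℕ) (f : ℕ → ℂ) (Q : ℕ) (h : P ≤ Q) :
    ∏ x ∈ Icc 1 Q, f x = (∏ x ∈ Icc 1 P, f x) * ∏ x ∈ Ioc P Q, f x := by
  rw [← prod_union]
  · refine prod_congr ?_ fun _ _ => rfl
    ext x
    rw [mem_union, mem_Icc, mem_Icc, mem_Ioc]
    omega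
  · rw [disjoint_left]
    intro x h1 h2
    rw [mem_Icc] at h1
    rw [mem_Ioc] at h2
    omega

theorem prod_last (n : ℕ) (f : ℕ → ℂ) : ∏ x ∈ Icc 1 (2 * n + 4), f x =
    (∏ x ∈ Icc 1 (2 * n), f x) * (f (2 * n + 1) * f (2 * n + 2) * f (2 * n + 3) * f (2 * n + 4)) := by
  rw [prod_Icc_split (2 * n) f (2 * n + 4) (by omega)]
  have h : Ioc (2 * n) (2 * n + 4) = {2 * n + 1, 2 * n + 2, 2 * n + 3, 2 * n + 4} := by
    ext x
    simp only [mem_Ioc, mem_insert, mem_singleton]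
    omega
  rw [h, prod_insert (by simp), prod_insert (by simp), prod_insert (by simp), prod_singleton]
  ring

theorem prod_last2 (n : ℕ) (f : ℕ → ℂ) : ∏ x ∈ Icc 1 (2 * n + 2), f x =
    (∏ x ∈ Icc 1 (2 * n), f x) * (f (2 * n + 1) * f (2 * n + 2)) := by
  rw [prod_Icc_split (2 * n) f (2 * n + 2) (by omega)]
  have h : Ioc (2 * n) (2 * n + 2) = {2 * n + 1, 2 * n + 2} := by
    ext x
    simp only [mem_Ioc, mem_insert, mem_singleton]
    omega
  rw [h, prod_insert (by simp), prod_singleton]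

open Classical in
theorem v0_prod (n : ℕ) {D : Finset ℕ} (hD : D ∈ sec n) :
    v0 n D = (∏ x ∈ Icc 1 (2 * n), gx sg0 D x) * (if 2 * n + 1 ∈ D then 0 else 1) := by
  have hsub : ∀ x ∈ D, x ≤ 2 * n + 1 := fun x hx => (mem_Icc.1 ((mem_powersetCard.1 hD).1 hx)).2
  have hs := s_ne
  unfold v0 vec
  rw [Th_prod, prod_last2]
  have e0 : ∏ x ∈ Icc 1 (2 * n), gx sg0 (insert (2 * n + 2) D) x = ∏ x ∈ Icc 1 (2 * n), gx sg0 D x := by
    refine prod_congr rfl fun x hx => ?_
    rw [mem_Icc] at hx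
    refine gx_congr ?_ ?_ Iff.rfl
    · rw [mem_insert]
      exact ⟨fun h => h.resolve_left (by omega), Or.inr⟩
    · rw [mem_insert]
      have : sg0 x ≤ 2 * n := by unfold sg0; split_ifs <;> omega
      exact ⟨fun h => h.resolve_left (by omega), Or.inr⟩
  rw [e0]
  have g1 : sg0 (2 * n + 1) = 2 * n + 2 := by unfold sg0; rw [if_pos (by omega)]
  have g2 : sg0 (2 * n + 2) = 2 * n + 1 := by unfold sg0; rw [if_neg (by omega)]; rfl
  by_cases h : 2 * n + 1 ∈ D
  · rw [if_pos h, gx_zero (x := 2 * n + 1)]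
    · ring
    · rw [g1]
      intro h2
      exact h2.1 (mem_insert_self _ _) (mem_insert_of_mem h)
  · have h3 : 2 * n + 1 ∉ insert (2 * n + 2) D := by
      rw [mem_insert]
      rintro (h4 | h4)
      · omega
      · exact h h4
    rw [if_neg h, gx_up (x := 2 * n + 1) (by rw [g1]; exact mem_insert_self _ _) h3 (by rw [g1]; omega),
      gx_one (x := 2 * n + 2) ?_ (by rw [g2]; omega)]
    · field_simp
    · rw [g2]
      exact ⟨fun h4 => absurd h4 h3, fun h4 => absurd (mem_insert_self _ _) h4⟩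

open Classical in
theorem ip_vecA {n : ℕ} {σ : ℕ → ℕ} (h : IsNC (2 * n + 4) σ) :
    ip n (v0 n) (vecA n σ) = if Rl σ (2 * n + 1) (2 * n + 3) then s ^ 2 else 0 := by
  obtain ⟨D, hD, hne⟩ := v0_ne n
  have h1 := proj0 n (vecA n σ) hD
  have hsub : ∀ x ∈ D, x ≤ 2 * n + 1 := fun x hx => (mem_Icc.1 ((mem_powersetCard.1 hD).1 hx)).2
  have hE : ∀ x ∈ ({2 * n + 3, 2 * n + 4} : Finset ℕ), 2 * n + 1 < x := by
    intro x hx
    rw [mem_insert, mem_singleton] at hx
    omega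
  have hop : opW (oddL n) (vecA n σ) = vecA n (actW (oddL n) σ) := by
    refine opW_union h (by omega) _ hE (oddL n) fun i hi => ?_
    unfold oddL at hi
    rw [List.mem_map] at hi
    obtain ⟨k, hk, rfl⟩ := hi
    rw [List.mem_range] at hk
    omega
  obtain ⟨w1, w2, w3⟩ := odd_word (n := n) (by omega) h (k := 2 * n + 1) (l := 2 * n + 3) (by omega) (by omega) (by omega)
    (by omega) (by omega) (by omega) (by omega) n le_rfl
  obtain ⟨z1, z2⟩ := last_four w1 w2
  have hval : vecA n (actW (oddL n) σ) D = (if Rl σ (2 * n + 1) (2 * n + 3) then s ^ 2 else 0) * v0 n D := by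
    rw [v0_prod n hD]
    unfold vecA
    rw [Th_prod, prod_last]
    have e0 : ∏ x ∈ Icc 1 (2 * n), gx (actW (oddL n) σ) (D ∪ {2 * n + 3, 2 * n + 4}) x =
        ∏ x ∈ Icc 1 (2 * n), gx sg0 D x := by
      refine prod_congr rfl fun x hx => ?_
      rw [mem_Icc] at hx
      have hz := z1 x hx.1 hx.2
      have hle : sg0 x ≤ 2 * n := by unfold sg0; split_ifs <;> omega
      refine gx_congr ?_ ?_ (by rw [hz])
      · rw [mem_union, mem_insert, mem_singleton]
        exact ⟨fun h => h.resolve_right (by omega), Or.inl⟩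
      · rw [hz, mem_union, mem_insert, mem_singleton]
        exact ⟨fun h => h.resolve_right (by omega), Or.inl⟩
    rw [e0]
    have m3 : 2 * n + 3 ∈ D ∪ {2 * n + 3, 2 * n + 4} := by simp
    have m4 : 2 * n + 4 ∈ D ∪ {2 * n + 3, 2 * n + 4} := by simp
    have m2 : 2 * n + 2 ∉ D ∪ {2 * n + 3, 2 * n + 4} := by
      rw [mem_union, mem_insert, mem_singleton]
      rintro (h5 | h5 | h5)
      · have := hsub _ h5
        omega
      · omega
      · omega
    have m1 : 2 * n + 1 ∈ D ∪ {2 * n + 3, 2 * n + 4} ↔ 2 * n + 1 ∈ D := by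
      rw [mem_union, mem_insert, mem_singleton]
      exact ⟨fun h => h.resolve_right (by omega), Or.inl⟩
    rcases z2 with ⟨q1, q2, q3, q4, q5⟩ | ⟨q1, q2, q3, q4, q5⟩
    · rw [if_pos (w3.1 q5)]
      by_cases h6 : 2 * n + 1 ∈ D
      · rw [if_pos h6, gx_zero (x := 2 * n + 1)]
        · ring
        · rw [q1]
          intro h7
          exact h7.1 m4 (m1.2 h6)
      · rw [if_neg h6, gx_up (x := 2 * n + 1) (by rw [q1]; exact m4) (fun h7 => h6 (m1.1 h7)) (by rw [q1]; omega),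
          gx_up (x := 2 * n + 2) (by rw [q2]; exact m3) m2 (by rw [q2]; omega),
          gx_one (x := 2 * n + 3) (by rw [q3]; exact ⟨fun h7 => absurd h7 m2, fun h7 => absurd m3 h7⟩) (by rw [q3]; omega),
          gx_one (x := 2 * n + 4) (by
            rw [q4]
            exact ⟨fun h7 => absurd (m1.1 h7) h6, fun h7 => absurd m4 h7⟩) (by rw [q4]; omega)]
        ring
    · rw [if_neg (fun h6 => q5 (w3.2 h6)), gx_zero (x := 2 * n + 3)]
      · ring
      · rw [q3]
        intro h7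
        exact h7.1 m4 m3
  rw [hop, hval] at h1
  exact (mul_right_cancel₀ hne h1).symm

open Classical in
theorem ip_vecB {n : ℕ} {σ : ℕ → ℕ} (h : IsNC (2 * n + 4) σ) :
    ip n (v0 n) (vecB n σ) = if Rl σ (2 * n + 1) (2 * n + 3) then 0 else 1 := by
  obtain ⟨D, hD, hne⟩ := v0_ne n
  have h1 := proj0 n (vecB n σ) hD
  have hs := s_ne
  have hsub : ∀ x ∈ D, x ≤ 2 * n + 1 := fun x hx => (mem_Icc.1 ((mem_powersetCard.1 hD).1 hx)).2
  have hE : ∀ x ∈ ({2 * n + 2, 2 * n + 3} : Finset ℕ), 2 * n + 1 < x := by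
    intro x hx
    rw [mem_insert, mem_singleton] at hx
    omega
  have hop : opW (oddL n) (vecB n σ) = vecB n (actW (oddL n) σ) := by
    refine opW_union h (by omega) _ hE (oddL n) fun i hi => ?_
    unfold oddL at hi
    rw [List.mem_map] at hi
    obtain ⟨k, hk, rfl⟩ := hi
    rw [List.mem_range] at hk
    omega
  obtain ⟨w1, w2, w3⟩ := odd_word (n := n) (by omega) h (k := 2 * n + 1) (l := 2 * n + 3) (by omega) (by omega) (by omega)
    (by omega) (by omega) (by omega) (by omega) n le_rfl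
  obtain ⟨z1, z2⟩ := last_four w1 w2
  have hval : vecB n (actW (oddL n) σ) D = (if Rl σ (2 * n + 1) (2 * n + 3) then 0 else 1) * v0 n D := by
    rw [v0_prod n hD]
    unfold vecB
    rw [Th_prod, prod_last]
    have e0 : ∏ x ∈ Icc 1 (2 * n), gx (actW (oddL n) σ) (D ∪ {2 * n + 2, 2 * n + 3}) x =
        ∏ x ∈ Icc 1 (2 * n), gx sg0 D x := by
      refine prod_congr rfl fun x hx => ?_
      rw [mem_Icc] at hx
      have hz := z1 x hx.1 hx.2
      have hle : sg0 x ≤ 2 * n := by unfold sg0; split_ifs <;> omega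
      refine gx_congr ?_ ?_ (by rw [hz])
      · rw [mem_union, mem_insert, mem_singleton]
        exact ⟨fun h => h.resolve_right (by omega), Or.inl⟩
      · rw [hz, mem_union, mem_insert, mem_singleton]
        exact ⟨fun h => h.resolve_right (by omega), Or.inl⟩
    rw [e0]
    have m3 : 2 * n + 3 ∈ D ∪ {2 * n + 2, 2 * n + 3} := by simp
    have m2 : 2 * n + 2 ∈ D ∪ {2 * n + 2, 2 * n + 3} := by simp
    have m4 : 2 * n + 4 ∉ D ∪ {2 * n + 2, 2 * n + 3} := by
      rw [mem_union, mem_insert, mem_singleton]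
      rintro (h5 | h5 | h5)
      · have := hsub _ h5
        omega
      · omega
      · omega
    have m1 : 2 * n + 1 ∈ D ∪ {2 * n + 2, 2 * n + 3} ↔ 2 * n + 1 ∈ D := by
      rw [mem_union, mem_insert, mem_singleton]
      exact ⟨fun h => h.resolve_right (by omega), Or.inl⟩
    rcases z2 with ⟨q1, q2, q3, q4, q5⟩ | ⟨q1, q2, q3, q4, q5⟩
    · rw [if_pos (w3.1 q5), gx_zero (x := 2 * n + 2)]
      · ring
      · rw [q2]
        intro h7
        exact h7.1 m3 m2
    · rw [if_neg (fun h6 => q5 (w3.2 h6))]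
      by_cases h6 : 2 * n + 1 ∈ D
      · rw [if_pos h6, gx_zero (x := 2 * n + 1)]
        · ring
        · rw [q1]
          intro h7
          exact h7.1 m2 (m1.2 h6)
      · rw [if_neg h6, gx_up (x := 2 * n + 1) (by rw [q1]; exact m2) (fun h7 => h6 (m1.1 h7)) (by rw [q1]; omega),
          gx_one (x := 2 * n + 2) (by
            rw [q2]
            exact ⟨fun h7 => absurd (m1.1 h7) h6, fun h7 => absurd m2 h7⟩) (by rw [q2]; omega),
          gx_dn (x := 2 * n + 3) (by rw [q3]; exact m4) m3 (by rw [q3]; omega),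
          gx_one (x := 2 * n + 4) (by rw [q4]; exact ⟨fun _ => m4, fun _ => m3⟩) (by rw [q4]; omega)]
        field_simp
  rw [hop, hval] at h1
  exact (mul_right_cancel₀ hne h1).symm

end CD
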